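import Pool.Agent.H957.SE.Stm

/-!
# Centre test with equality
-/

set_option autoImplicit false

open Polynomial MeasureTheory

namespace Pool.Agent.H957.SE.Cen

open Pool.Agent.H957.SE

theorem main : Pool.Agent.H957.SE.StCen := by
  intro m a ha z w hcrit
  obtain ⟨P, hP⟩ : ∃ P : ℂ[X], P = (X - C (a : ℂ)) * ∏ j, (X - C (z j)) := ⟨_, rfl⟩
  have hP' : ∀ x : ℂ, (derivative P).eval x = (m + 1 : ℂ) * ∏ k, (x - w k) := by
    intro x
    rw [hP]
    exact hcrit x
  have hPe : ∀ x : ℂ, P.eval x = (x - a) * ∏ j, (x - z j) := by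
    intro x
    rw [hP, eval_mul, eval_sub, eval_X, eval_C, eval_prod]
    simp only [eval_sub, eval_X, eval_C]
  have hderiv : ∀ t ∈ Set.uIcc (0 : ℝ) 1, HasDerivAt (fun t : ℝ => P.eval ((a : ℂ) * t))
      ((a : ℂ) * ((m + 1 : ℂ) * ∏ k, ((a : ℂ) * t - w k))) t := by
    intro t _
    have h1 : HasDerivAt (fun s : ℝ => (a : ℂ) * (s : ℂ)) ((a : ℂ) * 1) t :=
      (Complex.ofRealCLM.hasDerivAt (x := t)).const_mul (a : ℂ)
    have h2 : HasDerivAt (fun x : ℂ => P.eval x) ((derivative P).eval ((a : ℂ) * t))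
        ((a : ℂ) * t) := P.hasDerivAt _
    have h3 := h2.comp t h1
    rw [hP', mul_one, mul_comm] at h3
    exact h3
  have hint := intervalIntegral.integral_eq_sub_of_hasDerivAt hderiv (by
    apply Continuous.intervalIntegrable
    fun_prop)
  rw [intervalIntegral.integral_const_mul, intervalIntegral.integral_const_mul] at hint
  have hA : (a : ℂ) * A a w = (a : ℂ) * ∏ j, (0 - z j) := by
    unfold A
    rw [hint, hPe, hPe, Complex.ofReal_one, mul_one, sub_self, zero_mul, Complex.ofReal_zero,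
      mul_zero, zero_sub, zero_sub]
    ring
  have ha0 : (a : ℂ) ≠ 0 := by exact_mod_cast ha.ne'
  rw [mul_left_cancel₀ ha0 hA, norm_prod]
  refine Finset.prod_congr rfl fun j _ => ?_
  rw [zero_sub, norm_neg]

end Pool.Agent.H957.SE.Cen
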