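import Pool.Agent.H957.SE.Stm2

set_option autoImplicit false

/-! # COEF2: comparison of the second coefficients of the derivative -/

open Polynomial

namespace Pool.Agent.H957.SE.Coef2

open Pool.Agent.H957.SE

/-- the first coefficients of a product of linear factors -/
theorem coeffs (n : ℕ) : ∀ y : Fin (n + 2) → ℂ,
    (∏ i, (X - C (y i))).coeff n = e2 y ∧ (∏ i, (X - C (y i))).coeff (n + 1) = - e1 y ∧
      (∏ i, (X - C (y i))).coeff (n + 2) = 1 := by
  induction n with
  | zero =>
    intro y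
    have h : (∏ i : Fin 2, (X - C (y i))) = X ^ 2 - C (y 0 + y 1) * X + C (y 0 * y 1) := by
      rw [Fin.prod_univ_two, C_add, C_mul]
      ring
    refine ⟨?_, ?_, ?_⟩
    · rw [h, e2, Fin.sum_univ_two, Fin.sum_univ_two]
      simp only [coeff_add, coeff_sub, coeff_X_pow, coeff_C_mul, coeff_X, coeff_C]
      norm_num
      ring
    · rw [h, e1, Fin.sum_univ_two]
      simp only [coeff_add, coeff_sub, coeff_X_pow, coeff_C_mul, coeff_X, coeff_C]
      norm_num
    · rw [h]
      simp only [coeff_add, coeff_sub, coeff_X_pow, coeff_C_mul, coeff_X, coeff_C]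
      norm_num
  | succ n ih =>
    intro y
    obtain ⟨h0, h1, h2⟩ := ih (fun i => y i.castSucc)
    have hdeg : (∏ i : Fin (n + 2), (X - C (y i.castSucc))).natDegree = n + 2 := by
      rw [natDegree_prod_of_monic _ _ (fun i _ => monic_X_sub_C _)]
      simp
    have h3 : (∏ i : Fin (n + 2), (X - C (y i.castSucc))).coeff (n + 3) = 0 :=
      coeff_eq_zero_of_natDegree_lt (by rw [hdeg]; omega)
    have key : ∀ k : ℕ, (∏ i : Fin (n + 1 + 2), (X - C (y i))).coeff (k + 1) =
        (∏ i : Fin (n + 2), (X - C (y i.castSucc))).coeff k -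
          (∏ i : Fin (n + 2), (X - C (y i.castSucc))).coeff (k + 1) * y (Fin.last (n + 2)) := by
      intro k
      rw [Fin.prod_univ_castSucc, mul_sub, coeff_sub, coeff_mul_X, coeff_mul_C]
    have hs1 : ∑ i : Fin (n + 1 + 2), y i = ∑ i : Fin (n + 2), y i.castSucc + y (Fin.last (n + 2)) :=
      Fin.sum_univ_castSucc _
    have hs2 : ∑ i : Fin (n + 1 + 2), y i ^ 2 =
        ∑ i : Fin (n + 2), y i.castSucc ^ 2 + y (Fin.last (n + 2)) ^ 2 :=
      Fin.sum_univ_castSucc _
    refine ⟨?_, ?_, ?_⟩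
    · rw [key n, h0, h1, e2, e2, e1, hs1, hs2]
      ring
    · rw [key (n + 1), h1, h2, e1, e1, hs1]
      ring
    · rw [key (n + 2), h2, h3]
      ring

theorem main : StCoef2 := by
  intro m a z w h
  have hP : (X - C (a : ℂ)) * ∏ j, (X - C (z j)) = ∏ i, (X - C (zs a z i)) := by
    have e := Fin.prod_univ_succ (fun i : Fin (m + 2 + 1) => (X - C (zs a z i)))
    rw [e]
    rfl
  have hpol : derivative (∏ i, (X - C (zs a z i))) =
      C ((m : ℂ) + 3) * ∏ k, (X - C (w k)) := by
    refine Polynomial.funext fun x => ?_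
    rw [← hP, h x, eval_mul, eval_C, eval_prod]
    have e : (((m + 2 : ℕ) : ℂ) + 1) = (m : ℂ) + 3 := by
      push_cast
      ring
    rw [e]
    congr 1
    refine Finset.prod_congr rfl fun k _ => ?_
    rw [eval_sub, eval_X, eval_C]
  have h1 : (derivative (∏ i, (X - C (zs a z i)))).coeff m =
      (C ((m : ℂ) + 3) * ∏ k, (X - C (w k))).coeff m := by rw [hpol]
  rw [coeff_derivative, coeff_C_mul, (coeffs m w).1] at h1
  have h2 : (∏ i, (X - C (zs a z i))).coeff (m + 1) = e2 (zs a z) := (coeffs (m + 1) (zs a z)).1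
  rw [h2] at h1
  rw [mul_comm]
  exact h1

end Pool.Agent.H957.SE.Coef2
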