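import Pool.Agent.H957.SE.Stm
import Pool.Graph.R_seed8.Results.MP_f0bc87_an.AllNegativeExponents

set_option autoImplicit false

/-!
# Compactness: the global theorem `StCom` from the local theorem `StLoc` and the library theorem
-/

open Polynomial Filter Topology

namespace Pool.Agent.H957.SE.Com

open Pool.Agent.H957.SE

/-- the polynomial -/
noncomputable def Q {N : ℕ} (a : ℝ) (z : Fin N → ℂ) : ℂ[X] :=
  (X - C (a : ℂ)) * ∏ j, (X - C (z j))

lemma Q_monic {N : ℕ} (a : ℝ) (z : Fin N → ℂ) : (Q a z).Monic :=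
  (monic_X_sub_C _).mul (monic_prod_of_monic _ _ fun j _ => monic_X_sub_C _)

lemma Q_natDegree {N : ℕ} (a : ℝ) (z : Fin N → ℂ) : (Q a z).natDegree = N + 1 :=
  Pool.Agent.H565.Pm.P_natDegree a z

lemma Q_roots {N : ℕ} (a : ℝ) (z : Fin N → ℂ) :
    (Q a z).roots = (a : ℂ) ::ₘ Multiset.map z Finset.univ.val := by
  unfold Q
  rw [roots_mul (Q_monic a z).ne_zero, roots_X_sub_C,
    roots_prod _ _ (Finset.prod_ne_zero_iff.2 fun j _ => X_sub_C_ne_zero _)]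
  simp only [roots_X_sub_C]
  rw [Multiset.singleton_add]
  congr 1
  exact Multiset.bind_singleton _ _

lemma Q_roots_norm {N : ℕ} {a : ℝ} (ha0 : 0 ≤ a) (ha1 : a ≤ 1) {z : Fin N → ℂ}
    (hz : ∀ j, ‖z j‖ ≤ 1) : ∀ x ∈ (Q a z).roots, ‖x‖ ≤ 1 := by
  intro x hx
  rw [Q_roots, Multiset.mem_cons] at hx
  rcases hx with rfl | hx
  · rw [Complex.norm_real, Real.norm_eq_abs, abs_of_nonneg ha0]; exact ha1
  · obtain ⟨j, -, rfl⟩ := Multiset.mem_map.1 hx
    exact hz j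

/-- the critical points are the roots of the derivative -/
lemma crit_roots {N : ℕ} {a : ℝ} {z w : Fin N → ℂ} (h : Crit a z w) :
    (derivative (Q a z)).roots = Multiset.map w Finset.univ.val := by
  have hfac : derivative (Q a z) = C (N + 1 : ℂ) * ∏ k, (X - C (w k)) := by
    refine Polynomial.funext fun x => ?_
    have := h x
    unfold Q
    rw [this, eval_mul, eval_C, eval_prod]
    simp only [eval_sub, eval_X, eval_C]
  have hm1 : (N + 1 : ℂ) ≠ 0 := by exact_mod_cast Nat.succ_ne_zero N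
  rw [hfac, roots_C_mul _ hm1,
    roots_prod _ _ (Finset.prod_ne_zero_iff.2 fun j _ => X_sub_C_ne_zero _)]
  simp only [roots_X_sub_C]
  exact Multiset.bind_singleton _ _

/-- Gauss-Lucas -/
lemma crit_norm {N : ℕ} {a : ℝ} (ha0 : 0 ≤ a) (ha1 : a ≤ 1) {z w : Fin N → ℂ}
    (hz : ∀ j, ‖z j‖ ≤ 1) (h : Crit a z w) (k : Fin N) : ‖w k‖ ≤ 1 := by
  have hdeg : 0 < (Q a z).degree := by
    rw [← natDegree_pos_iff_degree_pos, Q_natDegree]; omega
  have hd0 : derivative (Q a z) ≠ 0 := by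
    intro h0
    have := natDegree_derivative (Q a z)
    rw [h0, natDegree_zero, Q_natDegree] at this
    have : N = 0 := by omega
    subst this
    exact k.elim0
  have hk : w k ∈ (derivative (Q a z)).roots := by
    rw [crit_roots h]
    exact Multiset.mem_map_of_mem _ (Finset.mem_univ_val k)
  have h1 : w k ∈ (derivative (Q a z)).rootSet ℂ := by
    rw [mem_rootSet]
    refine ⟨hd0, ?_⟩
    have := (mem_roots hd0).1 hk
    simpa [IsRoot, aeval_def] using this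
  have h2 := Polynomial.rootSet_derivative_subset_convexHull_rootSet hdeg h1
  have h3 : (Q a z).rootSet ℂ ⊆ Metric.closedBall (0 : ℂ) 1 := by
    intro x hx
    rw [mem_rootSet] at hx
    rw [mem_closedBall_zero_iff]
    apply Q_roots_norm ha0 ha1 hz
    rw [mem_roots (Q_monic a z).ne_zero]
    simpa [IsRoot, aeval_def] using hx.2
  have h4 := convexHull_min h3 (convex_closedBall _ _) h2
  simpa using h4

/-- the condition `Crit` is closed -/
lemma crit_closed {N : ℕ} {a : ℕ → ℝ} {z w : ℕ → Fin N → ℂ} {a' : ℝ} {z' w' : Fin N → ℂ}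
    (ha : Tendsto a atTop (𝓝 a')) (hz : Tendsto z atTop (𝓝 z')) (hw : Tendsto w atTop (𝓝 w'))
    (h : ∀ i, Crit (a i) (z i) (w i)) : Crit a' z' w' := by
  intro x
  have hform : ∀ (b : ℝ) (y : Fin N → ℂ),
      (derivative ((X - C (b : ℂ)) * ∏ j, (X - C (y j)))).eval x =
        (∏ j, (x - y j)) + (x - (b : ℂ)) * ∑ i, ∏ j ∈ Finset.univ.erase i, (x - y j) := by
    intro b y
    rw [derivative_mul, derivative_prod_finset]
    simp [eval_prod, eval_finset_sum]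
  have hz' : ∀ j, Tendsto (fun i => z i j) atTop (𝓝 (z' j)) := fun j =>
    (tendsto_pi_nhds.1 hz) j
  have hw' : ∀ j, Tendsto (fun i => w i j) atTop (𝓝 (w' j)) := fun j =>
    (tendsto_pi_nhds.1 hw) j
  have ha' : Tendsto (fun i => ((a i : ℝ) : ℂ)) atTop (𝓝 (a' : ℂ)) :=
    (Complex.continuous_ofReal.tendsto a').comp ha
  have h1 : Tendsto (fun i => (derivative ((X - C ((a i : ℝ) : ℂ)) * ∏ j, (X - C (z i j)))).eval x)
      atTop (𝓝 ((derivative ((X - C (a' : ℂ)) * ∏ j, (X - C (z' j)))).eval x)) := by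
    simp only [hform]
    refine Tendsto.add ?_ (Tendsto.mul ?_ ?_)
    · exact tendsto_finsetProd _ fun j _ => (hz' j).const_sub x
    · exact ha'.const_sub x
    · exact tendsto_finsetSum _ fun i _ => tendsto_finsetProd _ fun j _ => (hz' j).const_sub x
  have h2 : Tendsto (fun i => (N + 1 : ℂ) * ∏ k, (x - w i k)) atTop
      (𝓝 ((N + 1 : ℂ) * ∏ k, (x - w' k))) :=
    (tendsto_finsetProd _ fun j _ => (hw' j).const_sub x).const_mul _
  have h3 : (fun i => (derivative ((X - C ((a i : ℝ) : ℂ)) * ∏ j, (X - C (z i j)))).eval x) =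
      fun i => (N + 1 : ℂ) * ∏ k, (x - w i k) := funext fun i => h i x
  rw [h3] at h1
  exact tendsto_nhds_unique h1 h2

/-- Bernoulli -/
lemma bern {y s t : ℝ} (hy : 0 ≤ y) (ht : 0 < t) (hts : t ≤ s) :
    1 + s / t * (y ^ t - 1) ≤ y ^ s := by
  have h1 := one_add_mul_self_le_rpow_one_add (s := y ^ t - 1)
    (by linarith [Real.rpow_nonneg hy t]) (p := s / t) ((one_le_div ht).2 hts)
  refine h1.trans (le_of_eq ?_)
  rw [show 1 + (y ^ t - 1) = y ^ t by ring, ← Real.rpow_mul hy]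
  congr 1
  field_simp

lemma sum_bern {N : ℕ} (y : Fin N → ℝ) (hy : ∀ k, 0 ≤ y k) {s t c X : ℝ} (ht : 0 < t)
    (hts : t ≤ s) (hX : 0 ≤ X) (hc : 0 ≤ c) (h : (N : ℝ) + c * X ≤ ∑ k, y k ^ t) :
    (N : ℝ) + c * X ≤ ∑ k, y k ^ s := by
  have h1 : ∑ k, (1 + s / t * (y k ^ t - 1)) ≤ ∑ k, y k ^ s :=
    Finset.sum_le_sum fun k _ => bern (hy k) ht hts
  have h2 : ∑ k, (1 + s / t * (y k ^ t - 1)) = N + s / t * (∑ k, y k ^ t - N) := by
    rw [Finset.sum_add_distrib, ← Finset.mul_sum, Finset.sum_sub_distrib]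
    simp
  rw [h2] at h1
  have h3 : 1 ≤ s / t := (one_le_div ht).2 hts
  have h4 : c * X ≤ ∑ k, y k ^ t - N := by linarith
  have h5 : 0 ≤ c * X := mul_nonneg hc hX
  have h6 : 1 * (c * X) ≤ s / t * (∑ k, y k ^ t - N) := mul_le_mul h3 h4 h5 (by linarith)
  linarith

/-- the limit object: rigidity for the exponent two -/
lemma rigid {N : ℕ} (hN : 1 ≤ N) {a : ℝ} (ha0 : 0 ≤ a) (ha1 : a ≤ 1) {z w : Fin N → ℂ}
    (hz : ∀ j, ‖z j‖ ≤ 1) (h : Crit a z w) (hne : ∀ k, w k ≠ (a : ℂ))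
    (hle : ∑ k, (‖w k - (a : ℂ)‖ ^ 2)⁻¹ ≤ N) : a = 1 ∧ ∀ k, w k = 0 := by
  have hr := crit_roots h
  have hd : (a : ℂ) ∉ (derivative (Q a z)).roots := by
    rw [hr]
    intro hmem
    obtain ⟨k, -, hk⟩ := Multiset.mem_map.1 hmem
    exact hne k hk
  have ha : (a : ℂ) ∈ (Q a z).roots := by
    rw [Q_roots]; exact Multiset.mem_cons_self _ _
  have hdeg := Q_natDegree a z
  have hex := Pool.Agent.Results.MP_f0bc87_an.AllNegativeExponents.extremal
    (p := Q a z) (by rw [hdeg]; omega) (Q_roots_norm ha0 ha1 hz) ha hd (by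
      rw [hr, hdeg, Multiset.map_map]
      exact hle)
  obtain ⟨h1, h2⟩ := hex
  have ha' : a = 1 := by
    rw [Complex.norm_real, Real.norm_eq_abs, abs_of_nonneg ha0] at h1
    exact h1
  refine ⟨ha', fun k => ?_⟩
  have h3 : (derivative (Q a z)).eval (w k) = 0 := by
    have := h (w k)
    unfold Q
    rw [this, Finset.prod_eq_zero (Finset.mem_univ k) (by ring), mul_zero]
  rw [h2, (Q_monic a z).leadingCoeff, hdeg] at h3
  simp only [C_1, one_mul, derivative_sub, derivative_X_pow, derivative_C, sub_zero, eval_mul,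
    eval_C, eval_pow, eval_X] at h3
  rcases mul_eq_zero.1 h3 with h4 | h4
  · exfalso
    have : ((N + 1 : ℕ) : ℂ) ≠ 0 := by exact_mod_cast Nat.succ_ne_zero N
    exact this h4
  · exact pow_eq_zero_iff (by omega) |>.1 h4

theorem com (hLoc : StLoc) : StCom := by
  intro m
  by_contra hcon
  push Not at hcon
  -- the sequence of counterexamples
  have hseq : ∀ i : ℕ, ∃ (a : ℝ) (z w : Fin (m + 2) → ℂ), 0 ≤ a ∧ a ≤ 1 ∧ (∀ j, ‖z j‖ ≤ 1) ∧
      Crit a z w ∧ (∀ k, w k ≠ (a : ℂ)) ∧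
      ∑ k, ‖w k - (a : ℂ)‖⁻¹ ^ (2 - 1 / ((i : ℝ) + 2)) <
        ((m + 2 : ℕ) : ℝ) + 1 / ((i : ℝ) + 1) * ((1 - a) + ∑ k, ‖w k‖ ^ 2) := by
    intro i
    have hi : (0 : ℝ) ≤ i := Nat.cast_nonneg i
    have h1 : 1 / ((i : ℝ) + 2) ≤ 1 / 2 := one_div_le_one_div_of_le (by norm_num) (by linarith)
    have h2 : 0 < 1 / ((i : ℝ) + 2) := by positivity
    exact hcon (2 - 1 / ((i : ℝ) + 2)) (1 / ((i : ℝ) + 1)) (by linarith) (by linarith)
      (by positivity)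
  choose a z w ha0 ha1 hz hcrit hne hlt using hseq
  have hwn : ∀ i k, ‖w i k‖ ≤ 1 := fun i k => crit_norm (ha0 i) (ha1 i) (hz i) (hcrit i) k
  -- compactness
  have hcomp : IsCompact ((Set.Icc (0:ℝ) 1) ×ˢ ((Set.pi Set.univ fun _ : Fin (m + 2) =>
      Metric.closedBall (0:ℂ) 1) ×ˢ (Set.pi Set.univ fun _ : Fin (m + 2) =>
      Metric.closedBall (0:ℂ) 1))) := by
    refine isCompact_Icc.prod (IsCompact.prod ?_ ?_)
    · exact isCompact_univ_pi fun _ => isCompact_closedBall _ _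
    · exact isCompact_univ_pi fun _ => isCompact_closedBall _ _
  obtain ⟨⟨a', z', w'⟩, hmem, φ, hφ, hlim⟩ := hcomp.tendsto_subseq
    (x := fun i => (a i, z i, w i)) (fun i => by
      refine ⟨⟨ha0 i, ha1 i⟩, ?_, ?_⟩
      · intro j _; simpa using hz i j
      · intro j _; simpa using hwn i j)
  obtain ⟨⟨ha0', ha1'⟩, hz', -⟩ := hmem
  have hz'' : ∀ j, ‖z' j‖ ≤ 1 := fun j => by simpa using hz' j (Set.mem_univ j)
  have hla : Tendsto (fun i => a (φ i)) atTop (𝓝 a') :=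
    ((continuous_fst.tendsto _).comp hlim)
  have hlz : Tendsto (fun i => z (φ i)) atTop (𝓝 z') :=
    ((continuous_fst.comp continuous_snd).tendsto _).comp hlim
  have hlw : Tendsto (fun i => w (φ i)) atTop (𝓝 w') :=
    ((continuous_snd.comp continuous_snd).tendsto _).comp hlim
  have hcrit' : Crit a' z' w' := crit_closed hla hlz hlw fun i => hcrit (φ i)
  have hlwk : ∀ k, Tendsto (fun i => w (φ i) k) atTop (𝓝 (w' k)) := fun k =>
    (tendsto_pi_nhds.1 hlw) k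
  have hlac : Tendsto (fun i => ((a (φ i) : ℝ) : ℂ)) atTop (𝓝 (a' : ℂ)) :=
    (Complex.continuous_ofReal.tendsto a').comp hla
  have hld : ∀ k, Tendsto (fun i => ‖w (φ i) k - (a (φ i) : ℂ)‖) atTop
      (𝓝 ‖w' k - (a' : ℂ)‖) := fun k => ((hlwk k).sub hlac).norm
  -- bound of the sums
  obtain ⟨X, hX⟩ : ∃ X : ℕ → ℝ, ∀ i, X i = (1 - a i) + ∑ k, ‖w i k‖ ^ 2 := ⟨_, fun i => rfl⟩
  have hX0 : ∀ i, 0 ≤ X i := by
    intro i
    rw [hX]
    have := ha1 i
    have h2 : 0 ≤ ∑ k, ‖w i k‖ ^ 2 := Finset.sum_nonneg fun _ _ => sq_nonneg _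
    linarith
  have hXB : ∀ i, X i ≤ (m : ℝ) + 3 := by
    intro i
    rw [hX]
    have := ha0 i
    have h2 : ∑ k, ‖w i k‖ ^ 2 ≤ ∑ _k : Fin (m + 2), (1 : ℝ) :=
      Finset.sum_le_sum fun k _ => pow_le_one₀ (norm_nonneg _) (hwn i k)
    simp only [Finset.sum_const, Finset.card_univ, Fintype.card_fin, nsmul_eq_mul, mul_one] at h2
    push_cast at h2
    linarith
  have hlt' : ∀ i, ∑ k, ‖w i k - (a i : ℂ)‖⁻¹ ^ (2 - 1 / ((i : ℝ) + 2)) <
      ((m + 2 : ℕ) : ℝ) + 1 / ((i : ℝ) + 1) * X i := by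
    intro i; rw [hX]; exact hlt i
  have hB : ∀ i k, ((2 * m + 5 : ℝ))⁻¹ ≤ ‖w i k - (a i : ℂ)‖ := by
    intro i k
    have hpos : 0 < ‖w i k - (a i : ℂ)‖ := norm_pos_iff.2 (sub_ne_zero.2 (hne i k))
    have hm0 : (0 : ℝ) ≤ m := Nat.cast_nonneg m
    have hi : (0 : ℝ) ≤ i := Nat.cast_nonneg i
    rw [inv_le_comm₀ (by positivity) hpos]
    by_contra hc
    push Not at hc
    have h1 : ‖w i k - (a i : ℂ)‖⁻¹ ^ (2 - 1 / ((i : ℝ) + 2)) ≤
        ∑ k, ‖w i k - (a i : ℂ)‖⁻¹ ^ (2 - 1 / ((i : ℝ) + 2)) :=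
      Finset.single_le_sum (f := fun k => ‖w i k - (a i : ℂ)‖⁻¹ ^ (2 - 1 / ((i : ℝ) + 2)))
        (fun _ _ => by positivity) (Finset.mem_univ k)
    have h2 : 1 / ((i : ℝ) + 1) * X i ≤ 1 * ((m : ℝ) + 3) := by
      apply mul_le_mul _ (hXB i) (hX0 i) (by norm_num)
      rw [div_le_one (by positivity)]; linarith
    have h3 : 1 / ((i : ℝ) + 2) ≤ 1 / 2 := one_div_le_one_div_of_le (by norm_num) (by linarith)
    have h4 : ‖w i k - (a i : ℂ)‖⁻¹ ^ (1 : ℝ) ≤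
        ‖w i k - (a i : ℂ)‖⁻¹ ^ (2 - 1 / ((i : ℝ) + 2)) :=
      Real.rpow_le_rpow_of_exponent_le (by linarith) (by linarith)
    rw [Real.rpow_one] at h4
    have h5 := hlt' i
    push_cast at h5
    linarith
  have hB' : ∀ k, ((2 * m + 5 : ℝ))⁻¹ ≤ ‖w' k - (a' : ℂ)‖ := fun k =>
    ge_of_tendsto (hld k) (Eventually.of_forall fun i => hB (φ i) k)
  have hne' : ∀ k, w' k ≠ (a' : ℂ) := by
    intro k hk
    have := hB' k
    rw [hk, sub_self, norm_zero] at this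
    have h2 : (0 : ℝ) < (2 * (m : ℝ) + 5)⁻¹ := by positivity
    linarith
  -- limit of the sums
  have hexp : Tendsto (fun i : ℕ => 2 - 1 / (((φ i : ℕ) : ℝ) + 2)) atTop (𝓝 2) := by
    have h1 : Tendsto (fun i : ℕ => ((φ i : ℕ) : ℝ) + 2) atTop atTop :=
      tendsto_atTop_add_const_right _ _ (tendsto_natCast_atTop_atTop.comp hφ.tendsto_atTop)
    have h2 := (tendsto_const_nhds (x := (1:ℝ))).div_atTop h1
    have h3 := h2.const_sub 2
    simpa using h3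
  have hcoef : Tendsto (fun i : ℕ => 1 / (((φ i : ℕ) : ℝ) + 1)) atTop (𝓝 0) := by
    have h1 : Tendsto (fun i : ℕ => ((φ i : ℕ) : ℝ) + 1) atTop atTop :=
      tendsto_atTop_add_const_right _ _ (tendsto_natCast_atTop_atTop.comp hφ.tendsto_atTop)
    exact (tendsto_const_nhds (x := (1:ℝ))).div_atTop h1
  have hsum : Tendsto (fun i => ∑ k, ‖w (φ i) k - (a (φ i) : ℂ)‖⁻¹ ^
      (2 - 1 / (((φ i : ℕ) : ℝ) + 2))) atTop (𝓝 (∑ k, ‖w' k - (a' : ℂ)‖⁻¹ ^ (2 : ℝ))) := by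
    refine tendsto_finsetSum _ fun k _ => ?_
    have hpos : 0 < ‖w' k - (a' : ℂ)‖ := norm_pos_iff.2 (sub_ne_zero.2 (hne' k))
    exact ((hld k).inv₀ hpos.ne').rpow hexp (Or.inl (inv_pos.2 hpos).ne')
  have hle : ∑ k, ‖w' k - (a' : ℂ)‖⁻¹ ^ (2 : ℝ) ≤ ((m + 2 : ℕ) : ℝ) := by
    have h1 : Tendsto (fun i => ((m + 2 : ℕ) : ℝ) + 1 / (((φ i : ℕ) : ℝ) + 1) * ((m : ℝ) + 3))
        atTop (𝓝 (((m + 2 : ℕ) : ℝ) + 0 * ((m : ℝ) + 3))) :=
      (hcoef.mul_const _).const_add _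
    rw [zero_mul, add_zero] at h1
    refine le_of_tendsto_of_tendsto' hsum h1 fun i => ?_
    refine (hlt' (φ i)).le.trans ?_
    have h2 : 0 ≤ 1 / (((φ i : ℕ) : ℝ) + 1) := by positivity
    have := mul_le_mul_of_nonneg_left (hXB (φ i)) h2
    linarith
  have hle2 : ∑ k, (‖w' k - (a' : ℂ)‖ ^ 2)⁻¹ ≤ ((m + 2 : ℕ) : ℝ) := by
    refine le_trans (le_of_eq ?_) hle
    refine Finset.sum_congr rfl fun k _ => ?_
    rw [Real.rpow_ofNat, inv_pow]
  obtain ⟨ha1'', hw0⟩ : a' = 1 ∧ ∀ k, w' k = 0 := rigid (by omega) ha0' ha1' hz'' hcrit' hne' hle2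
  -- the local theorem
  obtain ⟨δ, c, hδ, hc, hloc⟩ := hLoc m (3 / 2) (by norm_num)
    (by
      have : (0 : ℝ) ≤ m := Nat.cast_nonneg m
      linarith) (by norm_num)
  have ev1 : ∀ᶠ i in atTop, 1 - δ ≤ a (φ i) := by
    rw [ha1''] at hla
    exact (hla.eventually (lt_mem_nhds (by linarith : 1 - δ < 1))).mono fun i hi => hi.le
  have ev2 : ∀ᶠ i in atTop, ∀ k, ‖w (φ i) k‖ ≤ δ := by
    rw [eventually_all]
    intro k
    have h1 := (hlwk k).norm
    rw [hw0 k, norm_zero] at h1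
    exact (h1.eventually (gt_mem_nhds hδ)).mono fun i hi => hi.le
  have ev3 : ∀ᶠ i in atTop, 1 / (((φ i : ℕ) : ℝ) + 1) ≤ c :=
    (hcoef.eventually (gt_mem_nhds hc)).mono fun i hi => hi.le
  obtain ⟨i, h1, h2, h3⟩ := (ev1.and (ev2.and ev3)).exists
  have h4 := hloc (a (φ i)) (z (φ i)) (w (φ i)) h1 (ha1 _) (hz _) (hcrit _) h2
  rw [← hX] at h4
  have h5 : (3 / 2 : ℝ) ≤ 2 - 1 / (((φ i : ℕ) : ℝ) + 2) := by
    have : 1 / (((φ i : ℕ) : ℝ) + 2) ≤ 1 / 2 :=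
      one_div_le_one_div_of_le (by norm_num) (by
        have : (0 : ℝ) ≤ ((φ i : ℕ) : ℝ) := Nat.cast_nonneg _
        linarith)
    linarith
  have h6 := sum_bern (fun k => ‖w (φ i) k - (a (φ i) : ℂ)‖⁻¹) (fun k => by positivity)
    (by norm_num : (0:ℝ) < 3 / 2) h5 (hX0 _) hc.le h4
  have h7 := hlt' (φ i)
  have h8 := mul_le_mul_of_nonneg_right h3 (hX0 (φ i))
  linarith

end Pool.Agent.H957.SE.Com
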