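import Pool.Agent.H957.SE.Stm2

set_option autoImplicit false

/-! (E2A): the real part of `e2 w` for at least four critical points. -/

open Polynomial

namespace Pool.Agent.H957.SE.E2a

theorem prod_zs {m : ℕ} (a : ℝ) (ha : 0 ≤ a) (z : Fin m → ℂ) :
    ∏ i, ‖zs a z i‖ = a * ∏ j, ‖z j‖ := by
  rw [Fin.prod_univ_succ]
  unfold zs
  simp only [Fin.cons_zero, Fin.cons_succ]
  rw [Complex.norm_real, Real.norm_eq_abs, abs_of_nonneg ha]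

theorem bound_T {a ρ μ T : ℝ} (ha : 1 / 2 ≤ a) (ha1 : a ≤ 1) (hρ : 1 / 2 ≤ ρ) (hρ1 : ρ ≤ 1)
    (hμ : μ = (1 - a) + (1 - ρ)) (hT : T = ((a * ρ) ^ 2)⁻¹ - 1) :
    0 ≤ T ∧ T ≤ 2 * μ + 48 * μ ^ 2 ∧ 0 ≤ μ ∧ μ ≤ 1 := by
  have hμ0 : 0 ≤ μ := by rw [hμ]; linarith
  have hμ1 : μ ≤ 1 := by rw [hμ]; linarith
  set Q : ℝ := a * ρ with hQ
  have hQ4 : 1 / 4 ≤ Q := by rw [hQ]; nlinarith
  have hQ1 : Q ≤ 1 := by rw [hQ]; nlinarith
  have hQ0 : 0 < Q := by linarith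
  have hτ : 1 - Q ≤ μ := by rw [hμ, hQ]; nlinarith
  refine ⟨?_, ?_, hμ0, hμ1⟩
  · rw [hT, sub_nonneg]
    exact (one_le_inv₀ (by positivity)).2 (by nlinarith)
  · set τ : ℝ := 1 - Q with hτdef
    have hτ0 : 0 ≤ τ := by rw [hτdef]; linarith
    have hτ3 : τ ≤ 3 / 4 := by rw [hτdef]; linarith
    have hQτ : Q = 1 - τ := by rw [hτdef]; ring
    have h1 : T ≤ 2 * τ + 48 * τ ^ 2 := by
      rw [hT, sub_le_iff_le_add, inv_le_iff_one_le_mul₀ (by positivity), hQτ]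
      have h2 : 0 ≤ 45 - 94 * τ + 48 * τ ^ 2 := by nlinarith
      have h3 : 0 ≤ τ ^ 2 * (45 - 94 * τ + 48 * τ ^ 2) := by positivity
      nlinarith
    have h4 : τ ^ 2 ≤ μ ^ 2 := pow_le_pow_left₀ hτ0 hτ 2
    linarith

theorem main : StE2A := by
  intro hC hR hF m
  refine ⟨2548 + 200 * (m + 5) + 2 * (m + 5) * (m + 4), by positivity, ?_⟩
  intro a ha ha1 z w M hM0 hM1 hw hz hprod hcrit μ hμ
  set ρ : ℝ := ∏ j, ‖z j‖ with hρ
  have hρ1 : ρ ≤ 1 := by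
    rw [hρ]
    exact Finset.prod_le_one (fun j _ => norm_nonneg _) (fun j _ => hz j)
  set T : ℝ := ((a * ρ) ^ 2)⁻¹ - 1 with hTdef
  obtain ⟨hT0, hT1, hμ0, hμ1⟩ := bound_T ha ha1 hprod hρ1 hμ hTdef
  have hcoef := hC (m + 2) a z w hcrit
  obtain ⟨hr1, hr2⟩ := hR (m + 2) a ha ha1 z w M hM0 hM1 hw hprod hcrit
  set y := zs a z with hy
  have hzne : ∀ j, z j ≠ 0 := by
    intro j h0
    have h1 : ρ = 0 := by
      rw [hρ]
      exact Finset.prod_eq_zero (Finset.mem_univ j) (by rw [h0, norm_zero])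
    linarith
  have hy0 : ∀ i, y i ≠ 0 := by
    intro i
    rw [hy]
    unfold zs
    refine Fin.cases ?_ (fun j => ?_) i
    · rw [Fin.cons_zero]
      exact_mod_cast (by linarith : a ≠ 0)
    · rw [Fin.cons_succ]
      exact hzne j
  have hy1 : ∀ i, ‖y i‖ ≤ 1 := by
    intro i
    rw [hy]
    unfold zs
    refine Fin.cases ?_ (fun j => ?_) i
    · rw [Fin.cons_zero, Complex.norm_real, Real.norm_eq_abs, abs_of_nonneg (by linarith)]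
      exact ha1
    · rw [Fin.cons_succ]
      exact hz j
  have hrefl := hF _ y hy0 hy1 T (by rw [hy, prod_zs a (by linarith) z])
  -- the bound for `e2 y`
  have hM3 : M ^ (m + 2 + 1) ≤ M ^ 3 := pow_le_pow_of_le_one hM0 hM1 (by omega)
  have hM2 : M ^ (m + 2 + 2) ≤ M := by
    calc M ^ (m + 2 + 2) ≤ M ^ 1 := pow_le_pow_of_le_one hM0 hM1 (by omega)
      _ = M := pow_one M
  push_cast at hr1 hr2 hcoef
  have hb1 : ‖e1 (fun i => (y i)⁻¹)‖ ≤ 4 * (m + 5) * M := by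
    refine hr1.trans ?_
    have h1 : (0 : ℝ) ≤ 4 * ((m : ℝ) + 2 + 3) := by positivity
    calc 4 * ((m : ℝ) + 2 + 3) * M ^ (m + 2 + 2) ≤ 4 * ((m : ℝ) + 2 + 3) * M :=
          mul_le_mul_of_nonneg_left hM2 h1
      _ = 4 * (m + 5) * M := by ring
  have hb2 : ‖e2 (fun i => (y i)⁻¹)‖ ≤ 2 * (m + 5) * (m + 4) * M ^ 3 := by
    refine hr2.trans ?_
    have h1 : (0 : ℝ) ≤ 2 * ((m : ℝ) + 2 + 3) * ((m : ℝ) + 2 + 2) := by positivity
    calc 2 * ((m : ℝ) + 2 + 3) * ((m : ℝ) + 2 + 2) * M ^ (m + 2 + 1) ≤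
          2 * ((m : ℝ) + 2 + 3) * ((m : ℝ) + 2 + 2) * M ^ 3 := mul_le_mul_of_nonneg_left hM3 h1
      _ = 2 * (m + 5) * (m + 4) * M ^ 3 := by ring
  have hT50 : T ≤ 50 * μ := by nlinarith
  have hTsq : T ^ 2 ≤ 2500 * μ ^ 2 := by
    calc T ^ 2 ≤ (50 * μ) ^ 2 := pow_le_pow_left₀ hT0 hT50 2
      _ = 2500 * μ ^ 2 := by ring
  have he1T : ‖e1 (fun i => (y i)⁻¹)‖ * T ≤ 200 * (m + 5) * (μ * M) := by
    calc ‖e1 (fun i => (y i)⁻¹)‖ * T ≤ (4 * (m + 5) * M) * (50 * μ) :=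
          mul_le_mul hb1 hT50 hT0 (by positivity)
      _ = 200 * (m + 5) * (μ * M) := by ring
  have hconj : ‖(starRingEnd ℂ) (e2 (fun i => (y i)⁻¹))‖ = ‖e2 (fun i => (y i)⁻¹)‖ :=
    Complex.norm_conj _
  have hey : ‖e2 y‖ ≤ ‖e2 y - (starRingEnd ℂ) (e2 (fun i => (y i)⁻¹))‖ +
      ‖e2 (fun i => (y i)⁻¹)‖ := by
    rw [← hconj]
    have h1 := norm_add_le (e2 y - (starRingEnd ℂ) (e2 (fun i => (y i)⁻¹)))
      ((starRingEnd ℂ) (e2 (fun i => (y i)⁻¹)))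
    rwa [sub_add_cancel] at h1
  have hμM : 0 ≤ μ * M := mul_nonneg hμ0 hM0
  have hM30 : 0 ≤ M ^ 3 := by positivity
  have hm0 : (0 : ℝ) ≤ m := Nat.cast_nonneg m
  have hmain : ‖e2 y‖ ≤ 2 * μ + (2548 + 200 * (m + 5) + 2 * (m + 5) * (m + 4)) *
      (μ ^ 2 + μ * M + M ^ 3) := by
    have h1 : ‖e2 y‖ ≤ (2 * μ + 48 * μ ^ 2) + 200 * (m + 5) * (μ * M) + 2500 * μ ^ 2 +
        2 * (m + 5) * (m + 4) * M ^ 3 := by linarith
    have h2 : 0 ≤ (m : ℝ) * (μ ^ 2) := by positivity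
    have h3 : 0 ≤ (m : ℝ) * (M ^ 3) := by positivity
    have h4 : 0 ≤ (m : ℝ) * (μ * M) := by positivity
    have h5 : 0 ≤ (m : ℝ) ^ 2 * (μ ^ 2) := by positivity
    have h6 : 0 ≤ (m : ℝ) ^ 2 * (μ * M) := by positivity
    have h7 : 0 ≤ (m : ℝ) ^ 2 * (M ^ 3) := by positivity
    have h8 : 0 ≤ μ ^ 2 := by positivity
    nlinarith
  -- conclusion
  have hwy : ‖e2 w‖ = ((m : ℝ) + 3) / (m + 5) * ‖e2 y‖ := by
    have h1 : e2 w = (((m : ℝ) + 3) / (m + 5) : ℝ) * e2 y := by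
      have h2 : ((m : ℂ) + 5) ≠ 0 := by
        have : ((m : ℝ) + 5) ≠ 0 := by positivity
        exact_mod_cast this
      push_cast
      rw [div_mul_eq_mul_div, eq_div_iff h2]
      linear_combination -hcoef
    rw [h1, norm_mul, Complex.norm_real, Real.norm_eq_abs, abs_of_nonneg (by positivity)]
  set K : ℝ := 2548 + 200 * (m + 5) + 2 * (m + 5) * (m + 4) with hK
  have hK0 : 0 ≤ K * (μ ^ 2 + μ * M + M ^ 3) := by positivity
  have hq0 : (0 : ℝ) ≤ ((m : ℝ) + 3) / (m + 5) := by positivity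
  have hq1 : ((m : ℝ) + 3) / (m + 5) ≤ 1 := by
    rw [div_le_one (by positivity)]
    linarith
  calc |(e2 w).re| ≤ ‖e2 w‖ := Complex.abs_re_le_norm _
    _ = ((m : ℝ) + 3) / (m + 5) * ‖e2 y‖ := hwy
    _ ≤ ((m : ℝ) + 3) / (m + 5) * (2 * μ + K * (μ ^ 2 + μ * M + M ^ 3)) :=
        mul_le_mul_of_nonneg_left hmain hq0
    _ = 2 * ((((m + 1 : ℕ) : ℝ)) + 2) / ((((m + 1 : ℕ) : ℝ)) + 4) * μ +
        ((m : ℝ) + 3) / (m + 5) * (K * (μ ^ 2 + μ * M + M ^ 3)) := by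
        push_cast
        have e1 : (m : ℝ) + 1 + 2 = m + 3 := by ring
        have e2 : (m : ℝ) + 1 + 4 = m + 5 := by ring
        rw [e1, e2]
        ring
    _ ≤ 2 * ((((m + 1 : ℕ) : ℝ)) + 2) / ((((m + 1 : ℕ) : ℝ)) + 4) * μ +
        K * (μ ^ 2 + μ * M + M ^ 3) := by
        have := mul_le_mul_of_nonneg_right hq1 hK0
        linarith

end Pool.Agent.H957.SE.E2a
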