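import Pool.Agent.H957.SE.Stm2

/-!
# (E2B) three critical points, degree four (helper277 for helper957)
-/

set_option autoImplicit false

open Polynomial

namespace Pool.Agent.H957.SE.E2b

open Pool.Agent.H957.SE

theorem e1_four (y : Fin 4 → ℂ) : e1 y = y 0 + y 1 + y 2 + y 3 := by
  unfold e1
  rw [Fin.sum_univ_four]

theorem e2_four (y : Fin 4 → ℂ) :
    e2 y = y 0 * y 1 + y 0 * y 2 + y 0 * y 3 + y 1 * y 2 + y 1 * y 3 + y 2 * y 3 := by
  unfold e2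
  rw [Fin.sum_univ_four, Fin.sum_univ_four]
  ring

/-- the coefficient identity `3 e1 y = 4 e1 w` -/
theorem coef1 {a : ℝ} {z w : Fin 3 → ℂ} (h : Crit a z w) :
    3 * ((a : ℂ) + z 0 + z 1 + z 2) = 4 * (w 0 + w 1 + w 2) := by
  have key : ∀ x : ℂ, (x - z 0) * (x - z 1) * (x - z 2) + (x - a) * (x - z 1) * (x - z 2)
      + (x - a) * (x - z 0) * (x - z 2) + (x - a) * (x - z 0) * (x - z 1) =
      4 * ((x - w 0) * (x - w 1) * (x - w 2)) := by
    intro x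
    have h1 := h x
    rw [Fin.prod_univ_three, Fin.prod_univ_three] at h1
    simp only [derivative_mul, derivative_sub, derivative_X, derivative_C, eval_add, eval_mul,
      eval_sub, eval_X, eval_C, eval_one, eval_zero] at h1
    push_cast at h1
    linear_combination h1
  have k0 := key 0
  have k1 := key 1
  have k2 := key (-1)
  linear_combination (-(1 : ℂ) / 2) * k1 - (1 / 2) * k2 + k0

theorem T_le {p : ℝ} (h1 : 1 / 4 ≤ p) (h2 : p ≤ 1) :
    (p ^ 2)⁻¹ - 1 ≤ 2 * (1 - p) + 48 * (1 - p) ^ 2 := by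
  have hp : 0 < p ^ 2 := by positivity
  have h3 : (p ^ 2)⁻¹ ≤ 1 + 2 * (1 - p) + 48 * (1 - p) ^ 2 := by
    rw [inv_le_iff_one_le_mul₀ hp]
    have h4 : 0 ≤ (1 - p) ^ 2 * (45 - 94 * (1 - p) + 48 * (1 - p) ^ 2) := by
      refine mul_nonneg (sq_nonneg _) ?_
      nlinarith
    nlinarith
  linarith

set_option maxHeartbeats 4000000 in
theorem main : StE2B := by
  intro hC hR hF
  refine ⟨1000, by norm_num, ?_⟩
  intro a ha1 ha2 z w M hM0 hM1 hw hz hpz hcrit μ hμ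
  have hc2 := hC 1 a z w hcrit
  obtain ⟨hr1, hr2⟩ := hR 1 a ha1 ha2 z w M hM0 hM1 hw hpz hcrit
  have hc1 := coef1 (a := a) (z := z) (w := w) hcrit
  have hwn0 := hw 0
  have hwn1 := hw 1
  have hwn2 := hw 2
  have hz0 := hz 0
  have hz1 := hz 1
  have hz2 := hz 2
  have hprodz : ∏ j, ‖z j‖ = ‖z 0‖ * ‖z 1‖ * ‖z 2‖ := Fin.prod_univ_three _
  have ha0 : (0 : ℝ) < a := by linarith
  -- the product of the norms
  set κ : ℝ := ∏ j, ‖z j‖ with hκ
  have hκ1 : κ ≤ 1 := by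
    rw [hκ]
    exact Finset.prod_le_one (fun _ _ => norm_nonneg _) fun j _ => hz j
  set y : Fin 4 → ℂ := zs a z with hy
  have hy0 : y 0 = (a : ℂ) := rfl
  have hy1 : y 1 = z 0 := rfl
  have hy2 : y 2 = z 1 := rfl
  have hy3 : y 3 = z 2 := rfl
  have hzne : z 0 ≠ 0 ∧ z 1 ≠ 0 ∧ z 2 ≠ 0 := by
    have hne : κ ≠ 0 := by linarith
    rw [hprodz] at hne
    refine ⟨fun h => hne ?_, fun h => hne ?_, fun h => hne ?_⟩ <;>
      rw [h, norm_zero] <;> ring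
  have hane : (a : ℂ) ≠ 0 := by exact_mod_cast ha0.ne'
  have hyne : ∀ i, y i ≠ 0 := by
    intro i
    fin_cases i
    · exact hane
    · exact hzne.1
    · exact hzne.2.1
    · exact hzne.2.2
  have hna : ‖(a : ℂ)‖ = a := by
    rw [Complex.norm_real, Real.norm_of_nonneg ha0.le]
  have hyn : ∀ i, ‖y i‖ ≤ 1 := by
    intro i
    fin_cases i
    · exact hna.trans_le ha2
    · exact hz0
    · exact hz1
    · exact hz2
  set p : ℝ := ∏ i, ‖y i‖ with hp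
  have hpa : p = a * κ := by
    rw [hp, Fin.prod_univ_four, hy0, hy1, hy2, hy3, hna, hprodz]
    ring
  have hp4 : 1 / 4 ≤ p := by
    rw [hpa]
    nlinarith
  have hp1 : p ≤ 1 := by
    rw [hpa]
    nlinarith
  have hτ : 1 - p ≤ μ := by
    rw [hpa, hμ]
    nlinarith
  have hτ0 : 0 ≤ 1 - p := by linarith
  have hμ0 : 0 ≤ μ := by linarith
  have hμ1 : μ ≤ 1 := by
    rw [hμ]
    linarith
  have hεμ : 1 - a ≤ μ := by
    rw [hμ]
    linarith
  obtain ⟨T, hT⟩ : ∃ T : ℝ, T = (p ^ 2)⁻¹ - 1 := ⟨_, rfl⟩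
  have hTle : T ≤ 2 * μ + 48 * μ ^ 2 := by
    rw [hT]
    refine (T_le hp4 hp1).trans ?_
    nlinarith
  have hT0 : 0 ≤ T := by
    rw [hT]
    have h1 : p ^ 2 ≤ 1 := by nlinarith
    have h2 : 1 ≤ (p ^ 2)⁻¹ := by
      rw [one_le_inv₀ (by positivity)]
      exact h1
    linarith
  have hF1 := hF 4 y hyne hyn T hT
  -- the symmetric functions
  set E1 : ℂ := e1 (fun i => (y i)⁻¹) with hE1
  set E2 : ℂ := e2 (fun i => (y i)⁻¹) with hE2
  set S4 : ℂ := (a : ℂ) * z 0 * z 1 * z 2 with hS4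
  have hS4n : ‖S4‖ = p := by
    rw [hS4, norm_mul, norm_mul, norm_mul, hna, hpa, hprodz]
    ring
  have hE1e : E1 * S4 = z 0 * z 1 * z 2 + a * z 1 * z 2 + a * z 0 * z 2 + a * z 0 * z 1 := by
    rw [hE1, e1_four, hy0, hy1, hy2, hy3, hS4]
    have h1 := hzne.1
    have h2 := hzne.2.1
    have h3 := hzne.2.2
    field_simp
  have hE2e : E2 * S4 = e2 y := by
    rw [hE2, e2_four, e2_four, hy0, hy1, hy2, hy3, hS4]
    have h1 := hzne.1
    have h2 := hzne.2.1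
    have h3 := hzne.2.2
    field_simp
    ring
  have hS1n : ‖(a : ℂ) + z 0 + z 1 + z 2‖ ≤ 4 * M := by
    have h1 : (a : ℂ) + z 0 + z 1 + z 2 = (4 / 3) * (w 0 + w 1 + w 2) := by
      linear_combination (1 / 3 : ℂ) * hc1
    rw [h1, norm_mul]
    have h2 : ‖w 0 + w 1 + w 2‖ ≤ 3 * M := by
      refine (norm_add₃_le).trans ?_
      linarith
    have h3 : ‖(4 / 3 : ℂ)‖ = 4 / 3 := by
      rw [norm_div]
      norm_num
    rw [h3]
    linarith
  -- `S4 + 1`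
  have hrel : S4 + 1 = (1 - (a : ℂ) ^ 4) + ((a : ℂ) + z 0 + z 1 + z 2) * a ^ 3 - E2 * S4 * a ^ 2
      + E1 * S4 * a := by
    rw [hE2e, hE1e, e2_four, hy0, hy1, hy2, hy3, hS4]
    ring
  have hE1n : ‖E1‖ ≤ 16 * M ^ 3 := by
    refine hr1.trans (le_of_eq ?_)
    push_cast
    ring
  have hE2n : ‖E2‖ ≤ 24 * M ^ 2 := by
    refine hr2.trans (le_of_eq ?_)
    push_cast
    ring
  have hM2 : M ^ 2 ≤ M := by nlinarith
  have hM3 : M ^ 3 ≤ M := by nlinarith [pow_nonneg hM0 2]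
  have hS41 : ‖S4 + 1‖ ≤ 4 * μ + 44 * M := by
    rw [hrel]
    have h1 : ‖(1 - (a : ℂ) ^ 4)‖ ≤ 4 * μ := by
      have h2 : (1 - (a : ℂ) ^ 4) = ((1 - a ^ 4 : ℝ) : ℂ) := by push_cast; ring
      rw [h2, Complex.norm_real, Real.norm_of_nonneg]
      · have h3 : 1 - a ^ 4 ≤ 4 * (1 - a) := by
          nlinarith [mul_nonneg (mul_nonneg ha0.le ha0.le) (sub_nonneg.2 ha2),
            mul_nonneg ha0.le (sub_nonneg.2 ha2), sq_nonneg (a ^ 2 - 1), sq_nonneg (a - 1)]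
        linarith
      · have := pow_le_one₀ ha0.le ha2 (n := 4)
        linarith
    have h2 : ‖((a : ℂ) + z 0 + z 1 + z 2) * a ^ 3‖ ≤ 4 * M := by
      rw [norm_mul, norm_pow, hna]
      have := pow_le_one₀ ha0.le ha2 (n := 3)
      have h5 : 0 ≤ a ^ 3 := by positivity
      have h6 := norm_nonneg ((a : ℂ) + z 0 + z 1 + z 2)
      nlinarith
    have h3 : ‖E2 * S4 * a ^ 2‖ ≤ 24 * M := by
      rw [norm_mul, norm_mul, norm_pow, hna, hS4n]
      have h5 := pow_le_one₀ ha0.le ha2 (n := 2)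
      have h6 : ‖E2‖ * p ≤ 24 * M * 1 :=
        mul_le_mul (hE2n.trans (by linarith)) hp1 (by linarith) (by linarith)
      have h7 : ‖E2‖ * p * a ^ 2 ≤ 24 * M * 1 * 1 :=
        mul_le_mul h6 h5 (by positivity) (by linarith)
      linarith
    have h4 : ‖E1 * S4 * a‖ ≤ 16 * M := by
      rw [norm_mul, norm_mul, hna, hS4n]
      have h6 : ‖E1‖ * p ≤ 16 * M * 1 :=
        mul_le_mul (hE1n.trans (by linarith)) hp1 (by linarith) (by linarith)
      have h7 : ‖E1‖ * p * a ≤ 16 * M * 1 * 1 :=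
        mul_le_mul h6 ha2 ha0.le (by linarith)
      linarith
    calc ‖(1 - (a : ℂ) ^ 4) + ((a : ℂ) + z 0 + z 1 + z 2) * a ^ 3 - E2 * S4 * a ^ 2
          + E1 * S4 * a‖
        ≤ ‖(1 - (a : ℂ) ^ 4) + ((a : ℂ) + z 0 + z 1 + z 2) * a ^ 3 - E2 * S4 * a ^ 2‖
          + ‖E1 * S4 * a‖ := norm_add_le _ _
      _ ≤ (‖(1 - (a : ℂ) ^ 4) + ((a : ℂ) + z 0 + z 1 + z 2) * a ^ 3‖ + ‖E2 * S4 * a ^ 2‖)
          + ‖E1 * S4 * a‖ := by
          have := norm_sub_le ((1 - (a : ℂ) ^ 4) + ((a : ℂ) + z 0 + z 1 + z 2) * a ^ 3)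
            (E2 * S4 * a ^ 2)
          linarith
      _ ≤ ((‖(1 - (a : ℂ) ^ 4)‖ + ‖((a : ℂ) + z 0 + z 1 + z 2) * a ^ 3‖) + ‖E2 * S4 * a ^ 2‖)
          + ‖E1 * S4 * a‖ := by
          have := norm_add_le (1 - (a : ℂ) ^ 4) (((a : ℂ) + z 0 + z 1 + z 2) * a ^ 3)
          linarith
      _ ≤ 4 * μ + 44 * M := by linarith
  -- the real part
  have hre : (2 * (e2 y).re : ℝ) = ((e2 y - (starRingEnd ℂ) E2) + (starRingEnd ℂ) (E2 * (S4 + 1))).re := by
    have h1 : (e2 y - (starRingEnd ℂ) E2) + (starRingEnd ℂ) (E2 * (S4 + 1)) =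
        e2 y + (starRingEnd ℂ) (e2 y) := by
      rw [← hE2e]
      simp only [map_mul, map_add, map_one]
      ring
    rw [h1, Complex.add_re, Complex.conj_re]
    ring
  have hre2 : |2 * (e2 y).re| ≤ (T + ‖E1‖ * T + T ^ 2) + 24 * M ^ 2 * (4 * μ + 44 * M) := by
    rw [hre]
    refine (Complex.abs_re_le_norm _).trans ((norm_add_le _ _).trans ?_)
    refine add_le_add hF1 ?_
    rw [Complex.norm_conj, norm_mul]
    exact mul_le_mul hE2n hS41 (norm_nonneg _) (by positivity)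
  have hc2' : e2 y = 2 * e2 w := by
    have h1 : ((1 : ℕ) + 1 : ℂ) * e2 y = ((1 : ℕ) + 3 : ℂ) * e2 w := hc2
    push_cast at h1
    linear_combination (1 / 2 : ℂ) * h1
  have hre3 : 2 * (e2 y).re = 4 * (e2 w).re := by
    rw [hc2', Complex.mul_re]
    norm_num
    ring
  rw [hre3, abs_mul, abs_of_pos (by norm_num : (0 : ℝ) < 4)] at hre2
  have hT50 : T ≤ 50 * μ := by nlinarith
  have hT2 : T ^ 2 ≤ 2500 * μ ^ 2 := by nlinarith
  have hE1T : ‖E1‖ * T ≤ 800 * (μ * M) := by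
    have h1 : ‖E1‖ ≤ 16 * M := hE1n.trans (by linarith)
    calc ‖E1‖ * T ≤ (16 * M) * (50 * μ) := mul_le_mul h1 hT50 hT0 (by positivity)
      _ = 800 * (μ * M) := by ring
  have hMM : M ^ 2 * μ ≤ μ * M := by nlinarith
  have hfin : |(e2 w).re| ≤ μ + 1000 * (μ ^ 2 + μ * M + M ^ 3) := by
    have h1 : 0 ≤ μ * M := by positivity
    have h2 : 0 ≤ μ ^ 2 := by positivity
    have h3 : 0 ≤ M ^ 3 := by positivity
    nlinarith
  refine hfin.trans (le_of_eq ?_)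
  push_cast
  ring

end Pool.Agent.H957.SE.E2b
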