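import Pool.Agent.H957.SE.Stm

set_option autoImplicit false

/-!
# (INT) expansion of the integral `A` to second order
-/

open MeasureTheory

namespace Pool.Agent.H957.SE.Int

open Pool.Agent.H957.SE

theorem e1_succ {m : ℕ} (w : Fin (m + 1) → ℂ) :
    e1 w = e1 (fun k : Fin m => w k.castSucc) + w (Fin.last m) := by
  unfold e1
  rw [Fin.sum_univ_castSucc]

theorem e2_succ {m : ℕ} (w : Fin (m + 1) → ℂ) :
    e2 w = e2 (fun k : Fin m => w k.castSucc) +
      e1 (fun k : Fin m => w k.castSucc) * w (Fin.last m) := by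
  unfold e1 e2
  rw [Fin.sum_univ_castSucc, Fin.sum_univ_castSucc (fun k => w k ^ 2)]
  ring

theorem norm_e2 {m : ℕ} (w : Fin m → ℂ) {M : ℝ} (hM : 0 ≤ M) (hw : ∀ k, ‖w k‖ ≤ M) :
    ‖e2 w‖ ≤ (m : ℝ) ^ 2 * M ^ 2 := by
  have h1 : ‖∑ k, w k‖ ≤ m * M := by
    refine (norm_sum_le _ _).trans ?_
    refine (Finset.sum_le_sum (fun k _ => hw k)).trans ?_
    simp
  have h2 : ‖∑ k, w k ^ 2‖ ≤ m * M ^ 2 := by
    refine (norm_sum_le _ _).trans ?_
    refine (Finset.sum_le_sum (g := fun _ => M ^ 2) (fun k _ => ?_)).trans ?_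
    · rw [norm_pow]
      exact pow_le_pow_left₀ (norm_nonneg _) (hw k) 2
    · simp
  have h3 : ‖(∑ k, w k) ^ 2‖ ≤ (m * M) ^ 2 := by
    rw [norm_pow]
    exact pow_le_pow_left₀ (norm_nonneg _) h1 2
  have h4 : ‖(∑ k, w k) ^ 2 - ∑ k, w k ^ 2‖ ≤ (m * M) ^ 2 + m * M ^ 2 :=
    (norm_sub_le _ _).trans (add_le_add h3 h2)
  have h5 : (m : ℝ) * M ^ 2 ≤ (m : ℝ) ^ 2 * M ^ 2 := by
    apply mul_le_mul_of_nonneg_right _ (by positivity)
    rcases Nat.eq_zero_or_pos m with h | h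
    · subst h; simp
    · have : (1 : ℝ) ≤ m := by exact_mod_cast h
      nlinarith
  unfold e2
  rw [norm_div, Complex.norm_ofNat, div_le_iff₀ (by norm_num)]
  nlinarith

/-- step 1 -/
theorem pointwise (m : ℕ) : ∃ K : ℝ, 0 ≤ K ∧ ∀ (x : ℂ) (w : Fin (m + 2) → ℂ) (M : ℝ),
    ‖x‖ ≤ 1 → 0 ≤ M → M ≤ 1 → (∀ k, ‖w k‖ ≤ M) →
    ‖∏ k, (x - w k) - (x ^ (m + 2) - e1 w * x ^ (m + 1) + e2 w * x ^ m)‖ ≤ K * M ^ 3 := by
  induction m with
  | zero =>
    refine ⟨0, le_rfl, ?_⟩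
    intro x w M _ _ _ _
    have h : ∏ k, (x - w k) - (x ^ (0 + 2) - e1 w * x ^ (0 + 1) + e2 w * x ^ 0) = 0 := by
      unfold e1 e2
      rw [Fin.prod_univ_two, Fin.sum_univ_two, Fin.sum_univ_two]
      ring
    rw [h, norm_zero, zero_mul]
  | succ m ih =>
    obtain ⟨K, hK, h⟩ := ih
    refine ⟨2 * K + (m + 2) ^ 2, by positivity, ?_⟩
    intro x w M hx hM hM1 hw
    have h0 := h x (fun k => w k.castSucc) M hx hM hM1 (fun k => hw _)
    have h2 := norm_e2 (fun k : Fin (m + 2) => w k.castSucc) hM (fun k => hw _)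
    set R := ∏ k : Fin (m + 2), (x - w k.castSucc) - (x ^ (m + 2) -
      e1 (fun k : Fin (m + 2) => w k.castSucc) * x ^ (m + 1) +
      e2 (fun k : Fin (m + 2) => w k.castSucc) * x ^ m) with hR
    have key : ∏ k, (x - w k) - (x ^ (m + 1 + 2) - e1 w * x ^ (m + 1 + 1) + e2 w * x ^ (m + 1)) =
        R * (x - w (Fin.last (m + 2))) -
          e2 (fun k : Fin (m + 2) => w k.castSucc) * w (Fin.last (m + 2)) * x ^ m := by
      rw [hR, Fin.prod_univ_castSucc, e1_succ w, e2_succ w]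
      ring
    rw [key]
    have hw' := hw (Fin.last (m + 2))
    have n1 : ‖x - w (Fin.last (m + 2))‖ ≤ 2 := by
      refine (norm_sub_le _ _).trans ?_
      linarith
    have n2 : ‖x ^ m‖ ≤ 1 := by
      rw [norm_pow]
      exact pow_le_one₀ (norm_nonneg _) hx
    have n3 : ‖R * (x - w (Fin.last (m + 2)))‖ ≤ K * M ^ 3 * 2 := by
      rw [norm_mul]
      exact mul_le_mul h0 n1 (norm_nonneg _) (by positivity)
    have n4 : ‖e2 (fun k : Fin (m + 2) => w k.castSucc) * w (Fin.last (m + 2)) * x ^ m‖ ≤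
        ((m + 2 : ℕ) : ℝ) ^ 2 * M ^ 2 * M * 1 := by
      rw [norm_mul, norm_mul]
      refine mul_le_mul (mul_le_mul h2 hw' (norm_nonneg _) (by positivity)) n2 (norm_nonneg _) ?_
      positivity
    refine (norm_sub_le _ _).trans ?_
    refine (add_le_add n3 n4).trans (le_of_eq ?_)
    push_cast
    ring

theorem int_pow (a : ℝ) (k : ℕ) :
    ∫ t in (0:ℝ)..1, ((a : ℂ) * t) ^ k = (a : ℂ) ^ k / ((k : ℂ) + 1) := by
  have h1 : ∀ t : ℝ, ((a : ℂ) * t) ^ k = (((a * t) ^ k : ℝ) : ℂ) := by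
    intro t
    push_cast
    ring
  have h2 : ∫ t in (0:ℝ)..1, (a * t) ^ k = a ^ k / (k + 1) := by
    have h3 : ∀ t : ℝ, (a * t) ^ k = a ^ k * t ^ k := fun t => mul_pow a t k
    simp only [h3]
    rw [intervalIntegral.integral_const_mul, integral_pow]
    simp
    ring
  simp only [h1]
  rw [intervalIntegral.integral_ofReal, h2]
  push_cast
  ring

theorem main : Pool.Agent.H957.SE.StInt := by
  intro m
  obtain ⟨K, hK, h⟩ := pointwise m
  refine ⟨(m + 3) * K, by positivity, ?_⟩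
  intro w M hM hM1 hw a ha ha1
  set f : ℝ → ℂ := fun t => ∏ k, ((a : ℂ) * t - w k) with hf
  set g : ℝ → ℂ := fun t => ((a : ℂ) * t) ^ (m + 2) - e1 w * ((a : ℂ) * t) ^ (m + 1) +
    e2 w * ((a : ℂ) * t) ^ m with hg
  have cf : Continuous f := by
    rw [hf]
    refine continuous_finsetProd _ fun k _ => ?_
    exact (continuous_const.mul Complex.continuous_ofReal).sub continuous_const
  have cp : ∀ k : ℕ, Continuous fun t : ℝ => ((a : ℂ) * t) ^ k := fun k =>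
    (continuous_const.mul Complex.continuous_ofReal).pow k
  have cg : Continuous g := by
    rw [hg]
    exact ((cp (m + 2)).sub (continuous_const.mul (cp (m + 1)))).add
      (continuous_const.mul (cp m))
  have hfg : ‖∫ t in (0:ℝ)..1, (f t - g t)‖ ≤ K * M ^ 3 * |(1:ℝ) - 0| := by
    refine intervalIntegral.norm_integral_le_of_norm_le_const ?_
    intro t ht
    rw [Set.uIoc_of_le (by norm_num)] at ht
    refine h ((a : ℂ) * t) w M ?_ hM hM1 hw
    rw [norm_mul, Complex.norm_real, Complex.norm_real, Real.norm_of_nonneg ha,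
      Real.norm_of_nonneg ht.1.le]
    exact mul_le_one₀ ha1 ht.1.le ht.2
  have hsub : ∫ t in (0:ℝ)..1, (f t - g t) = (∫ t in (0:ℝ)..1, f t) - ∫ t in (0:ℝ)..1, g t :=
    intervalIntegral.integral_sub (cf.intervalIntegrable _ _) (cg.intervalIntegrable _ _)
  have hgi : ∫ t in (0:ℝ)..1, g t = (a : ℂ) ^ (m + 2) / (((m + 2 : ℕ) : ℂ) + 1) -
      e1 w * ((a : ℂ) ^ (m + 1) / (((m + 1 : ℕ) : ℂ) + 1)) +
      e2 w * ((a : ℂ) ^ m / ((m : ℂ) + 1)) := by
    have i1 : IntervalIntegrable (fun t : ℝ => ((a : ℂ) * t) ^ (m + 2)) volume 0 1 :=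
      (cp (m + 2)).intervalIntegrable _ _
    have i2 : IntervalIntegrable (fun t : ℝ => e1 w * ((a : ℂ) * t) ^ (m + 1)) volume 0 1 :=
      (continuous_const.mul (cp (m + 1))).intervalIntegrable _ _
    have i3 : IntervalIntegrable (fun t : ℝ => e2 w * ((a : ℂ) * t) ^ m) volume 0 1 :=
      (continuous_const.mul (cp m)).intervalIntegrable _ _
    have j1 : ∫ t in (0:ℝ)..1, g t = (∫ t in (0:ℝ)..1, (((a : ℂ) * t) ^ (m + 2) -
        e1 w * ((a : ℂ) * t) ^ (m + 1))) + ∫ t in (0:ℝ)..1, e2 w * ((a : ℂ) * t) ^ m :=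
      intervalIntegral.integral_add (i1.sub i2) i3
    have j2 : ∫ t in (0:ℝ)..1, (((a : ℂ) * t) ^ (m + 2) - e1 w * ((a : ℂ) * t) ^ (m + 1)) =
        (∫ t in (0:ℝ)..1, ((a : ℂ) * t) ^ (m + 2)) -
          ∫ t in (0:ℝ)..1, e1 w * ((a : ℂ) * t) ^ (m + 1) :=
      intervalIntegral.integral_sub i1 i2
    rw [j1, j2, intervalIntegral.integral_const_mul, intervalIntegral.integral_const_mul,
      int_pow, int_pow, int_pow]
  have hm1 : (m : ℂ) + 1 ≠ 0 := Nat.cast_add_one_ne_zero m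
  have hm2 : (m : ℂ) + 2 ≠ 0 := by
    have := Nat.cast_add_one_ne_zero (R := ℂ) (m + 1)
    push_cast at this
    intro h0
    apply this
    rw [← h0]; ring
  have hm3 : (m : ℂ) + 3 ≠ 0 := by
    have := Nat.cast_add_one_ne_zero (R := ℂ) (m + 2)
    push_cast at this
    intro h0
    apply this
    rw [← h0]; ring
  have hA : A a w - ((a : ℂ) ^ (m + 2) - (m + 3) / (m + 2) * e1 w * (a : ℂ) ^ (m + 1)
      + (m + 3) / (m + 1) * e2 w * (a : ℂ) ^ m) =
      ((m : ℂ) + 3) * ∫ t in (0:ℝ)..1, (f t - g t) := by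
    rw [hsub, hgi]
    have h1 : A a w = (((m + 2 : ℕ) : ℂ) + 1) * ∫ t in (0:ℝ)..1, f t := rfl
    rw [h1]
    have h2 : (((m + 2 : ℕ) : ℂ) + 1) = (m : ℂ) + 3 := by push_cast; ring
    have h3 : (((m + 1 : ℕ) : ℂ) + 1) = (m : ℂ) + 2 := by push_cast; ring
    rw [h2, h3]
    field_simp
  rw [hA, norm_mul]
  have h3 : ‖(m : ℂ) + 3‖ = (m : ℝ) + 3 := by
    have : (m : ℂ) + 3 = (((m : ℝ) + 3 : ℝ) : ℂ) := by push_cast; ring
    rw [this, Complex.norm_real, Real.norm_of_nonneg (by positivity)]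
  rw [h3]
  rw [sub_zero, abs_one, mul_one] at hfg
  calc ((m : ℝ) + 3) * ‖∫ t in (0:ℝ)..1, (f t - g t)‖ ≤ (m + 3) * (K * M ^ 3) :=
        mul_le_mul_of_nonneg_left hfg (by positivity)
    _ = (m + 3) * K * M ^ 3 := by ring

end Pool.Agent.H957.SE.Int
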