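import Pool.Agent.H957.SE.Stm

/-! # Degree two (helper376 for helper957) -/

set_option autoImplicit false

open Polynomial

namespace Pool.Agent.H957.SE.One

theorem crit_one {a : ℝ} {z w : Fin 1 → ℂ} (h : Crit a z w) : 2 * w 0 = a + z 0 := by
  have h1 := h (w 0)
  simp only [Finset.univ_unique, Fin.default_eq_zero, Finset.prod_singleton, sub_self, mul_zero,
    derivative_mul, derivative_sub, derivative_X, derivative_C, sub_zero, one_mul, mul_one, eval_add,
    eval_sub, eval_X, eval_C] at h1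
  linear_combination h1

theorem main : StOne := by
  intro s hs a z w ha0 ha1 hz hcr
  have hw := crit_one hcr
  by_cases h0 : w 0 = (a : ℂ)
  · exact Or.inl ⟨0, h0⟩
  right
  simp only [Finset.univ_unique, Fin.default_eq_zero, Finset.sum_singleton]
  obtain ⟨y, hy⟩ : ∃ y : ℝ, y = ‖w 0 - (a : ℂ)‖ := ⟨_, rfl⟩
  have hy0 : 0 < y := by
    rw [hy, norm_pos_iff]
    exact sub_ne_zero.2 h0
  -- the parallelogram law
  have hz0 : ‖z 0‖ ^ 2 ≤ 1 := by
    have := hz 0
    exact pow_le_one₀ (norm_nonneg _) this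
  have hpar : y ^ 2 + ‖w 0‖ ^ 2 ≤ (1 + a ^ 2) / 2 := by
    have e1 : w 0 - (a : ℂ) = (z 0 - a) / 2 := by linear_combination hw / 2
    have e2 : w 0 = (z 0 + a) / 2 := by linear_combination hw / 2
    have e3 := parallelogram_law_with_norm ℂ (z 0) (a : ℂ)
    have e4 : ‖(a : ℂ)‖ = a := by rw [Complex.norm_real, Real.norm_of_nonneg ha0]
    have e5 : y = ‖z 0 - a‖ / 2 := by
      rw [hy, e1, norm_div]
      norm_num
    have e6 : ‖w 0‖ = ‖z 0 + a‖ / 2 := by
      rw [e2, norm_div]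
      norm_num
    rw [e5, e6]
    rw [e4] at e3
    nlinarith
  have hmain : (1 - a) / 2 + ‖w 0‖ ^ 2 ≤ 1 - y ^ 2 := by nlinarith
  -- the power
  rw [← hy]
  have hy2 : 0 < y ^ 2 := by positivity
  have e1 : y⁻¹ ^ s = Real.exp (-(s / 2) * Real.log (y ^ 2)) := by
    rw [Real.rpow_def_of_pos (inv_pos.2 hy0), Real.log_inv, Real.log_pow]
    congr 1
    push_cast
    ring
  rw [e1]
  have e2 := Real.add_one_le_exp (-(s / 2) * Real.log (y ^ 2))
  have e3 := Real.log_le_sub_one_of_pos hy2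
  have e4 : s / 2 * (1 - y ^ 2) ≤ -(s / 2) * Real.log (y ^ 2) := by
    have := mul_le_mul_of_nonneg_left e3 (show 0 ≤ s / 2 by positivity)
    linarith
  have e5 := mul_le_mul_of_nonneg_left hmain (show 0 ≤ s / 2 by positivity)
  have e6 : 0 ≤ s / 4 * ‖w 0‖ ^ 2 := by positivity
  linarith

end Pool.Agent.H957.SE.One
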