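import Pool.Agent.H957.SE.Stm

set_option autoImplicit false

/-!
# (SUM) the sum of the critical points is small (helper627)
-/

open Polynomial

namespace Pool.Agent.H957.SE.Sum

theorem logder {n : ℕ} (y : Fin n → ℂ) (hy : ∀ i, y i ≠ 0) :
    (derivative (∏ i, (X - C (y i)))).eval 0 = (∏ i, (X - C (y i))).eval 0 * ∑ i, (-(y i))⁻¹ := by
  induction n with
  | zero => simp
  | succ n ih =>
    rw [Fin.prod_univ_succ, derivative_mul, eval_add, eval_mul, eval_mul, eval_mul,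
      ih (fun i => y i.succ) (fun i => hy i.succ), Fin.sum_univ_succ]
    have h0 : y 0 ≠ 0 := hy 0
    simp only [derivative_sub, derivative_X, derivative_C, sub_zero, eval_one, eval_sub, eval_X,
      eval_C, zero_sub, one_mul]
    have h1 : -(y 0) * (-(y 0))⁻¹ = 1 := mul_inv_cancel₀ (neg_ne_zero.2 h0)
    rw [mul_add]
    congr 1
    · linear_combination (-(eval 0 (∏ i : Fin n, (X - C (y i.succ))))) * h1
    · ring

theorem prod_le_factor {n : ℕ} (r : Fin n → ℝ) (h0 : ∀ i, 0 ≤ r i) (h1 : ∀ i, r i ≤ 1) (j : Fin n) :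
    ∏ i, r i ≤ r j := by
  rw [← Finset.mul_prod_erase Finset.univ r (Finset.mem_univ j)]
  have h2 : ∏ i ∈ Finset.univ.erase j, r i ≤ 1 :=
    Finset.prod_le_one (fun i _ => h0 i) (fun i _ => h1 i)
  calc r j * ∏ i ∈ Finset.univ.erase j, r i ≤ r j * 1 := mul_le_mul_of_nonneg_left h2 (h0 j)
    _ = r j := mul_one _

theorem defect (z : ℂ) (h1 : 1 / 2 ≤ ‖z‖) (h2 : ‖z‖ ≤ 1) :
    ‖z - (starRingEnd ℂ) z⁻¹‖ ≤ 3 * (1 - ‖z‖) := by
  have hz : 0 < ‖z‖ := by linarith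
  have hz0 : z ≠ 0 := norm_pos_iff.1 hz
  have hc : (starRingEnd ℂ) z ≠ 0 := (_root_.map_ne_zero _).2 hz0
  have e1 : z * (starRingEnd ℂ) z = ((‖z‖ ^ 2 : ℝ) : ℂ) := by
    rw [Complex.mul_conj, Complex.normSq_eq_norm_sq]
  have e2 : z - (starRingEnd ℂ) z⁻¹ = -(((1 - ‖z‖ ^ 2 : ℝ) : ℂ)) * ((starRingEnd ℂ) z)⁻¹ := by
    rw [map_inv₀]
    field_simp
    push_cast at e1 ⊢
    linear_combination e1
  rw [e2, norm_mul, norm_neg, norm_inv, Complex.norm_conj, Complex.norm_real, Real.norm_eq_abs]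
  have h3 : 0 ≤ 1 - ‖z‖ ^ 2 := by nlinarith
  rw [abs_of_nonneg h3, ← div_eq_mul_inv, div_le_iff₀ hz]
  nlinarith

theorem main : StSum := by
  intro m a ha1 ha2 z w M hM0 hM1 hw hz hprod hcrit
  have ha0 : 0 < a := by linarith
  have haC : (a : ℂ) ≠ 0 := by exact_mod_cast ha0.ne'
  -- the product
  set p : ℝ := ∏ j, ‖z j‖ with hp
  have hzj : ∀ j, p ≤ ‖z j‖ := fun j => prod_le_factor (fun i => ‖z i‖) (fun i => norm_nonneg _) hz j
  have hz0 : ∀ j, z j ≠ 0 := by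
    intro j h
    have := hzj j
    rw [h, norm_zero] at this
    linarith
  let y : Fin (m + 3) → ℂ := Fin.cons (a : ℂ) z
  have hP : (X - C (a : ℂ)) * ∏ j, (X - C (z j)) = ∏ i, (X - C (y i)) := by
    rw [Fin.prod_univ_succ (fun i => X - C (y i))]
    rfl
  have hy : ∀ i, y i ≠ 0 := by
    intro i
    refine Fin.cases ?_ ?_ i
    · exact haC
    · exact hz0
  have hcrit' : derivative (∏ i, (X - C (y i))) = C (((m + 2 : ℕ) : ℂ) + 1) * ∏ k, (X - C (w k)) := by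
    refine Polynomial.funext fun x => ?_
    rw [← hP, hcrit x, eval_mul, eval_C, eval_prod]
    simp
  -- (i)
  have hsum : ((m : ℂ) + 2) * ((a : ℂ) + ∑ j, z j) = ((m : ℂ) + 3) * e1 w := by
    have h1 := congrArg (fun q : ℂ[X] => q.coeff (m + 1)) hcrit'
    rw [coeff_derivative, coeff_C_mul] at h1
    have h2 : (∏ i, (X - C (y i))).coeff (m + 1 + 1) = -∑ i, y i := by
      have := prod_X_sub_C_coeff_card_pred (Finset.univ : Finset (Fin (m + 3))) y (by simp)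
      rw [Finset.card_univ, Fintype.card_fin] at this
      exact this
    have h3 : (∏ k, (X - C (w k))).coeff (m + 1) = -∑ k, w k := by
      have := prod_X_sub_C_coeff_card_pred (Finset.univ : Finset (Fin (m + 2))) w (by simp)
      rw [Finset.card_univ, Fintype.card_fin] at this
      exact this
    rw [h2, h3, Fin.sum_univ_succ] at h1
    have h4 : y 0 = (a : ℂ) := rfl
    have h5 : ∀ i : Fin (m + 2), y i.succ = z i := fun i => rfl
    simp only [h4, h5] at h1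
    unfold e1
    push_cast at h1
    linear_combination (-1 : ℂ) * h1
  -- (ii)
  have hinv : ‖(a : ℂ)⁻¹ + ∑ j, (z j)⁻¹‖ ≤ 4 * (m + 3) * M ^ 2 := by
    have h1 := logder y hy
    rw [hcrit', ← hP, eval_mul, eval_C, eval_mul, eval_prod, eval_prod, Fin.sum_univ_succ] at h1
    have h4 : y 0 = (a : ℂ) := rfl
    have h5 : ∀ i : Fin (m + 2), y i.succ = z i := fun i => rfl
    simp only [h4, h5, eval_sub, eval_X, eval_C, zero_sub] at h1
    have h6 : (-(a : ℂ))⁻¹ + ∑ i, (-(z i))⁻¹ = -((a : ℂ)⁻¹ + ∑ j, (z j)⁻¹) := by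
      simp only [inv_neg, Finset.sum_neg_distrib]
      ring
    rw [h6] at h1
    have h7 := congrArg norm h1
    rw [norm_mul, norm_mul, norm_mul, norm_prod, norm_prod, norm_neg, norm_neg] at h7
    simp only [norm_neg] at h7
    rw [Complex.norm_real, Real.norm_eq_abs, abs_of_pos ha0] at h7
    have h8 : ‖(((m + 2 : ℕ) : ℂ) + 1)‖ = (m : ℝ) + 3 := by
      have : (((m + 2 : ℕ) : ℂ) + 1) = ((m + 3 : ℕ) : ℂ) := by push_cast; ring
      rw [this, Complex.norm_natCast]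
      push_cast
      ring
    rw [h8, ← hp] at h7
    have h9 : ∏ k, ‖w k‖ ≤ M ^ 2 := by
      calc ∏ k, ‖w k‖ ≤ ∏ _k : Fin (m + 2), M :=
            Finset.prod_le_prod (fun i _ => norm_nonneg _) (fun i _ => hw i)
        _ = M ^ (m + 2) := by simp
        _ ≤ M ^ 2 := pow_le_pow_of_le_one hM0 hM1 (by omega)
    have h10 : 1 / 4 ≤ a * p := by nlinarith
    have h11 : 0 ≤ ‖(a : ℂ)⁻¹ + ∑ j, (z j)⁻¹‖ := norm_nonneg _
    have h12 : (1 / 4) * ‖(a : ℂ)⁻¹ + ∑ j, (z j)⁻¹‖ ≤ (m + 3) * M ^ 2 := by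
      calc (1 / 4) * ‖(a : ℂ)⁻¹ + ∑ j, (z j)⁻¹‖ ≤ a * p * ‖(a : ℂ)⁻¹ + ∑ j, (z j)⁻¹‖ :=
            mul_le_mul_of_nonneg_right h10 h11
        _ = (m + 3) * ∏ k, ‖w k‖ := h7.symm
        _ ≤ (m + 3) * M ^ 2 := mul_le_mul_of_nonneg_left h9 (by positivity)
    linarith
  -- (iv)
  have hfin : ‖(a : ℂ) + ∑ j, z j‖ ≤ 4 * (m + 3) * M ^ 2 + 3 * (1 - a) + 3 * (m + 2) * (1 - p) := by
    have h1 : (a : ℂ) + ∑ j, z j = (starRingEnd ℂ) ((a : ℂ)⁻¹ + ∑ j, (z j)⁻¹) +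
        ((a : ℂ) - (starRingEnd ℂ) (a : ℂ)⁻¹) + ∑ j, (z j - (starRingEnd ℂ) (z j)⁻¹) := by
      rw [map_add, map_sum, Finset.sum_sub_distrib]
      ring
    rw [h1]
    refine (norm_add₃_le).trans ?_
    have h2 : ‖(starRingEnd ℂ) ((a : ℂ)⁻¹ + ∑ j, (z j)⁻¹)‖ ≤ 4 * (m + 3) * M ^ 2 := by
      rw [Complex.norm_conj]; exact hinv
    have hna : ‖(a : ℂ)‖ = a := by rw [Complex.norm_real, Real.norm_eq_abs, abs_of_pos ha0]
    have h3 : ‖(a : ℂ) - (starRingEnd ℂ) (a : ℂ)⁻¹‖ ≤ 3 * (1 - a) := by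
      have := defect (a : ℂ) (by rw [hna]; exact ha1) (by rw [hna]; exact ha2)
      rwa [hna] at this
    have h4 : ‖∑ j, (z j - (starRingEnd ℂ) (z j)⁻¹)‖ ≤ 3 * (m + 2) * (1 - p) := by
      calc ‖∑ j, (z j - (starRingEnd ℂ) (z j)⁻¹)‖ ≤ ∑ j, ‖z j - (starRingEnd ℂ) (z j)⁻¹‖ :=
            norm_sum_le _ _
        _ ≤ ∑ _j : Fin (m + 2), 3 * (1 - p) := by
            refine Finset.sum_le_sum fun j _ => ?_
            refine (defect (z j) (hprod.trans (hzj j)) (hz j)).trans ?_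
            have := hzj j
            linarith
        _ = 3 * (m + 2) * (1 - p) := by
            rw [Finset.sum_const, Finset.card_univ, Fintype.card_fin, nsmul_eq_mul]
            push_cast
            ring
    linarith
  have hp1 : p ≤ 1 := (hzj 0).trans (hz 0)
  have hm3 : ((m : ℂ) + 3) ≠ 0 := by
    have : ((m : ℂ) + 3) = ((m + 3 : ℕ) : ℂ) := by push_cast; ring
    rw [this]
    exact Nat.cast_ne_zero.2 (by omega)
  have hn : ((m : ℝ) + 3) * ‖e1 w‖ = ((m : ℝ) + 2) * ‖(a : ℂ) + ∑ j, z j‖ := by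
    have h1 := congrArg norm hsum
    rw [norm_mul, norm_mul] at h1
    have h2 : ‖(m : ℂ) + 3‖ = (m : ℝ) + 3 := by
      have : ((m : ℂ) + 3) = ((m + 3 : ℕ) : ℂ) := by push_cast; ring
      rw [this, Complex.norm_natCast]; push_cast; ring
    have h3 : ‖(m : ℂ) + 2‖ = (m : ℝ) + 2 := by
      have : ((m : ℂ) + 2) = ((m + 2 : ℕ) : ℂ) := by push_cast; ring
      rw [this, Complex.norm_natCast]; push_cast; ring
    rw [h2, h3] at h1
    exact h1.symm
  have hle : ‖e1 w‖ ≤ ‖(a : ℂ) + ∑ j, z j‖ := by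
    have h0 : 0 ≤ ‖(a : ℂ) + ∑ j, z j‖ := norm_nonneg _
    have hm : (0 : ℝ) ≤ m := Nat.cast_nonneg m
    by_contra hlt
    push Not at hlt
    nlinarith
  have hm : (0 : ℝ) ≤ m := Nat.cast_nonneg m
  have h5 : 3 * ((m : ℝ) + 2) * (1 - p) ≤ 4 * (m + 2) * (1 - p) := by
    have : 0 ≤ ((m : ℝ) + 2) * (1 - p) := mul_nonneg (by linarith) (by linarith)
    linarith
  linarith

end Pool.Agent.H957.SE.Sum
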