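import Pool.Agent.H957.SE.Stm

/-!
# Second order lower bound for `‖w - a‖ ^ (-s)` (TERM; written by helper97)
-/

set_option autoImplicit false

namespace Pool.Agent.H957.SE.Term

/-- a cubic lower bound for `(1 + h) ^ (-r)` -/
lemma taylor {h r : ℝ} (hh : |h| ≤ 1 / 2) (hr0 : 0 < r) (hr1 : r ≤ 1) :
    1 - r * h + r * (r + 1) / 2 * h ^ 2 - 10 * |h| ^ 3 ≤ (1 + h) ^ (-r) := by
  obtain ⟨t, ht⟩ : ∃ t, t = |h| := ⟨_, rfl⟩
  rw [← ht] at hh ⊢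
  have ht0 : 0 ≤ t := by
    rw [ht]
    exact abs_nonneg h
  have ht2 : h ^ 2 = t ^ 2 := by rw [ht, sq_abs]
  have hht : |h| ≤ t := ht.ge
  obtain ⟨hl, hu⟩ := abs_le.1 hht
  have hpos : 0 < 1 + h := by linarith
  obtain ⟨l, hl'⟩ : ∃ l, l = Real.log (1 + h) := ⟨_, rfl⟩
  -- the logarithm
  have hlog : |(-h + h ^ 2 / 2) + l| ≤ 2 * t ^ 3 := by
    have h1 := Real.abs_log_sub_add_sum_range_le (x := -h) (by rw [abs_neg, ← ht]; linarith) 2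
    rw [Finset.sum_range_succ, Finset.sum_range_one, abs_neg, ← ht, sub_neg_eq_add, ← hl'] at h1
    have h2 : (-h) ^ (0 + 1) / (((0 : ℕ) : ℝ) + 1) + (-h) ^ (1 + 1) / (((1 : ℕ) : ℝ) + 1) + l =
        (-h + h ^ 2 / 2) + l := by
      norm_num
    rw [h2] at h1
    refine h1.trans ?_
    rw [div_le_iff₀ (by linarith)]
    have h3 : 0 ≤ t ^ 3 := by positivity
    have h4 : t ^ (2 + 1) = t ^ 3 := rfl
    rw [h4]
    nlinarith
  obtain ⟨e, he⟩ : ∃ e, e = (-h + h ^ 2 / 2) + l := ⟨_, rfl⟩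
  rw [← he] at hlog
  have hle : l = h - h ^ 2 / 2 + e := by
    rw [he]
    ring
  have ht3 : t ^ 3 ≤ t / 4 := by
    have h1 : t ^ 2 ≤ 1 / 4 := by nlinarith
    nlinarith
  have ht2' : t ^ 2 ≤ t / 2 := by nlinarith
  obtain ⟨he1, he2⟩ := abs_le.1 hlog
  have hlabs : |l| ≤ 7 / 4 * t := by
    rw [abs_le, hle, ht2]
    constructor <;> nlinarith
  have hm : |h - h ^ 2 / 2| ≤ 5 / 4 * t := by
    rw [abs_le, ht2]
    constructor <;> nlinarith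
  have hl2 : h ^ 2 - 7 / 2 * t ^ 3 ≤ l ^ 2 := by
    have h1 : l ^ 2 = (h - h ^ 2 / 2) ^ 2 + 2 * (e * (h - h ^ 2 / 2)) + e ^ 2 := by
      rw [hle]
      ring
    have h2 : |e * (h - h ^ 2 / 2)| ≤ 2 * t ^ 3 * (5 / 4 * t) := by
      rw [abs_mul]
      exact mul_le_mul hlog hm (abs_nonneg _) (by positivity)
    have h3 := (abs_le.1 h2).1
    have h4 : (h - h ^ 2 / 2) ^ 2 = h ^ 2 - h * h ^ 2 + (h ^ 2) ^ 2 / 4 := by ring
    have h5 : h * h ^ 2 ≤ t ^ 3 := by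
      rw [ht2]
      calc h * t ^ 2 ≤ t * t ^ 2 := mul_le_mul_of_nonneg_right hu (by positivity)
        _ = t ^ 3 := by ring
    have h6 : 2 * t ^ 3 * (5 / 4 * t) ≤ 5 / 4 * t ^ 3 := by
      have : 0 ≤ t ^ 3 := by positivity
      nlinarith
    have h7 : 0 ≤ (h ^ 2) ^ 2 / 4 := by positivity
    have h8 : 0 ≤ e ^ 2 := sq_nonneg e
    rw [h1, h4]
    linarith
  -- the exponential
  have hx : |-(r * l)| ≤ 7 / 4 * t := by
    rw [abs_neg, abs_mul, abs_of_pos hr0]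
    calc r * |l| ≤ 1 * |l| := mul_le_mul_of_nonneg_right hr1 (abs_nonneg _)
      _ ≤ 7 / 4 * t := by rw [one_mul]; exact hlabs
  have hexp := Real.exp_bound (x := -(r * l)) (hx.trans (by linarith)) (n := 3) (by norm_num)
  rw [Finset.sum_range_succ, Finset.sum_range_succ, Finset.sum_range_one] at hexp
  have hcube : |-(r * l)| ^ 3 ≤ 343 / 64 * t ^ 3 := by
    calc |-(r * l)| ^ 3 ≤ (7 / 4 * t) ^ 3 := pow_le_pow_left₀ (abs_nonneg _) hx 3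
      _ = 343 / 64 * t ^ 3 := by ring
  have hlow := (abs_le.1 hexp).1
  norm_num [Nat.factorial] at hlow
  have hrp : (1 + h) ^ (-r) = Real.exp (-(r * l)) := by
    rw [Real.rpow_def_of_pos hpos, hl']
    congr 1
    ring
  rw [hrp]
  have hr2 : r ^ 2 * (h ^ 2 - 7 / 2 * t ^ 3) ≤ r ^ 2 * l ^ 2 :=
    mul_le_mul_of_nonneg_left hl2 (by positivity)
  have hr3 : r ^ 2 * t ^ 3 ≤ t ^ 3 := by
    have h1 : r ^ 2 ≤ 1 := by nlinarith
    have h2 : 0 ≤ t ^ 3 := by positivity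
    nlinarith
  have hre : r * e ≤ 2 * t ^ 3 := by
    calc r * e ≤ r * (2 * t ^ 3) := mul_le_mul_of_nonneg_left he2 hr0.le
      _ ≤ 1 * (2 * t ^ 3) := mul_le_mul_of_nonneg_right hr1 (by positivity)
      _ = 2 * t ^ 3 := one_mul _
  have hrl : r * l = r * h - r / 2 * h ^ 2 + r * e := by
    rw [hle]
    ring
  have hc0 : 0 ≤ t ^ 3 := by positivity
  rw [abs_neg] at hcube
  have hsq : (r * l) ^ 2 = r ^ 2 * l ^ 2 := by ring
  rw [← abs_mul, hsq] at hlow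
  linarith

/-- **Second order lower bound.** -/
theorem main : Pool.Agent.H957.SE.StTerm := by
  refine ⟨1000, by norm_num, ?_⟩
  intro s hs0 hs2 a w ha1 ha2 hw
  obtain ⟨ε, hε⟩ : ∃ ε, ε = 1 - a := ⟨_, rfl⟩
  have haε : a = 1 - ε := by linarith
  have hε0 : 0 ≤ ε := by linarith
  have hε8 : ε ≤ 1 / 8 := by linarith
  obtain ⟨ρ, hρ⟩ : ∃ ρ, ρ = ‖w‖ := ⟨_, rfl⟩
  have hρ0 : 0 ≤ ρ := by
    rw [hρ]
    exact norm_nonneg w
  rw [← hρ] at hw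
  obtain ⟨u, hu⟩ : ∃ u, u = w.re := ⟨_, rfl⟩
  obtain ⟨v, hv⟩ : ∃ v, v = w.im := ⟨_, rfl⟩
  have hρ2 : ρ ^ 2 = u ^ 2 + v ^ 2 := by
    rw [hρ, ← Complex.normSq_eq_norm_sq, Complex.normSq_apply, hu, hv]
    ring
  have huρ : |u| ≤ ρ := by
    rw [hu, hρ]
    exact Complex.abs_re_le_norm w
  have hw2 : (w ^ 2).re = u ^ 2 - v ^ 2 := by
    rw [pow_two, Complex.mul_re, hu, hv]
    ring
  obtain ⟨h, hh⟩ : ∃ h, h = -2 * ε + ε ^ 2 - 2 * u + 2 * ε * u + ρ ^ 2 := ⟨_, rfl⟩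
  have hn2 : ‖w - (a : ℂ)‖ ^ 2 = 1 + h := by
    rw [← Complex.normSq_eq_norm_sq, Complex.normSq_apply, Complex.sub_re, Complex.sub_im,
      Complex.ofReal_re, Complex.ofReal_im, ← hu, ← hv, haε, hh, hρ2]
    ring
  obtain ⟨hul, huu⟩ := abs_le.1 huρ
  have hhabs : |h| ≤ 1 / 2 := by
    have h1 : ‖w - (a : ℂ)‖ ≤ 9 / 8 := by
      have h2 := norm_sub_le w (a : ℂ)
      rw [Complex.norm_real, Real.norm_eq_abs, abs_of_nonneg (by linarith), ← hρ] at h2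
      linarith
    have h3 : 3 / 4 ≤ ‖w - (a : ℂ)‖ := by
      have h2 := norm_sub_norm_le (a : ℂ) w
      rw [Complex.norm_real, Real.norm_eq_abs, abs_of_nonneg (by linarith), ← hρ, norm_sub_rev] at h2
      linarith
    rw [abs_le]
    constructor
    · nlinarith
    · nlinarith
  have hh3 : |h| ≤ 3 * (ε + ρ) := by
    rw [abs_le, hh]
    constructor
    · nlinarith [mul_nonneg hε0 hρ0, mul_nonneg hε0 hε0, mul_nonneg hρ0 hρ0,
        mul_le_mul_of_nonneg_left hul hε0, mul_le_mul_of_nonneg_left huu hε0]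
    · nlinarith [mul_nonneg hε0 hρ0, mul_nonneg hε0 hε0, mul_nonneg hρ0 hρ0,
        mul_le_mul_of_nonneg_left hul hε0, mul_le_mul_of_nonneg_left huu hε0]
  have hT := taylor (h := h) (r := s / 2) hhabs (by linarith) (by linarith)
  have hn0 : 0 ≤ ‖w - (a : ℂ)‖ := norm_nonneg _
  have hpow : ‖w - (a : ℂ)‖⁻¹ ^ s = (1 + h) ^ (-(s / 2)) := by
    rw [← hn2, ← Real.rpow_natCast_mul hn0, Real.inv_rpow hn0, ← Real.rpow_neg hn0]
    congr 1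
    push_cast
    ring
  rw [hpow]
  refine le_trans ?_ hT
  rw [hw2, ← hu, ← hε, ← hρ]
  -- cubic error
  have hcube : |h| ^ 3 ≤ 27 * (ρ ^ 3 + ε * ρ + ε ^ 2) := by
    have h1 : |h| ^ 3 ≤ (3 * (ε + ρ)) ^ 3 := pow_le_pow_left₀ (abs_nonneg _) hh3 3
    have h2 : (3 * (ε + ρ)) ^ 3 = 27 * (ε * ε ^ 2 + 3 * (ε * (ε * ρ)) + 3 * (ρ * (ε * ρ)) + ρ ^ 3) := by
      ring
    have h3 : ε * ε ^ 2 ≤ 1 / 8 * ε ^ 2 := mul_le_mul_of_nonneg_right hε8 (by positivity)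
    have h4 : ε * (ε * ρ) ≤ 1 / 8 * (ε * ρ) := mul_le_mul_of_nonneg_right hε8 (by positivity)
    have h5 : ρ * (ε * ρ) ≤ 1 / 8 * (ε * ρ) := mul_le_mul_of_nonneg_right hw (by positivity)
    have h6 : 0 ≤ ε * ρ := by positivity
    have h7 : 0 ≤ ε ^ 2 := by positivity
    linarith
  -- the square
  obtain ⟨g, hg⟩ : ∃ g, g = -2 * ε + ε ^ 2 + 2 * ε * u + ρ ^ 2 := ⟨_, rfl⟩
  have hhg : h = -2 * u + g := by
    rw [hh, hg]
    ring
  have hgabs : |g| ≤ 3 * ε + ρ ^ 2 := by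
    rw [abs_le, hg]
    constructor
    · nlinarith [mul_nonneg hε0 hρ0, mul_nonneg hε0 hε0, mul_nonneg hρ0 hρ0,
        mul_le_mul_of_nonneg_left hul hε0, mul_le_mul_of_nonneg_left huu hε0]
    · nlinarith [mul_nonneg hε0 hρ0, mul_nonneg hε0 hε0, mul_nonneg hρ0 hρ0,
        mul_le_mul_of_nonneg_left hul hε0, mul_le_mul_of_nonneg_left huu hε0]
  have hug : |u * g| ≤ 3 * (ε * ρ) + ρ ^ 3 := by
    rw [abs_mul]
    calc |u| * |g| ≤ ρ * (3 * ε + ρ ^ 2) := mul_le_mul huρ hgabs (abs_nonneg _) hρ0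
      _ = 3 * (ε * ρ) + ρ ^ 3 := by ring
  have hsq : 4 * u ^ 2 - 4 * (3 * (ε * ρ) + ρ ^ 3) ≤ h ^ 2 := by
    have h1 : h ^ 2 = 4 * u ^ 2 - 4 * (u * g) + g ^ 2 := by
      rw [hhg]
      ring
    have h2 := (abs_le.1 hug).2
    have h3 := sq_nonneg g
    linarith
  have hc1 : 0 ≤ s * (s + 2) / 8 := by positivity
  have hc2 : s * (s + 2) / 8 ≤ 1 := by nlinarith
  have hsq2 : s * (s + 2) / 8 * (4 * u ^ 2) - 4 * (3 * (ε * ρ) + ρ ^ 3) ≤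
      s * (s + 2) / 8 * h ^ 2 := by
    have h1 := mul_le_mul_of_nonneg_left hsq hc1
    have h2 : s * (s + 2) / 8 * (4 * (3 * (ε * ρ) + ρ ^ 3)) ≤ 1 * (4 * (3 * (ε * ρ) + ρ ^ 3)) :=
      mul_le_mul_of_nonneg_right hc2 (by positivity)
    linarith
  have heq : s / 2 * (s / 2 + 1) / 2 * h ^ 2 = s * (s + 2) / 8 * h ^ 2 := by ring
  rw [heq]
  have h1 : s / 2 * h = -s * ε + s / 2 * ε ^ 2 - s * u + s * (ε * u) + s / 2 * (u ^ 2 + v ^ 2) := by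
    rw [hh, hρ2]
    ring
  have h2 : s / 2 * ε ^ 2 ≤ 1 * ε ^ 2 := mul_le_mul_of_nonneg_right (by linarith) (by positivity)
  have h3 : s * (ε * u) ≤ 2 * (ε * ρ) := by
    calc s * (ε * u) ≤ s * (ε * ρ) :=
          mul_le_mul_of_nonneg_left (mul_le_mul_of_nonneg_left huu hε0) hs0.le
      _ ≤ 2 * (ε * ρ) := mul_le_mul_of_nonneg_right hs2 (by positivity)
  have h4 : s * (s + 2) / 8 * (4 * u ^ 2) = s ^ 2 / 2 * u ^ 2 + s * u ^ 2 := by ring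
  have h5 : 0 ≤ ε * ρ := by positivity
  have h6 : 0 ≤ ε ^ 2 := by positivity
  have h7 : 0 ≤ ρ ^ 3 := by positivity
  rw [h1]
  linarith

end Pool.Agent.H957.SE.Term
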