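import Pool.Agent.H957.SE.Loc
import Pool.Agent.H957.SE.Com
import Pool.Agent.H957.SE.Int
import Pool.Agent.H957.SE.Cen
import Pool.Agent.H957.SE.Sum
import Pool.Agent.H957.SE.Term
import Pool.Agent.H957.SE.One

set_option autoImplicit false

/-!
# Assembly: real distinguished zero, and rotation to a general one
-/

open Polynomial

namespace Pool.Agent.H957.SE.Gen

open Pool.Agent.H957.SE

theorem loc : StLoc := Loc.loc Int.main Cen.main Sum.main Term.main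

theorem com : StCom := Com.com loc

/-- the global theorem for a real distinguished zero, all exponents `s ≥ s₀` -/
theorem real_global (N : ℕ) (hN : 1 ≤ N) : ∃ s₀ c : ℝ, 0 < s₀ ∧ s₀ < 2 ∧ 0 < c ∧
    ∀ (a : ℝ) (z w : Fin N → ℂ), 0 ≤ a → a ≤ 1 → (∀ j, ‖z j‖ ≤ 1) → Crit a z w →
      (∃ k, w k = (a : ℂ)) ∨ ∀ s : ℝ, s₀ ≤ s →
      (N : ℝ) + c * ((1 - a) + ∑ k, ‖w k‖ ^ 2) ≤ ∑ k, ‖w k - (a : ℂ)‖⁻¹ ^ s := by
  have hX : ∀ (a : ℝ) (w : Fin N → ℂ), a ≤ 1 → 0 ≤ (1 - a) + ∑ k, ‖w k‖ ^ 2 := by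
    intro a w ha
    have h2 : 0 ≤ ∑ k, ‖w k‖ ^ 2 := Finset.sum_nonneg fun _ _ => sq_nonneg _
    linarith
  rcases Nat.lt_or_ge 1 N with h | h
  · obtain ⟨m, rfl⟩ : ∃ m, N = m + 2 := ⟨N - 2, by omega⟩
    obtain ⟨s₀, c, h1, h2, hc, H⟩ := com m
    refine ⟨s₀, c, by linarith, h2, hc, ?_⟩
    intro a z w ha0 ha1 hz hcrit
    rcases H a z w ha0 ha1 hz hcrit with h3 | h3
    · exact Or.inl h3
    · refine Or.inr fun s hs => ?_
      exact Com.sum_bern (fun k => ‖w k - (a : ℂ)‖⁻¹) (fun k => by positivity)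
        (by linarith) hs (hX a w ha1) hc.le h3
  · obtain rfl : N = 1 := by omega
    refine ⟨3 / 2, (3 / 2) / 4, by norm_num, by norm_num, by norm_num, ?_⟩
    intro a z w ha0 ha1 hz hcrit
    rcases One.main (3 / 2) (by norm_num) a z w ha0 ha1 hz hcrit with h3 | h3
    · exact Or.inl h3
    · refine Or.inr fun s hs => ?_
      exact Com.sum_bern (fun k => ‖w k - (a : ℂ)‖⁻¹) (fun k => by positivity)
        (by norm_num) hs (hX a w ha1) (by norm_num) (by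
          rw [Nat.cast_one]; exact h3)

/-- the local theorem for a real distinguished zero, all exponents `s > 1 / (N - 1)` -/
theorem real_local (N : ℕ) (s : ℝ) (hs0 : 0 < s) (hs : 1 < s * ((N : ℝ) - 1)) :
    ∃ δ c : ℝ, 0 < δ ∧ 0 < c ∧
    ∀ (a : ℝ) (z w : Fin N → ℂ), a ≤ 1 → (∀ j, ‖z j‖ ≤ 1) → Crit a z w →
      (1 - a) + ∑ k, ‖w k‖ ^ 2 ≤ δ →
      (N : ℝ) + c * ((1 - a) + ∑ k, ‖w k‖ ^ 2) ≤ ∑ k, ‖w k - (a : ℂ)‖⁻¹ ^ s := by
  have hN : 2 ≤ N := by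
    by_contra hc
    have h1 : N ≤ 1 := by omega
    have h2 : (N : ℝ) ≤ 1 := by exact_mod_cast h1
    nlinarith
  obtain ⟨m, rfl⟩ : ∃ m, N = m + 2 := ⟨N - 2, by omega⟩
  obtain ⟨t, ht0, ht2, hts, htm⟩ : ∃ t : ℝ, 0 < t ∧ t ≤ 2 ∧ t ≤ s ∧ 1 < t * (m + 1) := by
    refine ⟨min s 2, lt_min hs0 (by norm_num), min_le_right _ _, min_le_left _ _, ?_⟩
    have hm : (0 : ℝ) ≤ m := Nat.cast_nonneg m
    rcases min_choice s 2 with h | h
    · rw [h]; push_cast at hs; linarith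
    · rw [h]; linarith
  obtain ⟨δ, c, hδ, hc, H⟩ := loc m t ht0 htm ht2
  refine ⟨min δ (δ ^ 2), c, lt_min hδ (by positivity), hc, ?_⟩
  intro a z w ha1 hz hcrit hX
  have h0 : 0 ≤ ∑ k, ‖w k‖ ^ 2 := Finset.sum_nonneg fun _ _ => sq_nonneg _
  have h1 : 1 - δ ≤ a := by
    have := hX.trans (min_le_left _ _)
    linarith
  have h2 : ∀ k, ‖w k‖ ≤ δ := by
    intro k
    have h3 : ‖w k‖ ^ 2 ≤ ∑ k, ‖w k‖ ^ 2 :=
      Finset.single_le_sum (f := fun k => ‖w k‖ ^ 2) (fun _ _ => sq_nonneg _) (Finset.mem_univ k)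
    have h4 : ‖w k‖ ^ 2 ≤ δ ^ 2 := by
      have := hX.trans (min_le_right _ _)
      linarith
    exact (pow_le_pow_iff_left₀ (norm_nonneg _) hδ.le (by norm_num)).1 h4
  have h3 := H a z w h1 ha1 hz hcrit h2
  exact Com.sum_bern (fun k => ‖w k - (a : ℂ)‖⁻¹) (fun k => by positivity) ht0 hts
    (by linarith) hc.le h3

/-- rotation: the data of a general polynomial -/
theorem data {p : ℂ[X]} {N : ℕ} (hn : p.natDegree = N + 1) (hp : ∀ z ∈ p.roots, ‖z‖ ≤ 1) {a : ℂ}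
    (ha : a ∈ p.roots) : ∃ (c : ℂ) (z w : Fin N → ℂ), ‖c‖ = 1 ∧ a = c * ((‖a‖ : ℝ) : ℂ) ∧
      (∀ j, ‖z j‖ ≤ 1) ∧ Crit ‖a‖ z w ∧
      (derivative p).roots = Multiset.map (fun k => c * w k) Finset.univ.val := by
  have hp0 : p ≠ 0 := by
    rintro rfl
    simp at ha
  have hcard : p.roots.card = N + 1 := by
    rw [← hn]
    exact (IsAlgClosed.splits p).natDegree_eq_card_roots.symm
  obtain ⟨l, hl⟩ := Quot.exists_rep p.roots
  have hl' : (l : Multiset ℂ) = p.roots := hl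
  have hlen : l.length = N + 1 := by
    rw [← hcard, ← hl']; rfl
  let lam : Fin (N + 1) → ℂ := fun i => l.get (i.cast hlen.symm)
  have hlam : Finset.univ.val.map lam = p.roots := by
    rw [← hl']
    have h1 : Finset.univ.val.map lam = ((List.ofFn lam : List ℂ) : Multiset ℂ) := by
      rw [List.ofFn_eq_map]
      rfl
    rw [h1]
    congr 1
    apply List.ext_get
    · simp [hlen]
    · intro n h1 h2
      simp only [List.get_eq_getElem, List.getElem_ofFn, lam]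
      rfl
  have hprod : p = C p.leadingCoeff * ∏ j, (X - C (lam j)) := by
    conv_lhs => rw [(IsAlgClosed.splits p).eq_prod_roots]
    rw [← hlam, Multiset.map_map]
    rfl
  have hlc : p.leadingCoeff ≠ 0 := leadingCoeff_ne_zero.2 hp0
  have hder : (derivative p).roots = (derivative (∏ j, (X - C (lam j)))).roots := by
    conv_lhs => rw [hprod]
    rw [derivative_C_mul, roots_C_mul _ hlc]
  obtain ⟨i, hi⟩ : ∃ i, lam i = a := by
    rw [← hlam, Multiset.mem_map] at ha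
    obtain ⟨i, -, hi⟩ := ha
    exact ⟨i, hi⟩
  have hbound : ∀ i, ‖lam i‖ ≤ 1 := by
    intro i
    apply hp
    rw [← hlam, Multiset.mem_map]
    exact ⟨i, Finset.mem_univ_val i, rfl⟩
  obtain ⟨c, z, w, hc1, hca, hz, hr, hr'⟩ := Pool.Agent.W470.Sen.rotate_data lam hbound i
  rw [hi] at hca hr
  refine ⟨c, z, w, hc1, hca, hz, ?_, ?_⟩
  · intro x
    have h1 := Pool.Agent.H565.Pm.dP_eq ‖a‖ z
    rw [hr, Multiset.map_map] at h1
    have h2 : derivative ((X - C ((‖a‖ : ℝ) : ℂ)) * ∏ j, (X - C (z j))) =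
        C (N + 1 : ℂ) * ∏ k, (X - C (w k)) := h1
    rw [h2, eval_mul, eval_C, eval_prod]
    simp only [eval_sub, eval_X, eval_C]
  · rw [hder, hr']

end Pool.Agent.H957.SE.Gen
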