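import Pool.Agent.H957.SE.Stm3

set_option autoImplicit false

/-!
# The geometric mean is not admissible near `z^n - 1`: proof
-/

open Polynomial

namespace Pool.Agent.H957.SE.Geo

theorem exists_q (n : ℕ) (hn : 3 ≤ n) : ∃ (c : ℝ) (q : ℂ[X]), -1 < c ∧ c < 1 ∧
    (X ^ n - 1 : ℂ[X]) = q * (X ^ 2 - C (2 * (c : ℂ)) * X + 1) := by
  have hn0 : (0 : ℝ) < n := by
    have : 0 < n := by omega
    exact_mod_cast this
  have hn3 : (3 : ℝ) ≤ n := by exact_mod_cast hn
  set t : ℝ := 2 * Real.pi / n with ht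
  have ht0 : 0 < t := by positivity
  have htpi : t < Real.pi := by
    rw [ht, div_lt_iff₀ hn0]
    nlinarith [Real.pi_pos]
  have hsin : 0 < Real.sin t := Real.sin_pos_of_pos_of_lt_pi ht0 htpi
  have hsc := Real.sin_sq_add_cos_sq t
  have hc1 : Real.cos t < 1 := by nlinarith [Real.cos_le_one t]
  have hc2 : -1 < Real.cos t := by nlinarith [Real.neg_one_le_cos t]
  set z : ℂ := ⟨Real.cos t, Real.sin t⟩ with hz
  set z' : ℂ := ⟨Real.cos t, -Real.sin t⟩ with hz'
  have hze : z = Complex.exp (t * Complex.I) := by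
    rw [Complex.exp_mul_I, ← Complex.ofReal_cos, ← Complex.ofReal_sin]
    apply Complex.ext <;> simp [hz, Complex.cos_ofReal_re, Complex.sin_ofReal_re]
  have hze' : z' = Complex.exp (-(t * Complex.I)) := by
    rw [← neg_mul, Complex.exp_mul_I, Complex.cos_neg, Complex.sin_neg, ← Complex.ofReal_cos,
      ← Complex.ofReal_sin]
    apply Complex.ext <;> simp [hz', Complex.cos_ofReal_re, Complex.sin_ofReal_re]
  have hnt : (n : ℂ) * (t * Complex.I) = 2 * Real.pi * Complex.I := by
    rw [ht]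
    push_cast
    have : (n : ℂ) ≠ 0 := by exact_mod_cast hn0.ne'
    field_simp
  have hzn : z ^ n = 1 := by
    rw [hze, ← Complex.exp_nat_mul, hnt, Complex.exp_two_pi_mul_I]
  have hzn' : z' ^ n = 1 := by
    rw [hze', ← Complex.exp_nat_mul, mul_neg, hnt, Complex.exp_neg, Complex.exp_two_pi_mul_I,
      inv_one]
  have hne : z - z' ≠ 0 := by
    intro h
    have h1 := congrArg Complex.im h
    simp [hz, hz'] at h1
    linarith
  have hcop : IsCoprime (X - C z) (X - C z') :=
    isCoprime_X_sub_C_of_isUnit_sub (isUnit_iff_ne_zero.2 hne)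
  have h1 : X - C z ∣ (X ^ n - 1 : ℂ[X]) := by
    rw [dvd_iff_isRoot, IsRoot.def]
    simp [hzn]
  have h2 : X - C z' ∣ (X ^ n - 1 : ℂ[X]) := by
    rw [dvd_iff_isRoot, IsRoot.def]
    simp [hzn']
  obtain ⟨q, hq⟩ := hcop.mul_dvd h1 h2
  refine ⟨Real.cos t, q, hc2, hc1, ?_⟩
  rw [hq, mul_comm]
  congr 1
  have hs : z + z' = 2 * (Real.cos t : ℂ) := by
    apply Complex.ext
    · simp [hz, hz', Complex.cos_ofReal_re]
      ring
    · simp [hz, hz']
  have hp : z * z' = 1 := by
    apply Complex.ext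
    · simp [hz, hz']
      nlinarith
    · simp [hz, hz']
      ring
  have e1 : (X - C z) * (X - C z') = X ^ 2 - C (z + z') * X + C (z * z') := by
    rw [C_add, C_mul]
    ring
  rw [e1, hs, hp, C_1]

theorem norm_root (r : ℝ) (h1 : -1 ≤ r) (h2 : r ≤ 1) (x : ℂ)
    (hx : x ^ 2 - 2 * (r : ℂ) * x + 1 = 0) : ‖x‖ = 1 := by
  have hre := congrArg Complex.re hx
  have him := congrArg Complex.im hx
  simp [pow_two] at hre him
  have h3 : x.im * (x.re - r) = 0 := by linarith
  have h4 : x.re ^ 2 + x.im ^ 2 = 1 := by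
    rcases mul_eq_zero.1 h3 with h | h
    · rw [h] at hre ⊢
      have h5 : (x.re - r) ^ 2 ≤ 0 := by nlinarith
      have h6 : x.re - r = 0 := by nlinarith [sq_nonneg (x.re - r)]
      nlinarith
    · nlinarith
  have h5 : ‖x‖ ^ 2 = 1 := by
    rw [← Complex.normSq_eq_norm_sq, Complex.normSq_apply]
    linarith
  nlinarith [norm_nonneg x]

theorem main : Pool.Agent.H957.SE.StGeo := by
  intro n hn δ hδ
  obtain ⟨c, q, hc1, hc2, hq⟩ := exists_q n hn
  have hn0 : 0 < n := by omega
  have hnR : (0 : ℝ) < n := by exact_mod_cast hn0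
  have hnC : (n : ℂ) ≠ 0 := by exact_mod_cast hnR.ne'
  have hdC : (2 - 2 * (c : ℂ)) ≠ 0 := by
    intro h
    have := congrArg Complex.re h
    simp at this
    linarith
  -- values at one
  have hq1 : q.eval 1 = 0 := by
    have h := congrArg (eval 1) hq
    simp at h
    rcases h with h | h
    · exact h
    · exfalso
      apply hdC
      linear_combination h
  have hq1' : (derivative q).eval 1 * (2 - 2 * (c : ℂ)) = n := by
    have h := congrArg (fun P : ℂ[X] => (derivative P).eval 1) hq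
    simp [hq1, derivative_X_pow] at h
    linear_combination -h
  -- the bound
  obtain ⟨B0, hB0⟩ := (isCompact_closedBall (0 : ℂ) 1).exists_bound_of_continuousOn
    (f := fun x => (derivative (X * q)).eval x) (Polynomial.continuous _).continuousOn
  set B : ℝ := |B0| + 1 with hB
  have hBp : 0 < B := by positivity
  have hBb : ∀ x : ℂ, ‖x‖ ≤ 1 → ‖(derivative (X * q)).eval x‖ ≤ B := by
    intro x hx
    have := hB0 x (by simpa using hx)
    rw [hB]
    linarith [le_abs_self B0]
  set ρ : ℝ := min 1 (Real.sqrt (δ / n)) with hρ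
  have hρ0 : 0 < ρ := lt_min one_pos (Real.sqrt_pos.2 (div_pos hδ hnR))
  have hρ2 : ρ ^ 2 ≤ δ / n := by
    have h1 : ρ ≤ Real.sqrt (δ / n) := min_le_right _ _
    calc ρ ^ 2 ≤ (Real.sqrt (δ / n)) ^ 2 := by gcongr
      _ = δ / n := Real.sq_sqrt (div_pos hδ hnR).le
  set b : ℝ := min (1 + c) (n * ρ ^ (n - 1) / (2 * B)) with hb
  have hb0 : 0 < b := lt_min (by linarith) (by positivity)
  have hb1 : b ≤ 1 + c := min_le_left _ _
  have hb2 : 2 * b * B ≤ n * ρ ^ (n - 1) := by
    have h1 : b ≤ n * ρ ^ (n - 1) / (2 * B) := min_le_right _ _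
    rw [le_div_iff₀ (by positivity)] at h1
    linarith
  set p : ℂ[X] := q * (X ^ 2 - C (2 * ((c - b : ℝ) : ℂ)) * X + 1) with hp
  have hp2 : p = X ^ n - 1 + C (2 * (b : ℂ)) * (X * q) := by
    rw [hq, hp]
    push_cast
    have e : C (2 * ((c : ℂ) - b)) = C (2 * (c : ℂ)) - C (2 * (b : ℂ)) := by
      rw [← C_sub]
      congr 1
      ring
    rw [e]
    ring
  -- degrees
  have hDm : (X ^ 2 - C (2 * (c : ℂ)) * X + 1 : ℂ[X]).Monic := by
    have : (X ^ 2 - C (2 * (c : ℂ)) * X + 1 : ℂ[X]) = X ^ 2 + (- C (2 * (c : ℂ)) * X + 1) := by ring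
    rw [this]
    refine monic_X_pow_add ?_
    refine lt_of_le_of_lt (b := (1 : WithBot ℕ)) ?_ (by norm_num)
    compute_degree
  have hDd : (X ^ 2 - C (2 * (c : ℂ)) * X + 1 : ℂ[X]).natDegree = 2 := by
    compute_degree!
  have hDbm : (X ^ 2 - C (2 * ((c - b : ℝ) : ℂ)) * X + 1 : ℂ[X]).Monic := by
    have : (X ^ 2 - C (2 * ((c - b : ℝ) : ℂ)) * X + 1 : ℂ[X]) =
      X ^ 2 + (- C (2 * ((c - b : ℝ) : ℂ)) * X + 1) := by ring
    rw [this]
    refine monic_X_pow_add ?_
    refine lt_of_le_of_lt (b := (1 : WithBot ℕ)) ?_ (by norm_num)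
    compute_degree
  have hDbd : (X ^ 2 - C (2 * ((c - b : ℝ) : ℂ)) * X + 1 : ℂ[X]).natDegree = 2 := by
    compute_degree!
  have hXm : (X ^ n - 1 : ℂ[X]).Monic := by
    have := monic_X_pow_sub_C (1 : ℂ) hn0.ne'
    rwa [C_1] at this
  have hXd : (X ^ n - 1 : ℂ[X]).natDegree = n := by
    have := natDegree_X_pow_sub_C (n := n) (r := (1 : ℂ))
    rwa [C_1] at this
  have hqm : q.Monic := by
    rw [hq] at hXm
    exact hDm.of_mul_monic_right hXm
  have hqd : q.natDegree + 2 = n := by
    rw [← hXd, hq, hqm.natDegree_mul hDm, hDd]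
  have hpm : p.Monic := hqm.mul hDbm
  have hpd : p.natDegree = n := by
    rw [hp, hqm.natDegree_mul hDbm, hDbd, hqd]
  have hp0 : p ≠ 0 := hpm.ne_zero
  -- the zeros
  have hroots : ∀ z ∈ p.roots, ‖z‖ ≤ 1 := by
    intro z hz
    rw [mem_roots hp0, IsRoot.def, hp, eval_mul, mul_eq_zero] at hz
    rcases hz with hz | hz
    · have h1 := congrArg (eval z) hq
      rw [eval_mul, hz, zero_mul] at h1
      simp at h1
      have h2 : z ^ n = 1 := by linear_combination h1
      have h3 : ‖z‖ ^ n = 1 := by rw [← norm_pow, h2, norm_one]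
      exact ((pow_eq_one_iff_of_nonneg (norm_nonneg z) hn0.ne').1 h3).le
    · have h1 : z ^ 2 - 2 * ((c - b : ℝ) : ℂ) * z + 1 = 0 := by
        simpa using hz
      exact (norm_root (c - b) (by linarith) (by linarith) z h1).le
  have hp1 : p.eval 1 = 0 := by
    rw [hp, eval_mul, hq1, zero_mul]
  have hpd1 : (derivative p).eval 1 = n * (1 + (b : ℂ) / (1 - c)) := by
    have e : (derivative p).eval 1 = (derivative q).eval 1 * (2 - 2 * (c : ℂ) + 2 * b) := by
      rw [hp]
      simp [hq1]
      left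
      ring
    have h1c : (1 - (c : ℂ)) ≠ 0 := by
      intro h
      apply hdC
      linear_combination 2 * h
    rw [e, ← hq1']
    field_simp
  have h1b : (1 : ℝ) < 1 + b / (1 - c) := by
    have : 0 < b / (1 - c) := div_pos hb0 (by linarith)
    linarith
  have hnorm1 : ‖(derivative p).eval 1‖ = n * (1 + b / (1 - c)) := by
    rw [hpd1]
    have : (n : ℂ) * (1 + (b : ℂ) / (1 - c)) = ((n * (1 + b / (1 - c)) : ℝ) : ℂ) := by
      push_cast
      ring
    rw [this, Complex.norm_real, Real.norm_of_nonneg (by positivity)]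
  have hnorm1' : 0 < ‖(derivative p).eval 1‖ := by
    rw [hnorm1]
    positivity
  have hd0 : derivative p ≠ 0 := by
    intro h
    rw [h, eval_zero, norm_zero] at hnorm1'
    exact lt_irrefl _ hnorm1'
  have hlc : (derivative p).leadingCoeff = n := by
    rw [leadingCoeff_derivative, hpm.leadingCoeff, hpd, one_mul]
  have hcard : (derivative p).roots.card = n - 1 := by
    rw [← (IsAlgClosed.splits (derivative p)).natDegree_eq_card_roots]
    rw [natDegree_derivative, hpd]
  -- critical points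
  have hcrit1 : ∀ w ∈ (derivative p).roots, ‖w‖ ≤ 1 := by
    intro w hw
    have hdeg : 0 < p.degree := by
      rw [← natDegree_pos_iff_degree_pos, hpd]
      exact hn0
    have h1 := rootSet_derivative_subset_convexHull_rootSet hdeg
    have h2 : w ∈ (derivative p).rootSet ℂ := by
      rw [mem_rootSet]
      refine ⟨hd0, ?_⟩
      rw [mem_roots hd0] at hw
      simpa using hw
    have h3 := h1 h2
    have h4 : (convexHull ℝ) (p.rootSet ℂ) ⊆ Metric.closedBall (0 : ℂ) 1 := by
      refine convexHull_min ?_ (convex_closedBall _ _)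
      intro z hz
      rw [mem_rootSet] at hz
      have : z ∈ p.roots := by
        rw [mem_roots hp0]
        simpa using hz.2
      simpa using hroots z this
    simpa using h4 h3
  have hcrit2 : ∀ w ∈ (derivative p).roots, ‖w‖ ^ 2 ≤ δ / n := by
    intro w hw
    have hw1 := hcrit1 w hw
    rw [mem_roots hd0, IsRoot.def, hp2] at hw
    have h1 : (n : ℂ) * w ^ (n - 1) = - (2 * b * (derivative (X * q)).eval w) := by
      rw [derivative_add, derivative_C_mul, eval_add, eval_mul, eval_C] at hw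
      simp only [derivative_sub, derivative_X_pow, derivative_one, sub_zero, eval_mul, eval_C,
        eval_pow, eval_X] at hw
      linear_combination hw
    have h2 : (n : ℝ) * ‖w‖ ^ (n - 1) ≤ n * ρ ^ (n - 1) := by
      calc (n : ℝ) * ‖w‖ ^ (n - 1) = ‖(n : ℂ) * w ^ (n - 1)‖ := by
            rw [norm_mul, norm_pow, Complex.norm_natCast]
        _ = 2 * b * ‖(derivative (X * q)).eval w‖ := by
            rw [h1, norm_neg, norm_mul, norm_mul, Complex.norm_real, Real.norm_of_nonneg hb0.le]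
            norm_num
        _ ≤ 2 * b * B := by
            gcongr
            exact hBb w hw1
        _ ≤ _ := hb2
    have h3 : ‖w‖ ^ (n - 1) ≤ ρ ^ (n - 1) := le_of_mul_le_mul_left h2 hnR
    have h4 : ‖w‖ ≤ ρ := (pow_le_pow_iff_left₀ (norm_nonneg w) hρ0.le (by omega)).1 h3
    calc ‖w‖ ^ 2 ≤ ρ ^ 2 := by gcongr
      _ ≤ _ := hρ2
  refine ⟨p, hpd, hpm, hroots, ?_, ?_, ?_, ?_⟩
  · rw [mem_roots hp0]
    exact hp1
  · rw [mem_roots hd0, IsRoot.def]
    intro h
    rw [h, norm_zero] at hnorm1'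
    exact lt_irrefl _ hnorm1'
  · have h1 := Multiset.sum_le_card_nsmul ((derivative p).roots.map (fun w : ℂ => ‖w‖ ^ 2)) (δ / n)
      (by
        intro x hx
        obtain ⟨w, hw, rfl⟩ := Multiset.mem_map.1 hx
        exact hcrit2 w hw)
    refine h1.trans ?_
    rw [Multiset.card_map, hcard, nsmul_eq_mul]
    have h2 : ((n - 1 : ℕ) : ℝ) ≤ n := by exact_mod_cast Nat.sub_le n 1
    calc ((n - 1 : ℕ) : ℝ) * (δ / n) ≤ n * (δ / n) := by gcongr
      _ = δ := by field_simp
  · have h1 := (IsAlgClosed.splits (derivative p)).eval_eq_prod_roots 1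
    have h2 := congrArg norm h1
    rw [hnorm1, norm_mul, hlc, Complex.norm_natCast] at h2
    have h3 := mul_left_cancel₀ hnR.ne' h2
    have h4 : ‖((derivative p).roots.map (fun w : ℂ => 1 - w)).prod‖ =
        ((derivative p).roots.map (fun w : ℂ => ‖w - 1‖)).prod := by
      have e : ∀ s : Multiset ℂ, ‖(s.map (fun w : ℂ => 1 - w)).prod‖ =
          (s.map (fun w : ℂ => ‖w - 1‖)).prod := by
        intro s
        induction s using Multiset.induction_on with
        | empty => simp
        | cons a s ih => rw [Multiset.map_cons, Multiset.map_cons, Multiset.prod_cons,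
            Multiset.prod_cons, norm_mul, ih, norm_sub_rev]
      exact e _
    rw [← h4, ← h3]
    exact h1b

end Pool.Agent.H957.SE.Geo
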