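import Pool.Agent.H957.SE.Stm

set_option autoImplicit false

/-!
# The local theorem `StLoc` from `StInt`, `StCen`, `StSum`, `StTerm`
-/

open Polynomial MeasureTheory

namespace Pool.Agent.H957.SE.Loc

open Pool.Agent.H957.SE

lemma norm_le_rho {N : ℕ} (w : Fin N → ℂ) (k : Fin N) :
    ‖w k‖ ≤ Real.sqrt (∑ k, ‖w k‖ ^ 2) := by
  apply Real.le_sqrt_of_sq_le
  exact Finset.single_le_sum (f := fun k => ‖w k‖ ^ 2) (fun i _ => sq_nonneg _) (Finset.mem_univ k)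

lemma norm_e1_le {N : ℕ} (w : Fin N → ℂ) {ρ : ℝ} (h : ∀ k, ‖w k‖ ≤ ρ) : ‖e1 w‖ ≤ N * ρ := by
  unfold e1
  refine (norm_sum_le _ _).trans ?_
  refine (Finset.sum_le_sum fun k _ => h k).trans ?_
  simp

lemma norm_sq_le {N : ℕ} (w : Fin N → ℂ) : ‖∑ k, (w k) ^ 2‖ ≤ ∑ k, ‖w k‖ ^ 2 := by
  refine (norm_sum_le _ _).trans ?_
  simp

lemma norm_e2_le {N : ℕ} (hN : 1 ≤ N) (w : Fin N → ℂ) {ρ : ℝ} (h0 : 0 ≤ ρ) (h : ∀ k, ‖w k‖ ≤ ρ)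
    (hρ : ∑ k, ‖w k‖ ^ 2 = ρ ^ 2) : ‖e2 w‖ ≤ N ^ 2 * ρ ^ 2 := by
  unfold e2
  rw [norm_div]
  have h1 : ‖(∑ k, w k) ^ 2 - ∑ k, (w k) ^ 2‖ ≤ (N * ρ) ^ 2 + ρ ^ 2 := by
    refine (norm_sub_le _ _).trans ?_
    refine add_le_add ?_ ?_
    · rw [norm_pow]
      exact pow_le_pow_left₀ (norm_nonneg _) (norm_e1_le w h) 2
    · rw [← hρ]; exact norm_sq_le w
  have h2 : ‖(2 : ℂ)‖ = 2 := by simp
  rw [h2]
  have hN' : (1 : ℝ) ≤ N := by exact_mod_cast hN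
  have h3 : ρ ^ 2 ≤ N ^ 2 * ρ ^ 2 := by
    have : (1:ℝ) ≤ N ^ 2 := by nlinarith
    nlinarith [sq_nonneg ρ]
  rw [div_le_iff₀ (by norm_num)]
  linarith

/-- lower bound for `Re e1`: the real part of the computation -/
lemma re_e1_lower {N1 ε κ E R2 ρ K1 aN2 aN1 am : ℝ} (hN1 : 1 ≤ N1) (hε : 0 ≤ ε) (hρ : 0 ≤ ρ)
    (hρ1 : ρ ≤ 1) (hK1 : 0 ≤ K1)
    (h1 : aN2 - (N1 + 2) / (N1 + 1) * E * aN1 + (N1 + 2) / N1 * R2 * am - K1 * ρ ^ 3 ≤ 1 - κ)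
    (ha2 : 1 - (N1 + 1) * ε ≤ aN2) (ha1 : 0 ≤ 1 - aN1) (ha1' : 1 - aN1 ≤ N1 * ε)
    (ha0 : 0 ≤ 1 - am) (ha0' : 1 - am ≤ (N1 + 1) * ε)
    (hE : |E| ≤ (N1 + 1) * ρ) (hR : |R2| ≤ (N1 + 1) ^ 2 * ρ ^ 2) :
    (N1 + 1) / (N1 + 2) * κ - (N1 + 1) ^ 2 / (N1 + 2) * ε + (N1 + 1) / N1 * R2
      - ((N1 + 1) ^ 2 + 2 * (N1 + 1) ^ 3 + K1) * (ε * ρ + ρ ^ 3) ≤ E := by
  have hN0 : 0 < N1 := by linarith
  have e1 : E * aN1 ≤ E + (N1 + 1) * ρ * (N1 * ε) := by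
    have h2 : -E * (1 - aN1) ≤ |E| * (1 - aN1) :=
      mul_le_mul_of_nonneg_right (neg_le_abs E) ha1
    have h3 : |E| * (1 - aN1) ≤ ((N1 + 1) * ρ) * (N1 * ε) :=
      mul_le_mul hE ha1' ha1 (by positivity)
    linarith
  have e2 : R2 - (N1 + 1) ^ 2 * ρ ^ 2 * ((N1 + 1) * ε) ≤ R2 * am := by
    have h2 : R2 * (1 - am) ≤ |R2| * (1 - am) :=
      mul_le_mul_of_nonneg_right (le_abs_self R2) ha0
    have h3 : |R2| * (1 - am) ≤ ((N1 + 1) ^ 2 * ρ ^ 2) * ((N1 + 1) * ε) :=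
      mul_le_mul hR ha0' ha0 (by positivity)
    linarith
  have hc : 0 < (N1 + 1) / (N1 + 2) := by positivity
  have hc1 : (N1 + 1) / (N1 + 2) ≤ 1 := by
    rw [div_le_one (by linarith)]; linarith
  have hd : 0 < (N1 + 1) / N1 := by positivity
  have hd1 : (N1 + 1) / N1 ≤ 2 := by
    rw [div_le_iff₀ hN0]; linarith
  have e3 : (N1 + 2) / (N1 + 1) * (E * aN1) ≤
      (N1 + 2) / (N1 + 1) * (E + (N1 + 1) * ρ * (N1 * ε)) :=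
    mul_le_mul_of_nonneg_left e1 (by positivity)
  have e4 : (N1 + 2) / N1 * (R2 - (N1 + 1) ^ 2 * ρ ^ 2 * ((N1 + 1) * ε)) ≤
      (N1 + 2) / N1 * (R2 * am) :=
    mul_le_mul_of_nonneg_left e2 (by positivity)
  have e5 : κ - (N1 + 1) * ε + (N1 + 2) / N1 * (R2 - (N1 + 1) ^ 2 * ρ ^ 2 * ((N1 + 1) * ε))
      - K1 * ρ ^ 3 ≤ (N1 + 2) / (N1 + 1) * (E + (N1 + 1) * ρ * (N1 * ε)) := by
    linarith
  have e6 := mul_le_mul_of_nonneg_left e5 hc.le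
  have i1 : (N1 + 1) / (N1 + 2) * ((N1 + 2) / (N1 + 1) * (E + (N1 + 1) * ρ * (N1 * ε))) =
      E + (N1 + 1) * ρ * (N1 * ε) := by
    field_simp
  have i2 : (N1 + 1) / (N1 + 2) * (κ - (N1 + 1) * ε
      + (N1 + 2) / N1 * (R2 - (N1 + 1) ^ 2 * ρ ^ 2 * ((N1 + 1) * ε)) - K1 * ρ ^ 3) =
      (N1 + 1) / (N1 + 2) * κ - (N1 + 1) ^ 2 / (N1 + 2) * ε + (N1 + 1) / N1 * R2
      - (N1 + 1) / N1 * ((N1 + 1) ^ 3 * ρ ^ 2 * ε) - (N1 + 1) / (N1 + 2) * (K1 * ρ ^ 3) := by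
    field_simp
    ring
  rw [i1, i2] at e6
  have e7 : (N1 + 1) / N1 * ((N1 + 1) ^ 3 * ρ ^ 2 * ε) ≤ 2 * (N1 + 1) ^ 3 * (ε * ρ) := by
    have h2 : (N1 + 1) ^ 3 * ρ ^ 2 * ε ≤ (N1 + 1) ^ 3 * (ε * ρ) := by
      have h3 : ρ ^ 2 * ε ≤ ε * ρ := by
        have h31 : ρ ^ 2 ≤ ρ := by nlinarith
        have h32 := mul_le_mul_of_nonneg_right h31 hε
        linarith
      have h4 : 0 ≤ (N1 + 1) ^ 3 := by positivity
      have h41 := mul_le_mul_of_nonneg_left h3 h4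
      linarith
    have h5 : 0 ≤ (N1 + 1) ^ 3 * ρ ^ 2 * ε := by positivity
    have h6 : (N1 + 1) / N1 * ((N1 + 1) ^ 3 * ρ ^ 2 * ε) ≤ 2 * ((N1 + 1) ^ 3 * ρ ^ 2 * ε) :=
      mul_le_mul_of_nonneg_right hd1 h5
    linarith
  have e8 : (N1 + 1) / (N1 + 2) * (K1 * ρ ^ 3) ≤ K1 * ρ ^ 3 := by
    have h5 : 0 ≤ K1 * ρ ^ 3 := by positivity
    calc (N1 + 1) / (N1 + 2) * (K1 * ρ ^ 3) ≤ 1 * (K1 * ρ ^ 3) :=
          mul_le_mul_of_nonneg_right hc1 h5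
      _ = K1 * ρ ^ 3 := one_mul _
  have e9 : (N1 + 1) * ρ * (N1 * ε) ≤ (N1 + 1) ^ 2 * (ε * ρ) := by
    have : 0 ≤ ε * ρ := by positivity
    nlinarith
  have e10 : 0 ≤ ((N1 + 1) ^ 2 + 2 * (N1 + 1) ^ 3) * ρ ^ 3 + K1 * (ε * ρ) := by positivity
  linarith

/-- the final estimate: the real part of the computation -/
lemma final_real {N1 s ε κ E R2 e1sq q U V ρ C1 K2 B T δ : ℝ} (hN1 : 1 ≤ N1) (hs : 0 < s)
    (hs2 : s ≤ 2) (hsN : 1 < s * N1) (hε : 0 ≤ ε) (hκ : 0 ≤ κ) (hρ : 0 ≤ ρ)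
    (hC1 : 0 ≤ C1) (hK2 : 0 ≤ K2)
    (hE : (N1 + 1) / (N1 + 2) * κ - (N1 + 1) ^ 2 / (N1 + 2) * ε + (N1 + 1) / N1 * R2
      - C1 * (ε * ρ + ρ ^ 3) ≤ E)
    (hR2 : R2 = (e1sq - q) / 2) (hq : q = U - V) (hUV : U + V = ρ ^ 2) (hU : 0 ≤ U) (hV : 0 ≤ V)
    (he1 : -B ^ 2 ≤ e1sq) (hB0 : 0 ≤ B) (hB1 : B ≤ (N1 + 1) * ρ)
    (hB2 : B ≤ 3 * ε + 4 * (N1 + 1) * κ + 4 * (N1 + 2) * ρ ^ 2)
    (hT : (N1 + 1) + s * (N1 + 1) * ε + s * E + s / 2 * q + s ^ 2 / 2 * U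
      - K2 * (ρ ^ 3 + (N1 + 1) * (ε * ρ) + (N1 + 1) * ε ^ 2) ≤ T)
    (hδε : ε ≤ δ) (hδρ : ρ ≤ (N1 + 1) * δ) (hδ0 : 0 ≤ δ)
    (hδ1 : 8 * (N1 + 1) ^ 3 * δ ≤ s * ((N1 + 1) / (N1 + 2)))
    (hδ2 : (2 * C1 + K2 * (N1 + 1) + 6 * (N1 + 1) + 8 * (N1 + 1) * (N1 + 2)) * (N1 + 2) * δ ≤
      s * ((N1 + 1) / (N1 + 2)) / 2)
    (hδ3 : (2 * C1 + K2 * (N1 + 1) + 6 * (N1 + 1) + 8 * (N1 + 1) * (N1 + 2)) * (N1 + 1) * δ ≤
      min (s ^ 2 / 2 - s / (2 * N1)) (s / (2 * N1)) / 2) :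
    (N1 + 1) + min (s * ((N1 + 1) / (N1 + 2)) / 2)
      (min (s ^ 2 / 2 - s / (2 * N1)) (s / (2 * N1)) / 2) * (ε + ρ ^ 2) ≤ T := by
  have hN0 : 0 < N1 := by linarith
  set c2 : ℝ := min (s ^ 2 / 2 - s / (2 * N1)) (s / (2 * N1)) with hc2
  set c1 : ℝ := s * ((N1 + 1) / (N1 + 2)) with hc1
  set C3 : ℝ := 2 * C1 + K2 * (N1 + 1) + 6 * (N1 + 1) + 8 * (N1 + 1) * (N1 + 2) with hC3
  have hc2pos : 0 < c2 := by
    rw [hc2]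
    apply lt_min
    · have : s / (2 * N1) < s ^ 2 / 2 := by
        rw [div_lt_iff₀ (by positivity)]
        nlinarith
      linarith
    · positivity
  have hc1pos : 0 < c1 := by rw [hc1]; positivity
  have hC3pos : 0 ≤ C3 := by rw [hC3]; positivity
  have f1 : c2 * ρ ^ 2 ≤ -(s / (2 * N1)) * q + s ^ 2 / 2 * U := by
    have g1 : c2 * U ≤ (s ^ 2 / 2 - s / (2 * N1)) * U :=
      mul_le_mul_of_nonneg_right (min_le_left _ _) hU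
    have g2 : c2 * V ≤ (s / (2 * N1)) * V := mul_le_mul_of_nonneg_right (min_le_right _ _) hV
    rw [← hUV, hq]
    linarith
  have f2 : B ^ 2 ≤ (N1 + 1) * ρ * (3 * ε + 4 * (N1 + 1) * κ + 4 * (N1 + 2) * ρ ^ 2) := by
    rw [sq]
    exact mul_le_mul hB1 hB2 hB0 (by positivity)
  have hd : 0 < (N1 + 1) / N1 := by positivity
  have hd1 : (N1 + 1) / N1 ≤ 2 := by
    rw [div_le_iff₀ hN0]; linarith
  have f3 : -(2 * ((N1 + 1) * ρ * (3 * ε + 4 * (N1 + 1) * κ + 4 * (N1 + 2) * ρ ^ 2))) ≤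
      s * ((N1 + 1) / N1) / 2 * e1sq := by
    have g0 : 0 ≤ s * ((N1 + 1) / N1) / 2 := by positivity
    have g1 : s * ((N1 + 1) / N1) / 2 ≤ 2 := by
      have g11 : s * ((N1 + 1) / N1) ≤ 2 * 2 := mul_le_mul hs2 hd1 hd.le (by norm_num)
      linarith
    have g2 : s * ((N1 + 1) / N1) / 2 * (-B ^ 2) ≤ s * ((N1 + 1) / N1) / 2 * e1sq :=
      mul_le_mul_of_nonneg_left he1 g0
    have g3 : s * ((N1 + 1) / N1) / 2 * B ^ 2 ≤ 2 * B ^ 2 :=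
      mul_le_mul_of_nonneg_right g1 (sq_nonneg _)
    have g4 : s * ((N1 + 1) / N1) / 2 * (-B ^ 2) = -(s * ((N1 + 1) / N1) / 2 * B ^ 2) := by ring
    linarith
  have f4 : s * ((N1 + 1) / (N1 + 2) * κ - (N1 + 1) ^ 2 / (N1 + 2) * ε + (N1 + 1) / N1 * R2
      - C1 * (ε * ρ + ρ ^ 3)) ≤ s * E := mul_le_mul_of_nonneg_left hE hs.le
  have i1 : s * (N1 + 1) * ε + s * ((N1 + 1) / (N1 + 2) * κ - (N1 + 1) ^ 2 / (N1 + 2) * ε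
      + (N1 + 1) / N1 * R2 - C1 * (ε * ρ + ρ ^ 3)) + s / 2 * q =
      c1 * ε + c1 * κ + s * ((N1 + 1) / N1) / 2 * e1sq - (s / (2 * N1)) * q
        - s * C1 * (ε * ρ + ρ ^ 3) := by
    rw [hc1, hR2]
    field_simp
    ring
  have hερ : 0 ≤ ε * ρ := by positivity
  have hρ3 : 0 ≤ ρ ^ 3 := by positivity
  have f5 : s * C1 * (ε * ρ + ρ ^ 3) ≤ 2 * C1 * (ε * ρ + ρ ^ 3) := by
    apply mul_le_mul_of_nonneg_right _ (by positivity)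
    exact mul_le_mul_of_nonneg_right hs2 hC1
  -- collect
  have f6 : (N1 + 1) + c1 * ε + (c1 - 8 * (N1 + 1) ^ 2 * ρ) * κ + c2 * ρ ^ 2
      - C3 * (ε * ρ + ρ ^ 3 + ε ^ 2) ≤ T := by
    have g1 : K2 * (ρ ^ 3 + (N1 + 1) * (ε * ρ) + (N1 + 1) * ε ^ 2) ≤
        K2 * (N1 + 1) * (ε * ρ + ρ ^ 3 + ε ^ 2) := by
      have : ρ ^ 3 ≤ (N1 + 1) * ρ ^ 3 := by nlinarith
      have := mul_le_mul_of_nonneg_left this hK2
      linarith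
    have g2 : 0 ≤ C1 * ε ^ 2 := by positivity
    have g3 : 0 ≤ (N1 + 1) * ρ ^ 3 := by positivity
    have g4 : 0 ≤ (N1 + 1) * ε ^ 2 := by positivity
    have g5 : 0 ≤ (N1 + 1) * (N1 + 2) * (ε * ρ) := by positivity
    have g6 : 0 ≤ (N1 + 1) * (N1 + 2) * ε ^ 2 := by positivity
    have j1 : C3 * (ε * ρ + ρ ^ 3 + ε ^ 2) = 2 * C1 * (ε * ρ + ρ ^ 3) + 2 * (C1 * ε ^ 2)
        + K2 * (N1 + 1) * (ε * ρ + ρ ^ 3 + ε ^ 2)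
        + 6 * (N1 + 1) * (ε * ρ) + 6 * ((N1 + 1) * ρ ^ 3) + 6 * ((N1 + 1) * ε ^ 2)
        + 8 * ((N1 + 1) * (N1 + 2) * (ε * ρ)) + 8 * (N1 + 1) * (N1 + 2) * ρ ^ 3
        + 8 * ((N1 + 1) * (N1 + 2) * ε ^ 2) := by
      rw [hC3]; ring
    have j2 : 2 * ((N1 + 1) * ρ * (3 * ε + 4 * (N1 + 1) * κ + 4 * (N1 + 2) * ρ ^ 2)) =
        6 * (N1 + 1) * (ε * ρ) + 8 * (N1 + 1) ^ 2 * ρ * κ + 8 * (N1 + 1) * (N1 + 2) * ρ ^ 3 := by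
      ring
    rw [j2] at f3
    rw [j1]
    linarith
  have f7 : 0 ≤ (c1 - 8 * (N1 + 1) ^ 2 * ρ) * κ := by
    apply mul_nonneg _ hκ
    have : 8 * (N1 + 1) ^ 2 * ρ ≤ 8 * (N1 + 1) ^ 2 * ((N1 + 1) * δ) :=
      mul_le_mul_of_nonneg_left hδρ (by positivity)
    have h2 : 8 * (N1 + 1) ^ 2 * ((N1 + 1) * δ) = 8 * (N1 + 1) ^ 3 * δ := by ring
    linarith
  have f8 : C3 * (ε * ρ + ε ^ 2) ≤ c1 / 2 * ε := by
    have g1 : ε * ρ + ε ^ 2 ≤ ε * ((N1 + 2) * δ) := by nlinarith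
    have g2 : C3 * (ε * ρ + ε ^ 2) ≤ C3 * (ε * ((N1 + 2) * δ)) :=
      mul_le_mul_of_nonneg_left g1 hC3pos
    have g3 : C3 * (N1 + 2) * δ * ε ≤ c1 / 2 * ε := mul_le_mul_of_nonneg_right hδ2 hε
    linarith
  have f9 : C3 * ρ ^ 3 ≤ c2 / 2 * ρ ^ 2 := by
    have g1 : ρ ^ 3 ≤ ρ ^ 2 * ((N1 + 1) * δ) := by
      have : ρ ^ 3 = ρ ^ 2 * ρ := by ring
      rw [this]
      exact mul_le_mul_of_nonneg_left hδρ (sq_nonneg _)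
    have g2 : C3 * ρ ^ 3 ≤ C3 * (ρ ^ 2 * ((N1 + 1) * δ)) := mul_le_mul_of_nonneg_left g1 hC3pos
    have g3 : C3 * (N1 + 1) * δ * ρ ^ 2 ≤ c2 / 2 * ρ ^ 2 :=
      mul_le_mul_of_nonneg_right hδ3 (sq_nonneg _)
    linarith
  have f10 : min (c1 / 2) (c2 / 2) * (ε + ρ ^ 2) ≤ c1 / 2 * ε + c2 / 2 * ρ ^ 2 := by
    have g1 : min (c1 / 2) (c2 / 2) * ε ≤ c1 / 2 * ε :=
      mul_le_mul_of_nonneg_right (min_le_left _ _) hε
    have g2 : min (c1 / 2) (c2 / 2) * ρ ^ 2 ≤ c2 / 2 * ρ ^ 2 :=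
      mul_le_mul_of_nonneg_right (min_le_right _ _) (sq_nonneg _)
    linarith
  linarith

lemma re_main (m : ℕ) (a : ℝ) (x y : ℂ) :
    ((a : ℂ) ^ (m + 2) - (m + 3) / (m + 2) * x * (a : ℂ) ^ (m + 1)
      + (m + 3) / (m + 1) * y * (a : ℂ) ^ m).re =
    a ^ (m + 2) - ((m : ℝ) + 3) / (m + 2) * x.re * a ^ (m + 1)
      + ((m : ℝ) + 3) / (m + 1) * y.re * a ^ m := by
  have h1 : ((m : ℂ) + 3) / (m + 2) = ((((m : ℝ) + 3) / (m + 2) : ℝ) : ℂ) := by push_cast; rfl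
  have h2 : ((m : ℂ) + 3) / (m + 1) = ((((m : ℝ) + 3) / (m + 1) : ℝ) : ℂ) := by push_cast; rfl
  rw [h1, h2, ← Complex.ofReal_pow, ← Complex.ofReal_pow, ← Complex.ofReal_pow]
  rw [Complex.add_re, Complex.sub_re, Complex.ofReal_re, Complex.re_mul_ofReal,
    Complex.re_mul_ofReal, Complex.re_ofReal_mul, Complex.re_ofReal_mul]

lemma rho_le {N : ℕ} (hN : 1 ≤ N) (w : Fin N → ℂ) {δ : ℝ} (hδ : 0 ≤ δ) (h : ∀ k, ‖w k‖ ≤ δ) :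
    Real.sqrt (∑ k, ‖w k‖ ^ 2) ≤ N * δ := by
  have hN' : (1 : ℝ) ≤ N := by exact_mod_cast hN
  rw [Real.sqrt_le_left (by positivity)]
  have h1 : ∑ k, ‖w k‖ ^ 2 ≤ ∑ _k : Fin N, δ ^ 2 :=
    Finset.sum_le_sum fun k _ => pow_le_pow_left₀ (norm_nonneg _) (h k) 2
  refine h1.trans ?_
  simp only [Finset.sum_const, Finset.card_univ, Fintype.card_fin, nsmul_eq_mul]
  have : (N : ℝ) ≤ N ^ 2 := by nlinarith
  nlinarith [mul_le_mul_of_nonneg_right this (sq_nonneg δ)]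

lemma sum_term {m : ℕ} {K2 s ε ρ : ℝ} (w : Fin (m + 2) → ℂ) (T : Fin (m + 2) → ℝ) (hK2 : 0 ≤ K2)
    (hε : 0 ≤ ε) (hw : ∀ k, ‖w k‖ ≤ ρ) (hρ : ∑ k, ‖w k‖ ^ 2 = ρ ^ 2)
    (h : ∀ k, 1 + s * ε + s * (w k).re + s / 2 * ((w k) ^ 2).re + s ^ 2 / 2 * (w k).re ^ 2
      - K2 * (‖w k‖ ^ 3 + ε * ‖w k‖ + ε ^ 2) ≤ T k) :
    ((m : ℝ) + 1 + 1) + s * ((m : ℝ) + 1 + 1) * ε + s * (e1 w).re
      + s / 2 * (∑ k, (w k) ^ 2).re + s ^ 2 / 2 * (∑ k, (w k).re ^ 2)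
      - K2 * (ρ ^ 3 + ((m : ℝ) + 1 + 1) * (ε * ρ) + ((m : ℝ) + 1 + 1) * ε ^ 2) ≤ ∑ k, T k := by
  have h1 : ∀ k, 1 + s * ε + s * (w k).re + s / 2 * ((w k) ^ 2).re + s ^ 2 / 2 * (w k).re ^ 2
      - K2 * (ρ * ‖w k‖ ^ 2 + ε * ρ + ε ^ 2) ≤ T k := by
    intro k
    refine le_trans ?_ (h k)
    have g1 : ‖w k‖ ^ 3 ≤ ρ * ‖w k‖ ^ 2 := by
      have : ‖w k‖ ^ 3 = ‖w k‖ * ‖w k‖ ^ 2 := by ring
      rw [this]
      exact mul_le_mul_of_nonneg_right (hw k) (sq_nonneg _)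
    have g2 : ε * ‖w k‖ ≤ ε * ρ := mul_le_mul_of_nonneg_left (hw k) hε
    have g3 : K2 * (‖w k‖ ^ 3 + ε * ‖w k‖ + ε ^ 2) ≤ K2 * (ρ * ‖w k‖ ^ 2 + ε * ρ + ε ^ 2) :=
      mul_le_mul_of_nonneg_left (by linarith) hK2
    linarith
  have h2 := Finset.sum_le_sum fun k (_ : k ∈ Finset.univ) => h1 k
  refine le_trans (le_of_eq ?_) h2
  simp only [Finset.sum_add_distrib, Finset.sum_sub_distrib, ← Finset.mul_sum, Finset.sum_const,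
    Finset.card_univ, Fintype.card_fin, nsmul_eq_mul, e1, Complex.re_sum]
  rw [hρ]
  push_cast
  ring

lemma re_sum_sq {N : ℕ} (w : Fin N → ℂ) :
    (∑ k, (w k) ^ 2).re = ∑ k, (w k).re ^ 2 - ∑ k, (w k).im ^ 2 := by
  rw [Complex.re_sum, ← Finset.sum_sub_distrib]
  refine Finset.sum_congr rfl fun k _ => ?_
  rw [sq, Complex.mul_re]; ring

lemma sum_norm_sq {N : ℕ} (w : Fin N → ℂ) :
    ∑ k, ‖w k‖ ^ 2 = ∑ k, (w k).re ^ 2 + ∑ k, (w k).im ^ 2 := by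
  rw [← Finset.sum_add_distrib]
  refine Finset.sum_congr rfl fun k _ => ?_
  rw [← Complex.normSq_eq_norm_sq, Complex.normSq_apply]; ring

theorem loc (hI : StInt) (hC : StCen) (hS : StSum) (hT : StTerm) : StLoc := by
  intro m s hs hsm hs2
  obtain ⟨K1, hK1, hI⟩ := hI m
  obtain ⟨K2, hK2, hT⟩ := hT
  obtain ⟨N1, hN1⟩ : ∃ N1 : ℝ, N1 = (m : ℝ) + 1 := ⟨_, rfl⟩
  have hm0 : (0 : ℝ) ≤ m := Nat.cast_nonneg m
  have hN1' : 1 ≤ N1 := by linarith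
  have hN0 : 0 < N1 := by linarith
  obtain ⟨C1, hC1⟩ : ∃ C1 : ℝ, C1 = (N1 + 1) ^ 2 + 2 * (N1 + 1) ^ 3 + K1 := ⟨_, rfl⟩
  have hC1' : 0 ≤ C1 := by rw [hC1]; positivity
  obtain ⟨C3, hC3⟩ : ∃ C3 : ℝ, C3 = 2 * C1 + K2 * (N1 + 1) + 6 * (N1 + 1) + 8 * (N1 + 1) * (N1 + 2) :=
    ⟨_, rfl⟩
  have hC3' : 0 < C3 := by rw [hC3]; positivity
  obtain ⟨c1, hc1⟩ : ∃ c1 : ℝ, c1 = s * ((N1 + 1) / (N1 + 2)) := ⟨_, rfl⟩
  have hc1' : 0 < c1 := by rw [hc1]; positivity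
  obtain ⟨c2, hc2⟩ : ∃ c2 : ℝ, c2 = min (s ^ 2 / 2 - s / (2 * N1)) (s / (2 * N1)) := ⟨_, rfl⟩
  have hc2' : 0 < c2 := by
    rw [hc2]
    apply lt_min
    · have : s / (2 * N1) < s ^ 2 / 2 := by
        rw [div_lt_iff₀ (by positivity)]
        rw [← hN1] at hsm
        nlinarith
      linarith
    · positivity
  obtain ⟨δ, hδ0, hδ1, hδ2, hδ3, hδ4⟩ : ∃ δ : ℝ, 0 < δ ∧ 8 * (N1 + 1) ^ 3 * δ ≤ c1 ∧
      C3 * (N1 + 2) * δ ≤ c1 / 2 ∧ C3 * (N1 + 1) * δ ≤ c2 / 2 ∧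
      2 * (6 + K1) * (N1 + 1) ^ 3 * δ ≤ 1 := by
    refine ⟨min (min (c1 / (8 * (N1 + 1) ^ 3)) ((c1 / 2) / (C3 * (N1 + 2))))
      (min ((c2 / 2) / (C3 * (N1 + 1))) (1 / (2 * (6 + K1) * (N1 + 1) ^ 3))), ?_, ?_, ?_, ?_, ?_⟩
    · positivity
    · rw [← le_div_iff₀' (by positivity)]
      exact (min_le_left _ _).trans (min_le_left _ _)
    · rw [← le_div_iff₀' (by positivity)]
      exact (min_le_left _ _).trans (min_le_right _ _)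
    · rw [← le_div_iff₀' (by positivity)]
      exact (min_le_right _ _).trans (min_le_left _ _)
    · rw [← le_div_iff₀' (by positivity)]
      exact (min_le_right _ _).trans (min_le_right _ _)
  refine ⟨δ, min (c1 / 2) (c2 / 2), hδ0, lt_min (by positivity) (by positivity), ?_⟩
  intro a z w ha0 ha1 hz hcrit hw
  -- sizes
  have hN3 : 8 ≤ (N1 + 1) ^ 3 := by
    have : (2:ℝ) ^ 3 ≤ (N1 + 1) ^ 3 := pow_le_pow_left₀ (by norm_num) (by linarith) 3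
    linarith
  have hN31 : N1 + 1 ≤ (N1 + 1) ^ 3 := by
    have h1 : (1 : ℝ) ≤ (N1 + 1) ^ 2 := one_le_pow₀ (by linarith)
    have h2 : (N1 + 1) ^ 3 = (N1 + 1) * (N1 + 1) ^ 2 := by ring
    rw [h2]
    exact le_mul_of_one_le_right (by linarith) h1
  have hN32 : (N1 + 1) ^ 2 ≤ (N1 + 1) ^ 3 := pow_le_pow_right₀ (by linarith) (by norm_num)
  have hK1N : 0 ≤ K1 * (N1 + 1) ^ 3 * δ := by positivity
  have hN3δ : 12 * ((N1 + 1) ^ 3 * δ) ≤ 1 := by nlinarith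
  have hN1δ : (N1 + 1) * δ ≤ (N1 + 1) ^ 3 * δ := mul_le_mul_of_nonneg_right hN31 hδ0.le
  have hN2δ : (N1 + 1) ^ 2 * δ ≤ (N1 + 1) ^ 3 * δ := mul_le_mul_of_nonneg_right hN32 hδ0.le
  have hδ8 : δ ≤ 1 / 8 := by
    have : 8 * δ ≤ (N1 + 1) ^ 3 * δ := mul_le_mul_of_nonneg_right hN3 hδ0.le
    linarith
  obtain ⟨ε, hε⟩ : ∃ ε : ℝ, ε = 1 - a := ⟨_, rfl⟩
  have hε0 : 0 ≤ ε := by linarith
  have hεδ : ε ≤ δ := by linarith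
  obtain ⟨ρ, hρ⟩ : ∃ ρ : ℝ, ρ = Real.sqrt (∑ k, ‖w k‖ ^ 2) := ⟨_, rfl⟩
  have hρ0 : 0 ≤ ρ := by rw [hρ]; exact Real.sqrt_nonneg _
  have hρsq : ∑ k, ‖w k‖ ^ 2 = ρ ^ 2 := by
    rw [hρ, Real.sq_sqrt (Finset.sum_nonneg fun _ _ => sq_nonneg _)]
  have hρk : ∀ k, ‖w k‖ ≤ ρ := by
    intro k; rw [hρ]; exact norm_le_rho w k
  have hρδ : ρ ≤ (N1 + 1) * δ := by
    have := rho_le (by omega) w hδ0.le hw
    rw [← hρ] at this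
    push_cast at this
    rw [hN1]
    linarith
  have hρ1 : ρ ≤ 1 := by linarith
  have hapos : 0 < a := by linarith
  have ha' : 0 ≤ a := hapos.le
  -- the product
  obtain ⟨κ, hκ⟩ : ∃ κ : ℝ, κ = 1 - ∏ j, ‖z j‖ := ⟨_, rfl⟩
  have hκ0 : 0 ≤ κ := by
    have : ∏ j, ‖z j‖ ≤ 1 := Finset.prod_le_one (fun _ _ => norm_nonneg _) fun j _ => hz j
    linarith
  have hI' := hI w ρ hρ0 hρ1 hρk a ha' ha1
  have hC' := hC (m + 2) a hapos z w hcrit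
  have hmain : a ^ (m + 2) - (N1 + 2) / (N1 + 1) * (e1 w).re * a ^ (m + 1)
      + (N1 + 2) / N1 * (e2 w).re * a ^ m - K1 * ρ ^ 3 ≤ 1 - κ := by
    have h1 := re_main m a (e1 w) (e2 w)
    have h2 := Complex.abs_re_le_norm (A a w - ((a : ℂ) ^ (m + 2)
      - (m + 3) / (m + 2) * e1 w * (a : ℂ) ^ (m + 1) + (m + 3) / (m + 1) * e2 w * (a : ℂ) ^ m))
    rw [Complex.sub_re, h1] at h2
    have h3 := (abs_le.1 (h2.trans hI')).1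
    have h4 : (A a w).re ≤ ‖A a w‖ := Complex.re_le_norm _
    rw [hC'] at h4
    have h5 : N1 + 2 = (m : ℝ) + 3 := by linarith
    have h6 : N1 + 1 = (m : ℝ) + 2 := by linarith
    rw [h5, h6, hN1]
    linarith
  -- the powers of a
  have hpow : ∀ k : ℕ, 1 - (k : ℝ) * ε ≤ a ^ k := by
    intro k
    have h1 := one_add_mul_le_pow (a := -ε) (by linarith) k
    have h2 : 1 + -ε = a := by linarith
    rw [h2] at h1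
    linarith
  have hpow1 : ∀ k : ℕ, a ^ k ≤ 1 := fun k => pow_le_one₀ ha' ha1
  have hpow0 : ∀ k : ℕ, 0 ≤ a ^ k := fun k => pow_nonneg ha' k
  have p2 := hpow (m + 2)
  have p1 := hpow (m + 1)
  have p0 := hpow m
  push_cast at p2 p1
  have hE : |(e1 w).re| ≤ (N1 + 1) * ρ := by
    refine (Complex.abs_re_le_norm _).trans ?_
    have := norm_e1_le w hρk
    push_cast at this
    rw [hN1]
    linarith
  have hR : |(e2 w).re| ≤ (N1 + 1) ^ 2 * ρ ^ 2 := by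
    refine (Complex.abs_re_le_norm _).trans ?_
    have := norm_e2_le (by omega) w hρ0 hρk hρsq
    push_cast at this
    have h6 : N1 + 1 = (m : ℝ) + 2 := by linarith
    rw [h6]
    exact this
  -- the product is at least one half
  have hκ2 : κ ≤ 1 / 2 := by
    have hx : (N1 + 2) / (N1 + 1) ≤ 2 := by
      rw [div_le_iff₀ (by positivity)]; linarith
    have hy : (N1 + 2) / N1 ≤ 3 := by
      rw [div_le_iff₀ (by positivity)]; linarith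
    have g1 : (N1 + 2) / (N1 + 1) * (e1 w).re * a ^ (m + 1) ≤ 2 * ((N1 + 1) * ρ) := by
      calc (N1 + 2) / (N1 + 1) * (e1 w).re * a ^ (m + 1)
          ≤ (N1 + 2) / (N1 + 1) * |(e1 w).re| * a ^ (m + 1) := by
            apply mul_le_mul_of_nonneg_right _ (hpow0 _)
            exact mul_le_mul_of_nonneg_left (le_abs_self _) (by positivity)
        _ ≤ (2 * ((N1 + 1) * ρ)) * 1 := by
            apply mul_le_mul _ (hpow1 _) (hpow0 _) (by positivity)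
            exact mul_le_mul hx hE (abs_nonneg _) (by norm_num)
        _ = 2 * ((N1 + 1) * ρ) := by ring
    have g2 : -(3 * ((N1 + 1) ^ 2 * ρ ^ 2)) ≤ (N1 + 2) / N1 * (e2 w).re * a ^ m := by
      have : (N1 + 2) / N1 * |(e2 w).re| * a ^ m ≤ (3 * ((N1 + 1) ^ 2 * ρ ^ 2)) * 1 := by
        apply mul_le_mul _ (hpow1 _) (hpow0 _) (by positivity)
        exact mul_le_mul hy hR (abs_nonneg _) (by norm_num)
      have h2 : (N1 + 2) / N1 * (-|(e2 w).re|) * a ^ m ≤ (N1 + 2) / N1 * (e2 w).re * a ^ m := by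
        apply mul_le_mul_of_nonneg_right _ (hpow0 _)
        exact mul_le_mul_of_nonneg_left (neg_abs_le _) (by positivity)
      have h3 : (N1 + 2) / N1 * (-|(e2 w).re|) * a ^ m = -((N1 + 2) / N1 * |(e2 w).re| * a ^ m) := by
        ring
      linarith
    have g3 : (N1 + 1) * ρ ≤ (N1 + 1) ^ 3 * δ := by
      have : (N1 + 1) * ρ ≤ (N1 + 1) * ((N1 + 1) * δ) :=
        mul_le_mul_of_nonneg_left hρδ (by positivity)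
      have h2 : (N1 + 1) * ((N1 + 1) * δ) = (N1 + 1) ^ 2 * δ := by ring
      linarith
    have g4 : (N1 + 1) ^ 2 * ρ ^ 2 ≤ (N1 + 1) ^ 3 * δ := by
      have h1 : ρ ^ 2 ≤ 1 * ρ := by
        rw [sq]; exact mul_le_mul_of_nonneg_right hρ1 hρ0
      have h2 : (N1 + 1) ^ 2 * ρ ^ 2 ≤ (N1 + 1) ^ 2 * ((N1 + 1) * δ) :=
        mul_le_mul_of_nonneg_left (by linarith) (by positivity)
      have h3 : (N1 + 1) ^ 2 * ((N1 + 1) * δ) = (N1 + 1) ^ 3 * δ := by ring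
      linarith
    have g5 : K1 * ρ ^ 3 ≤ K1 * ((N1 + 1) ^ 3 * δ) := by
      apply mul_le_mul_of_nonneg_left _ hK1
      have h1 : ρ ^ 3 ≤ ρ := by
        calc ρ ^ 3 ≤ ρ ^ 1 := pow_le_pow_of_le_one hρ0 hρ1 (by norm_num)
          _ = ρ := pow_one ρ
      linarith
    have g6 : (N1 + 1) * ε ≤ (N1 + 1) ^ 3 * δ := by
      have : (N1 + 1) * ε ≤ (N1 + 1) * δ := mul_le_mul_of_nonneg_left hεδ (by positivity)
      linarith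
    have g7 : (N1 + 1) * ε = ((m : ℝ) + 2) * ε := by rw [hN1]; ring
    have g8 : 2 * (6 + K1) * (N1 + 1) ^ 3 * δ = 12 * ((N1 + 1) ^ 3 * δ)
        + 2 * (K1 * ((N1 + 1) ^ 3 * δ)) := by ring
    linarith
  have hS' := hS m a (by linarith) ha1 z w ρ hρ0 hρ1 hρk hz (by linarith) hcrit
  have hElow := re_e1_lower (ε := ε) (κ := κ) (E := (e1 w).re) (R2 := (e2 w).re) (ρ := ρ)
    (K1 := K1) (aN2 := a ^ (m + 2)) (aN1 := a ^ (m + 1)) (am := a ^ m) hN1' hε0 hρ0 hρ1 hK1 hmain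
    (by rw [hN1]; linarith) (by linarith [hpow1 (m + 1)]) (by rw [hN1]; linarith)
    (by linarith [hpow1 m]) (by rw [hN1]; nlinarith) hE hR
  rw [← hC1] at hElow
  have hTk : ∀ k, 1 + s * ε + s * (w k).re + s / 2 * ((w k) ^ 2).re + s ^ 2 / 2 * (w k).re ^ 2
      - K2 * (‖w k‖ ^ 3 + ε * ‖w k‖ + ε ^ 2) ≤ ‖w k - (a : ℂ)‖⁻¹ ^ s := by
    intro k
    rw [hε]
    exact hT s hs hs2 a (w k) (by linarith) ha1 ((hw k).trans hδ8)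
  have hTs := sum_term w _ hK2 hε0 hρk hρsq hTk
  rw [← hN1] at hTs
  have hR2 : (e2 w).re = (((e1 w) ^ 2).re - (∑ k, (w k) ^ 2).re) / 2 := by
    have : e2 w = (((1 / 2 : ℝ)) : ℂ) * ((e1 w) ^ 2 - ∑ k, (w k) ^ 2) := by
      unfold e2 e1
      push_cast
      ring
    rw [this, Complex.re_ofReal_mul, Complex.sub_re]
    ring
  have he1 : -‖e1 w‖ ^ 2 ≤ ((e1 w) ^ 2).re := by
    have h1 := (abs_le.1 (Complex.abs_re_le_norm ((e1 w) ^ 2))).1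
    rw [norm_pow] at h1
    exact h1
  have hfin := final_real (N1 := N1) (s := s) (ε := ε) (κ := κ) (E := (e1 w).re)
    (R2 := (e2 w).re) (e1sq := ((e1 w) ^ 2).re) (q := (∑ k, (w k) ^ 2).re)
    (U := ∑ k, (w k).re ^ 2) (V := ∑ k, (w k).im ^ 2) (ρ := ρ) (C1 := C1) (K2 := K2)
    (B := ‖e1 w‖) (T := ∑ k, ‖w k - (a : ℂ)‖⁻¹ ^ s) (δ := δ) hN1' hs hs2 (by rw [hN1]; exact hsm)
    hε0 hκ0 hρ0 hC1' hK2 hElow hR2 (re_sum_sq w) (by rw [← sum_norm_sq, hρsq])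
    (Finset.sum_nonneg fun _ _ => sq_nonneg _) (Finset.sum_nonneg fun _ _ => sq_nonneg _)
    he1 (norm_nonneg _)
    (by
      have := norm_e1_le w hρk
      push_cast at this
      rw [hN1]; linarith)
    (by
      rw [hN1, hε, hκ]
      linarith)
    hTs hεδ hρδ hδ0.le (by rw [← hc1]; exact hδ1) (by rw [← hC3, ← hc1]; exact hδ2)
    (by rw [← hC3, ← hc2]; exact hδ3)
  rw [← hc1, ← hc2] at hfin
  rw [← hε, hρsq]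
  push_cast
  rw [hN1] at hfin
  linarith

end Pool.Agent.H957.SE.Loc
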