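import Pool.Agent.H957.SE.Stm

set_option autoImplicit false

/-!
# The sharp local theorem at `z^n - 1`: statements of the pieces (second round)

`e1 y = ∑ y_i`, `e2 y = ((∑ y_i)² - ∑ y_i²)/2 = ∑_{i<j} y_i y_j`, `Crit`: see
`Pool.Agent.H957.SE.Stm`.  `Fin.cons (a : ℂ) z : Fin (m + 1) → ℂ` are all the zeros
of `P = (X - a) ∏ (X - z_j)`.
-/

open Polynomial

namespace Pool.Agent.H957.SE

/-- all the zeros -/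
noncomputable def zs {m : ℕ} (a : ℝ) (z : Fin m → ℂ) : Fin (m + 1) → ℂ := Fin.cons (a : ℂ) z

/-- (COEF2) comparison of the second coefficients of `P'`.

PROOF. `P = ∏_{i : Fin (m+3)} (X - y_i)`, `y = zs a z` (`Fin.prod_univ_succ`). Lemma (induction on
`n` with `Fin.prod_univ_castSucc`, or from `Multiset.prod_X_sub_C_coeff` and `esymm`): for
`y : Fin (n+2) → ℂ`, `(∏ i, (X - C (y i))).coeff n = e2 y` (together with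
`(∏ i, (X - C (y i))).coeff (n+1) = - e1 y`). The coefficient of `X^m` in `P'` is
`(m+1) * P.coeff (m+1) = (m+1) * e2 y` (`coeff_derivative`), and in `(m+3) ∏ (X - C (w k))`
(`= P'` by `Polynomial.funext` and `Crit`) it is `(m+3) * e2 w`. -/
def StCoef2 : Prop :=
  ∀ (m : ℕ) (a : ℝ) (z w : Fin (m + 2) → ℂ), Crit a z w →
    (m + 1 : ℂ) * e2 (zs a z) = (m + 3 : ℂ) * e2 w

/-- (REC) the symmetric functions of the reciprocals of the zeros are tiny.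

PROOF. `P(x) = P(0) ∏ (1 - x / y_i)`, `y = zs a z`, all `y_i ≠ 0`, `‖P(0)‖ = a ∏ ‖z_j‖ ≥ 1/4`.
`∑ 1/y_i = -P'(0)/P(0)` and `e2 (1/y) = P''(0)/(2 P(0))` (logarithmic derivative, or compare
the coefficients of `X` and `X^2` in `P = ∏ (X - y_i)`; by induction
`∏ (X - y_i) = ∏ (-y_i) * (1 - e1 (1/y) X + e2 (1/y) X^2 + X^3 * R)`).
By Crit `P'(x) = (m+3) ∏ (x - w_k)`, so `‖P'(0)‖ = (m+3) ∏ ‖w_k‖ ≤ (m+3) M^(m+2)` and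
`P''(0) = (m+3) ∑_k ∏_{l ≠ k} (-w_l)`, `‖P''(0)‖ ≤ (m+3) (m+2) M^(m+1)`
(`Polynomial.derivative_prod_finset`). -/
def StRec : Prop :=
  ∀ (m : ℕ) (a : ℝ), 1 / 2 ≤ a → a ≤ 1 → ∀ (z w : Fin (m + 2) → ℂ) (M : ℝ), 0 ≤ M → M ≤ 1 →
    (∀ k, ‖w k‖ ≤ M) → 1 / 2 ≤ ∏ j, ‖z j‖ → Crit a z w →
    ‖e1 (fun i => (zs a z i)⁻¹)‖ ≤ 4 * (m + 3) * M ^ (m + 2) ∧
    ‖e2 (fun i => (zs a z i)⁻¹)‖ ≤ 2 * (m + 3) * (m + 2) * M ^ (m + 1)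

/-- (REFL) reflection in the unit circle changes `e2` little.

PROOF. `b_i = conj (1/y_i)`, `σ_i = 1 - ‖y_i‖^2 ∈ [0,1)`, `d_i = σ_i b_i`; then `y_i = b_i - d_i`
because `y_i = ‖y_i‖^2 b_i`. With `D = ∑ d_i`:
`e2 y = e2 b - e1 b * D + D^2/2 + ∑ b_i d_i - (∑ d_i^2)/2` (ring after expanding the sums), and
`e2 b = conj (e2 (1/y))`, `e1 b = conj (e1 (1/y))`. `‖b_i d_i‖ = σ_i/‖y_i‖^2 = 1/‖y_i‖^2 - 1 =: θ_i`,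
`‖d_i‖ = σ_i/‖y_i‖ ≤ θ_i`. Let `Θ₀ = ∑ θ_i`. Then `‖∑ b_i d_i‖ ≤ Θ₀`, `‖D‖ ≤ Θ₀`,
`‖∑ d_i^2‖ ≤ Θ₀^2`, so the difference is at most `Θ₀ + ‖e1 (1/y)‖ Θ₀ + Θ₀^2`, and
`Θ₀ ≤ ∏ (1 + θ_i) - 1 = (∏ ‖y_i‖)^(-2) - 1` (`1 + ∑ θ_i ≤ ∏ (1 + θ_i)`,
`Finset.one_add_sum_le_prod_one_add` or induction). -/
def StRefl : Prop :=
  ∀ (n : ℕ) (y : Fin n → ℂ), (∀ i, y i ≠ 0) → (∀ i, ‖y i‖ ≤ 1) → ∀ T : ℝ,
    T = ((∏ i, ‖y i‖) ^ 2)⁻¹ - 1 →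
    ‖e2 y - (starRingEnd ℂ) (e2 (fun i => (y i)⁻¹))‖ ≤
      T + ‖e1 (fun i => (y i)⁻¹)‖ * T + T ^ 2

/-- (E2) the real part of `e2 w` is controlled by the distances of the zeros to the circle, for at
least three critical points (`m + 3` critical points, degree `m + 4`). -/
def StE2 (m : ℕ) : Prop :=
  ∃ K : ℝ, 0 ≤ K ∧ ∀ (a : ℝ), 1 / 2 ≤ a → a ≤ 1 → ∀ (z w : Fin (m + 3) → ℂ) (M : ℝ),
    0 ≤ M → M ≤ 1 → (∀ k, ‖w k‖ ≤ M) → (∀ j, ‖z j‖ ≤ 1) → 1 / 2 ≤ ∏ j, ‖z j‖ → Crit a z w →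
    ∀ μ : ℝ, μ = (1 - a) + (1 - ∏ j, ‖z j‖) →
    |(e2 w).re| ≤ 2 * (m + 2) / (m + 4) * μ + K * (μ ^ 2 + μ * M + M ^ 3)

/-- (E2A) `StE2 (m + 1)` from `StCoef2`, `StRec`, `StRefl`.

PROOF (write `m' = m + 1`, `N = m' + 3` critical points, degree `n = m' + 4`).
`y = zs a z`, `∏ ‖y_i‖ = a ∏ ‖z_j‖ = (1-ε)(1-κ)` with `ε = 1 - a`, `κ = 1 - ∏ ‖z_j‖`, both in
`[0, 1/2]`, `μ = ε + κ ≤ 1`. With `τ = 1 - (1-ε)(1-κ) ≤ μ`, `τ ≤ 3/4`: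
`T = (1-τ)^(-2) - 1 = τ (2-τ)/(1-τ)^2 ≤ 2 τ + 48 τ^2 ≤ 2 μ + 48 μ^2`.
StRefl and StRec (with `m'+1` in place of `m`, `M ≤ 1`): `‖e1 (1/y)‖ ≤ 4 n M^(m'+3) ≤ 4 n M`,
`‖e2 (1/y)‖ ≤ 2 n (n-1) M^(m'+2) ≤ 2 n (n-1) M^3` (here `m' ≥ 1` is used). So
`‖e2 y‖ ≤ 2 μ + 48 μ^2 + 4 n M (2 μ + 48 μ^2) + (2 μ + 48 μ^2)^2 + 2 n (n-1) M^3
≤ 2 μ + K' (μ^2 + μ M + M^3)`, and StCoef2: `e2 w = (m'+2)/(m'+4) e2 y`. -/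
def StE2A : Prop := StCoef2 → StRec → StRefl → ∀ m : ℕ, StE2 (m + 1)

/-- (E2B) `StE2 0` (three critical points, degree four) from `StCoef2`, `StRec`, `StRefl`.

PROOF. `y = zs a z : Fin 4 → ℂ`, `S4 = ∏ y_i`, `‖S4‖ = a ∏ ‖z_j‖ ≥ 1/4`, `ε, κ, μ, T` as in E2A,
`T ≤ 2 μ + 48 μ^2`. Identity for four variables: `e2 (1/y) = e2 y / S4` (field_simp; ring after
`Fin.sum_univ_four`, `Fin.prod_univ_four`). StCoef2 (`m = 1`): `2 e2 y = 4 e2 w`, so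
`‖e2 y‖ = 2 ‖e2 w‖ ≤ 12 M^2` (crude). StRec: `‖e1 (1/y)‖ ≤ 16 M^3`. Put
`R = e2 y - conj (e2 (1/y))`, `‖R‖ ≤ T + 16 M^3 T + T^2` (StRefl). Since
`conj (e2 (1/y)) = conj (e2 y) / conj S4`:
`2 Re (e2 y) = e2 y + conj (e2 y) = conj (e2 y) (1 + 1/conj S4) + R`, and
`‖1 + 1/conj S4‖ = ‖S4 + 1‖/‖S4‖ ≤ 4 ‖S4 + 1‖`. Now `y_0 = a` is a zero:
`a^4 - S1 a^3 + S2 a^2 - S3 a + S4 = 0` (`∏ (a - y_i) = 0` expanded), hence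
`S4 + 1 = (1 - a^4) + S1 a^3 - S2 a^2 + S3 a` with `S1 = e1 y`, `‖S1‖ ≤ 5 M` (compare coefficients
of `x^2` in Crit: `3 e1 y = 4 e1 w`, `‖e1 w‖ ≤ 3 M`; or use `x = 0, 1, -1, ...` in Crit),
`S2 = e2 y`, `S3 = e1 (1/y) S4`, `‖S3‖ ≤ 16 M^3`. So `‖S4 + 1‖ ≤ 4 ε + 33 M`, and
`2 |Re (e2 y)| ≤ T + 16 M^3 T + T^2 + 12 M^2 * 4 (4 ε + 33 M) ≤ 2 μ + K' (μ^2 + μ M + M^3)`;
finally `e2 w = e2 y / 2`, and the required coefficient `2 * 2/4 = 1 ≥ 1/2`. -/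
def StE2B : Prop := StCoef2 → StRec → StRefl → StE2 0

/-- (LOC2) the sharp local theorem in degree `m + 4 ≥ 4` (`m + 3` critical points): every `s > 0`. -/
def StLoc2 : Prop :=
  ∀ (m : ℕ) (s : ℝ), 0 < s → s ≤ 2 → ∃ δ c : ℝ, 0 < δ ∧ 0 < c ∧
    ∀ (a : ℝ) (z w : Fin (m + 3) → ℂ), 1 - δ ≤ a → a ≤ 1 → (∀ j, ‖z j‖ ≤ 1) → Crit a z w →
      (∀ k, ‖w k‖ ≤ δ) →
      ((m + 3 : ℕ) : ℝ) + c * ((1 - a) + ∑ k, ‖w k‖ ^ 2) ≤ ∑ k, ‖w k - (a : ℂ)‖⁻¹ ^ s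

/-- (THREE) degree three: no exponent below one is admissible near `z^3 - 1`.

PROOF. For `0 < η ≤ 1/2` let `p = (X - 1) (X^2 + (1+η) X + 1) = X^3 + η X^2 - η X - 1`. The zeros of
`X^2 + (1+η) X + 1` are `(-(1+η) ± i √(4 - (1+η)^2))/2`, of modulus one (if `x` is a zero then so is
its conjugate, and the product is one; or compute `re^2 + im^2`). `p' = 3 X^2 + 2 η X - η =
3 (X - w₁) (X - w₂)` with the real numbers `w = (-η ± √(η^2 + 3 η))/3`, `w₁ ≠ w₂`, both `< 1`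
(so `(derivative p).roots = {w₁, w₂}`, `1` is not a root: `p'(1) = 3 + η`).
`‖w₁‖^2 + ‖w₂‖^2 = (4 η^2 + 6 η)/9 ≤ δ` for small `η`. `u_i = 1/(1 - w_i) > 0`,
`u₁ + u₂ = (2 - w₁ - w₂)/((1-w₁)(1-w₂)) = (2 + 2η/3)/((3 + η)/3) = 2`, `u₁ ≠ u₂`; by the strict
concavity of `x^s` (`Real.strictConcaveOn_rpow`): `u₁^s + u₂^s < 2`. -/
def StThree : Prop :=
  ∀ s : ℝ, 0 < s → s < 1 → ∀ δ : ℝ, 0 < δ → ∃ p : ℂ[X], p.natDegree = 3 ∧ p.Monic ∧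
    (∀ z ∈ p.roots, ‖z‖ ≤ 1) ∧ (1 : ℂ) ∈ p.roots ∧ (1 : ℂ) ∉ (derivative p).roots ∧
    ((derivative p).roots.map (fun w : ℂ => ‖w‖ ^ 2)).sum ≤ δ ∧
    ((derivative p).roots.map (fun w : ℂ => ‖w - 1‖⁻¹ ^ s)).sum < 2

end Pool.Agent.H957.SE
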