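import Pool.Agent.H957.SE.Loc
import Pool.Agent.H957.SE.Stm2

set_option autoImplicit false

/-!
# The sharp local theorem `StLoc2` from `StInt`, `StCen`, `StSum`, `StTerm`, `StE2`
-/

open Polynomial MeasureTheory

namespace Pool.Agent.H957.SE.Loc2

open Pool.Agent.H957.SE Pool.Agent.H957.SE.Loc

/-- the final estimate -/
lemma final_real2 {N1 s ε κ E R2 e1sq q U V ρ C1 K2 K3 B T g h C4 C5 μ : ℝ} (hN1 : 2 ≤ N1)
    (hs : 0 < s) (hs2 : s ≤ 2) (hε : 0 ≤ ε) (hκ : 0 ≤ κ) (hρ : 0 ≤ ρ)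
    (hC1 : 0 ≤ C1) (hK2 : 0 ≤ K2) (hK3 : 0 ≤ K3) (hμ : μ = ε + κ)
    (hE : (N1 + 1) / (N1 + 2) * κ - (N1 + 1) ^ 2 / (N1 + 2) * ε + (N1 + 1) / N1 * R2
      - C1 * (ε * ρ + ρ ^ 3) ≤ E)
    (hR2 : R2 = (e1sq - q) / 2) (hq : q = U - V) (hUV : U + V = ρ ^ 2) (hU : 0 ≤ U)
    (he1 : |e1sq| ≤ B ^ 2) (hB0 : 0 ≤ B) (hB1 : B ≤ (N1 + 1) * ρ)
    (hB2 : B ≤ 3 * ε + 4 * (N1 + 1) * κ + 4 * (N1 + 2) * ρ ^ 2)
    (hR : |R2| ≤ 2 * N1 / (N1 + 2) * μ + K3 * (μ ^ 2 + μ * ρ + ρ ^ 3))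
    (hT : (N1 + 1) + s * (N1 + 1) * ε + s * E + s / 2 * q + s ^ 2 / 2 * U
      - K2 * (ρ ^ 3 + (N1 + 1) * (ε * ρ) + (N1 + 1) * ε ^ 2) ≤ T)
    (hg : g = s * ((N1 - 1) / (N1 + 2))) (hh0 : 0 < h) (hh1 : h ≤ s ^ 2 / 4) (hh2 : h ≤ g / 8)
    (hC4 : C4 = 2 * C1 + K2 * (N1 + 1) + 2 * K3 + 4 * (N1 + 1) * (N1 + 2))
    (hC5 : C5 = 4 * (N1 + 1) * (N1 + 2) + 2 * K3)
    (hd1 : (C4 + h * C5) * (ρ + μ) ≤ g / 4) (hd2 : (C4 + h * C5) * ρ ≤ h / 2) :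
    (N1 + 1) + min (g / 4) (h / 2) * (ε + ρ ^ 2) ≤ T := by
  have hN0 : 0 < N1 := by linarith
  have hμ0 : 0 ≤ μ := by rw [hμ]; linarith
  have hεμ : ε ≤ μ := by rw [hμ]; linarith
  have hκμ : κ ≤ μ := by rw [hμ]; linarith
  have hμρ : 0 ≤ μ * ρ := by positivity
  have hρ3 : 0 ≤ ρ ^ 3 := by positivity
  have hμ2 : 0 ≤ μ ^ 2 := by positivity
  have hεμ2 : ε ^ 2 ≤ μ ^ 2 := pow_le_pow_left₀ hε hεμ 2
  have hερ : ε * ρ ≤ μ * ρ := mul_le_mul_of_nonneg_right hεμ hρ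
  have hεμ20 : 0 ≤ ε ^ 2 := by positivity
  have hερ0 : 0 ≤ ε * ρ := by positivity
  -- the bound for `B ^ 2`
  have f2 : B ^ 2 ≤ 4 * (N1 + 1) * (N1 + 2) * (μ * ρ + ρ ^ 3) := by
    have g1 : B ^ 2 ≤ ((N1 + 1) * ρ) * (3 * ε + 4 * (N1 + 1) * κ + 4 * (N1 + 2) * ρ ^ 2) := by
      rw [sq]
      exact mul_le_mul hB1 hB2 hB0 (by positivity)
    have g2 : 3 * ε + 4 * (N1 + 1) * κ ≤ 4 * (N1 + 2) * μ := by
      rw [hμ]
      have : 0 ≤ N1 * ε := by positivity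
      linarith
    have g3 : ((N1 + 1) * ρ) * (3 * ε + 4 * (N1 + 1) * κ + 4 * (N1 + 2) * ρ ^ 2) ≤
        ((N1 + 1) * ρ) * (4 * (N1 + 2) * μ + 4 * (N1 + 2) * ρ ^ 2) :=
      mul_le_mul_of_nonneg_left (by linarith) (by positivity)
    have g4 : ((N1 + 1) * ρ) * (4 * (N1 + 2) * μ + 4 * (N1 + 2) * ρ ^ 2) =
        4 * (N1 + 1) * (N1 + 2) * (μ * ρ + ρ ^ 3) := by ring
    linarith
  have hD0 : 0 ≤ 4 * (N1 + 1) * (N1 + 2) * (μ * ρ + ρ ^ 3) := by positivity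
  obtain ⟨Z, hZ⟩ : ∃ Z : ℝ, Z = μ * ρ + ρ ^ 3 + μ ^ 2 := ⟨_, rfl⟩
  have hZ0 : 0 ≤ Z := by rw [hZ]; linarith
  have hZ1 : μ * ρ + ρ ^ 3 ≤ Z := by rw [hZ]; linarith
  have hD1 : 4 * (N1 + 1) * (N1 + 2) * (μ * ρ + ρ ^ 3) ≤ 4 * (N1 + 1) * (N1 + 2) * Z :=
    mul_le_mul_of_nonneg_left hZ1 (by positivity)
  have hZ2 : μ ^ 2 + μ * ρ + ρ ^ 3 = Z := by rw [hZ]; ring
  rw [hZ2] at hR
  -- main inequality
  have f4 : s * ((N1 + 1) / (N1 + 2) * κ - (N1 + 1) ^ 2 / (N1 + 2) * ε + (N1 + 1) / N1 * R2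
      - C1 * (ε * ρ + ρ ^ 3)) ≤ s * E := mul_le_mul_of_nonneg_left hE hs.le
  have hq2 : q = e1sq - 2 * R2 := by linarith
  have i1 : s * (N1 + 1) * ε + s * ((N1 + 1) / (N1 + 2) * κ - (N1 + 1) ^ 2 / (N1 + 2) * ε
      + (N1 + 1) / N1 * R2 - C1 * (ε * ρ + ρ ^ 3)) + s / 2 * q =
      s * ((N1 + 1) / (N1 + 2)) * μ + s / N1 * R2 + s / 2 * e1sq
        - s * C1 * (ε * ρ + ρ ^ 3) := by
    rw [hq2, hμ]
    field_simp
    ring
  have f5 : s * C1 * (ε * ρ + ρ ^ 3) ≤ 2 * C1 * Z := by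
    apply mul_le_mul _ (by linarith) (by positivity) (by positivity)
    exact mul_le_mul_of_nonneg_right hs2 hC1
  have f6 : K2 * (ρ ^ 3 + (N1 + 1) * (ε * ρ) + (N1 + 1) * ε ^ 2) ≤ K2 * (N1 + 1) * Z := by
    rw [mul_assoc]
    apply mul_le_mul_of_nonneg_left _ hK2
    have h1 : ρ ^ 3 ≤ (N1 + 1) * ρ ^ 3 := le_mul_of_one_le_left hρ3 (by linarith)
    have h2 : (N1 + 1) * (ε * ρ) ≤ (N1 + 1) * (μ * ρ) :=
      mul_le_mul_of_nonneg_left hερ (by positivity)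
    have h3 : (N1 + 1) * ε ^ 2 ≤ (N1 + 1) * μ ^ 2 := mul_le_mul_of_nonneg_left hεμ2 (by positivity)
    rw [hZ]
    linarith
  have f7 : -(2 * s / (N1 + 2) * μ + 2 * K3 * Z) ≤ s / N1 * R2 := by
    have h1 : s / N1 * (-|R2|) ≤ s / N1 * R2 :=
      mul_le_mul_of_nonneg_left (neg_abs_le _) (by positivity)
    have h2 : s / N1 * |R2| ≤ s / N1 * (2 * N1 / (N1 + 2) * μ + K3 * Z) :=
      mul_le_mul_of_nonneg_left hR (by positivity)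
    have h3 : s / N1 * (2 * N1 / (N1 + 2) * μ + K3 * Z) =
        2 * s / (N1 + 2) * μ + s / N1 * (K3 * Z) := by
      field_simp
    have h4 : s / N1 * (K3 * Z) ≤ 2 * (K3 * Z) := by
      apply mul_le_mul_of_nonneg_right _ (by positivity)
      rw [div_le_iff₀ hN0]
      linarith
    have h5 : s / N1 * (-|R2|) = -(s / N1 * |R2|) := by ring
    linarith
  have f8 : -(4 * (N1 + 1) * (N1 + 2) * Z) ≤ s / 2 * e1sq := by
    have h1 : s / 2 * (-|e1sq|) ≤ s / 2 * e1sq :=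
      mul_le_mul_of_nonneg_left (neg_abs_le _) (by positivity)
    have h2 : s / 2 * |e1sq| ≤ 1 * B ^ 2 :=
      mul_le_mul (by linarith) he1 (abs_nonneg _) (by norm_num)
    have h5 : s / 2 * (-|e1sq|) = -(s / 2 * |e1sq|) := by ring
    linarith
  have i2 : s * ((N1 + 1) / (N1 + 2)) * μ - 2 * s / (N1 + 2) * μ = g * μ := by
    rw [hg]
    field_simp
    ring
  have f9 : (N1 + 1) + g * μ + s ^ 2 / 2 * U - C4 * Z ≤ T := by
    have : C4 * Z = 2 * C1 * Z + K2 * (N1 + 1) * Z + 2 * K3 * Z + 4 * (N1 + 1) * (N1 + 2) * Z := by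
      rw [hC4]; ring
    rw [this]
    linarith
  -- the quadratic form
  have f10 : |q| ≤ 4 * μ + C5 * Z := by
    have h1 : |q| ≤ |e1sq| + 2 * |R2| := by
      rw [hq2]
      refine (abs_sub _ _).trans ?_
      rw [abs_mul]
      norm_num
    have h2 : 2 * N1 / (N1 + 2) * μ ≤ 2 * μ := by
      apply mul_le_mul_of_nonneg_right _ hμ0
      rw [div_le_iff₀ (by linarith)]
      linarith
    have h3 : C5 * Z = 4 * (N1 + 1) * (N1 + 2) * Z + 2 * (K3 * Z) := by rw [hC5]; ring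
    linarith
  have f11 : h * ρ ^ 2 - g / 2 * μ - h * C5 * Z ≤ s ^ 2 / 2 * U := by
    have h1 : 2 * h * U ≤ s ^ 2 / 2 * U := mul_le_mul_of_nonneg_right (by linarith) hU
    have h2 : 2 * U = ρ ^ 2 + q := by linarith
    have h3 : 2 * h * U = h * ρ ^ 2 + h * q := by
      have : 2 * h * U = h * (2 * U) := by ring
      rw [this, h2]; ring
    have h4 : h * (-|q|) ≤ h * q := mul_le_mul_of_nonneg_left (neg_abs_le _) hh0.le
    have h5 : h * |q| ≤ h * (4 * μ + C5 * Z) := mul_le_mul_of_nonneg_left f10 hh0.le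
    have h6 : h * (4 * μ) ≤ g / 2 * μ := by
      have : h * (4 * μ) = 4 * h * μ := by ring
      rw [this]
      exact mul_le_mul_of_nonneg_right (by linarith) hμ0
    have h7 : h * (-|q|) = -(h * |q|) := by ring
    have h8 : h * (4 * μ + C5 * Z) = h * (4 * μ) + h * C5 * Z := by ring
    linarith
  have hC40 : 0 ≤ C4 + h * C5 := by
    have : 0 ≤ C5 := by rw [hC5]; positivity
    have : 0 ≤ C4 := by rw [hC4]; positivity
    positivity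
  have f12 : (C4 + h * C5) * (μ * ρ + μ ^ 2) ≤ g / 4 * μ := by
    have := mul_le_mul_of_nonneg_right hd1 hμ0
    have h2 : (C4 + h * C5) * (ρ + μ) * μ = (C4 + h * C5) * (μ * ρ + μ ^ 2) := by ring
    linarith
  have f13 : (C4 + h * C5) * ρ ^ 3 ≤ h / 2 * ρ ^ 2 := by
    have := mul_le_mul_of_nonneg_right hd2 (sq_nonneg ρ)
    have h2 : (C4 + h * C5) * ρ * ρ ^ 2 = (C4 + h * C5) * ρ ^ 3 := by ring
    linarith
  have f14 : (C4 + h * C5) * Z = (C4 + h * C5) * (μ * ρ + μ ^ 2) + (C4 + h * C5) * ρ ^ 3 := by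
    rw [hZ]; ring
  have f15 : C4 * Z + h * C5 * Z = (C4 + h * C5) * Z := by ring
  have f16 : min (g / 4) (h / 2) * (ε + ρ ^ 2) ≤ g / 4 * μ + h / 2 * ρ ^ 2 := by
    have hg0 : 0 ≤ g := by
      rw [hg]
      have : 0 ≤ N1 - 1 := by linarith
      positivity
    have g1 : min (g / 4) (h / 2) * ε ≤ g / 4 * μ :=
      mul_le_mul (min_le_left _ _) hεμ hε (by linarith)
    have g2 : min (g / 4) (h / 2) * ρ ^ 2 ≤ h / 2 * ρ ^ 2 :=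
      mul_le_mul_of_nonneg_right (min_le_right _ _) (sq_nonneg _)
    linarith
  linarith


theorem loc2 (hI : StInt) (hC : StCen) (hS : StSum) (hT : StTerm) (hE2 : ∀ m, StE2 m) :
    StLoc2 := by
  intro m s hs hs2
  obtain ⟨K1, hK1, hI⟩ := hI (m + 1)
  obtain ⟨K2, hK2, hT⟩ := hT
  obtain ⟨K3, hK3, hE2⟩ := hE2 m
  obtain ⟨N1, hN1⟩ : ∃ N1 : ℝ, N1 = (m : ℝ) + 2 := ⟨_, rfl⟩
  have hm0 : (0 : ℝ) ≤ m := Nat.cast_nonneg m
  have hN1' : 2 ≤ N1 := by linarith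
  have hN0 : 0 < N1 := by linarith
  have hcast : ((m + 1 : ℕ) : ℝ) = (m : ℝ) + 1 := by push_cast; ring
  obtain ⟨C1, hC1⟩ : ∃ C1 : ℝ, C1 = (N1 + 1) ^ 2 + 2 * (N1 + 1) ^ 3 + K1 := ⟨_, rfl⟩
  have hC1' : 0 ≤ C1 := by rw [hC1]; positivity
  obtain ⟨C4, hC4⟩ : ∃ C4 : ℝ, C4 = 2 * C1 + K2 * (N1 + 1) + 2 * K3 + 4 * (N1 + 1) * (N1 + 2) :=
    ⟨_, rfl⟩
  obtain ⟨C5, hC5⟩ : ∃ C5 : ℝ, C5 = 4 * (N1 + 1) * (N1 + 2) + 2 * K3 := ⟨_, rfl⟩
  have hC4' : 0 < C4 := by rw [hC4]; positivity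
  have hC5' : 0 < C5 := by rw [hC5]; positivity
  obtain ⟨g, hg⟩ : ∃ g : ℝ, g = s * ((N1 - 1) / (N1 + 2)) := ⟨_, rfl⟩
  have hg0 : 0 < g := by
    rw [hg]
    have : 0 < N1 - 1 := by linarith
    positivity
  obtain ⟨h, hh⟩ : ∃ h : ℝ, h = min (s ^ 2 / 4) (g / 8) := ⟨_, rfl⟩
  have hh0 : 0 < h := by rw [hh]; positivity
  have hh1 : h ≤ s ^ 2 / 4 := by rw [hh]; exact min_le_left _ _
  have hh2 : h ≤ g / 8 := by rw [hh]; exact min_le_right _ _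
  have hCC : 0 < C4 + h * C5 := by positivity
  obtain ⟨δ, hδ0, hδ1, hδ2, hδ4⟩ : ∃ δ : ℝ, 0 < δ ∧
      (C4 + h * C5) * ((N1 + 1) + (1 + (6 + K1) * (N1 + 1) ^ 3)) * δ ≤ g / 4 ∧
      (C4 + h * C5) * (N1 + 1) * δ ≤ h / 2 ∧
      2 * (6 + K1) * (N1 + 1) ^ 3 * δ ≤ 1 := by
    refine ⟨min ((g / 4) / ((C4 + h * C5) * ((N1 + 1) + (1 + (6 + K1) * (N1 + 1) ^ 3))))
      (min ((h / 2) / ((C4 + h * C5) * (N1 + 1))) (1 / (2 * (6 + K1) * (N1 + 1) ^ 3))),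
      ?_, ?_, ?_, ?_⟩
    · positivity
    · rw [← le_div_iff₀' (by positivity)]
      exact min_le_left _ _
    · rw [← le_div_iff₀' (by positivity)]
      exact (min_le_right _ _).trans (min_le_left _ _)
    · rw [← le_div_iff₀' (by positivity)]
      exact (min_le_right _ _).trans (min_le_right _ _)
  refine ⟨δ, min (g / 4) (h / 2), hδ0, lt_min (by positivity) (by positivity), ?_⟩
  intro a z w ha0 ha1 hz hcrit hw
  -- sizes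
  have hN3 : 8 ≤ (N1 + 1) ^ 3 := by
    have : (2:ℝ) ^ 3 ≤ (N1 + 1) ^ 3 := pow_le_pow_left₀ (by norm_num) (by linarith) 3
    linarith
  have hN31 : N1 + 1 ≤ (N1 + 1) ^ 3 := by
    have h1 : (1 : ℝ) ≤ (N1 + 1) ^ 2 := one_le_pow₀ (by linarith)
    have h2 : (N1 + 1) ^ 3 = (N1 + 1) * (N1 + 1) ^ 2 := by ring
    rw [h2]
    exact le_mul_of_one_le_right (by linarith) h1
  have hN32 : (N1 + 1) ^ 2 ≤ (N1 + 1) ^ 3 := pow_le_pow_right₀ (by linarith) (by norm_num)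
  have hK1N : 0 ≤ K1 * (N1 + 1) ^ 3 * δ := by positivity
  have hN3δ : 12 * ((N1 + 1) ^ 3 * δ) ≤ 1 := by
    have h1 : 2 * (6 + K1) * (N1 + 1) ^ 3 * δ = 12 * ((N1 + 1) ^ 3 * δ)
      + 2 * (K1 * (N1 + 1) ^ 3 * δ) := by ring
    linarith
  have hN1δ : (N1 + 1) * δ ≤ (N1 + 1) ^ 3 * δ := mul_le_mul_of_nonneg_right hN31 hδ0.le
  have hN2δ : (N1 + 1) ^ 2 * δ ≤ (N1 + 1) ^ 3 * δ := mul_le_mul_of_nonneg_right hN32 hδ0.le
  have hδ8 : δ ≤ 1 / 8 := by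
    have : 8 * δ ≤ (N1 + 1) ^ 3 * δ := mul_le_mul_of_nonneg_right hN3 hδ0.le
    linarith
  obtain ⟨ε, hε⟩ : ∃ ε : ℝ, ε = 1 - a := ⟨_, rfl⟩
  have hε0 : 0 ≤ ε := by linarith
  have hεδ : ε ≤ δ := by linarith
  obtain ⟨ρ, hρ⟩ : ∃ ρ : ℝ, ρ = Real.sqrt (∑ k, ‖w k‖ ^ 2) := ⟨_, rfl⟩
  have hρ0 : 0 ≤ ρ := by rw [hρ]; exact Real.sqrt_nonneg _
  have hρsq : ∑ k, ‖w k‖ ^ 2 = ρ ^ 2 := by
    rw [hρ, Real.sq_sqrt (Finset.sum_nonneg fun _ _ => sq_nonneg _)]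
  have hρk : ∀ k, ‖w k‖ ≤ ρ := by
    intro k; rw [hρ]; exact norm_le_rho w k
  have hρδ : ρ ≤ (N1 + 1) * δ := by
    have := rho_le (by omega) w hδ0.le hw
    rw [← hρ] at this
    push_cast at this
    rw [hN1]
    linarith
  have hρ1 : ρ ≤ 1 := by linarith
  have hapos : 0 < a := by linarith
  have ha' : 0 ≤ a := hapos.le
  -- the product
  obtain ⟨κ, hκ⟩ : ∃ κ : ℝ, κ = 1 - ∏ j, ‖z j‖ := ⟨_, rfl⟩
  have hκ0 : 0 ≤ κ := by
    have : ∏ j, ‖z j‖ ≤ 1 := Finset.prod_le_one (fun _ _ => norm_nonneg _) fun j _ => hz j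
    linarith
  have hI' := hI w ρ hρ0 hρ1 hρk a ha' ha1
  have hC' := hC (m + 3) a hapos z w hcrit
  have hmain : a ^ (m + 1 + 2) - (N1 + 2) / (N1 + 1) * (e1 w).re * a ^ (m + 1 + 1)
      + (N1 + 2) / N1 * (e2 w).re * a ^ (m + 1) - K1 * ρ ^ 3 ≤ 1 - κ := by
    have h1 := re_main (m + 1) a (e1 w) (e2 w)
    have h2 := Complex.abs_re_le_norm (A a w - ((a : ℂ) ^ (m + 1 + 2)
      - (((m + 1 : ℕ) : ℂ) + 3) / (((m + 1 : ℕ) : ℂ) + 2) * e1 w * (a : ℂ) ^ (m + 1 + 1)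
      + (((m + 1 : ℕ) : ℂ) + 3) / (((m + 1 : ℕ) : ℂ) + 1) * e2 w * (a : ℂ) ^ (m + 1)))
    rw [Complex.sub_re, h1] at h2
    have h3 := (abs_le.1 (h2.trans hI')).1
    have h4 : (A a w).re ≤ ‖A a w‖ := Complex.re_le_norm _
    rw [hC'] at h4
    have h5 : N1 + 2 = ((m + 1 : ℕ) : ℝ) + 3 := by rw [hcast]; linarith
    have h6 : N1 + 1 = ((m + 1 : ℕ) : ℝ) + 2 := by rw [hcast]; linarith
    have h7 : N1 = ((m + 1 : ℕ) : ℝ) + 1 := by rw [hcast]; linarith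
    rw [h5, h6, h7]
    linarith
  -- the powers of a
  have hpow : ∀ k : ℕ, 1 - (k : ℝ) * ε ≤ a ^ k := by
    intro k
    have h1 := one_add_mul_le_pow (a := -ε) (by linarith) k
    have h2 : 1 + -ε = a := by linarith
    rw [h2] at h1
    linarith
  have hpow1 : ∀ k : ℕ, a ^ k ≤ 1 := fun k => pow_le_one₀ ha' ha1
  have hpow0 : ∀ k : ℕ, 0 ≤ a ^ k := fun k => pow_nonneg ha' k
  have p2 := hpow (m + 1 + 2)
  have p1 := hpow (m + 1 + 1)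
  have p0 := hpow (m + 1)
  push_cast at p2 p1 p0
  have hE : |(e1 w).re| ≤ (N1 + 1) * ρ := by
    refine (Complex.abs_re_le_norm _).trans ?_
    have := norm_e1_le w hρk
    push_cast at this
    rw [hN1]
    linarith
  have hR : |(e2 w).re| ≤ (N1 + 1) ^ 2 * ρ ^ 2 := by
    refine (Complex.abs_re_le_norm _).trans ?_
    have := norm_e2_le (by omega) w hρ0 hρk hρsq
    push_cast at this
    have h6 : N1 + 1 = (m : ℝ) + 3 := by linarith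
    rw [h6]
    exact this
  -- the product is close to one
  have hκδ : κ ≤ (6 + K1) * (N1 + 1) ^ 3 * δ := by
    have hx : (N1 + 2) / (N1 + 1) ≤ 2 := by
      rw [div_le_iff₀ (by positivity)]; linarith
    have hy : (N1 + 2) / N1 ≤ 3 := by
      rw [div_le_iff₀ (by positivity)]; linarith
    have g1 : (N1 + 2) / (N1 + 1) * (e1 w).re * a ^ (m + 1 + 1) ≤ 2 * ((N1 + 1) * ρ) := by
      calc (N1 + 2) / (N1 + 1) * (e1 w).re * a ^ (m + 1 + 1)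
          ≤ (N1 + 2) / (N1 + 1) * |(e1 w).re| * a ^ (m + 1 + 1) := by
            apply mul_le_mul_of_nonneg_right _ (hpow0 _)
            exact mul_le_mul_of_nonneg_left (le_abs_self _) (by positivity)
        _ ≤ (2 * ((N1 + 1) * ρ)) * 1 := by
            apply mul_le_mul _ (hpow1 _) (hpow0 _) (by positivity)
            exact mul_le_mul hx hE (abs_nonneg _) (by norm_num)
        _ = 2 * ((N1 + 1) * ρ) := by ring
    have g2 : -(3 * ((N1 + 1) ^ 2 * ρ ^ 2)) ≤ (N1 + 2) / N1 * (e2 w).re * a ^ (m + 1) := by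
      have : (N1 + 2) / N1 * |(e2 w).re| * a ^ (m + 1) ≤ (3 * ((N1 + 1) ^ 2 * ρ ^ 2)) * 1 := by
        apply mul_le_mul _ (hpow1 _) (hpow0 _) (by positivity)
        exact mul_le_mul hy hR (abs_nonneg _) (by norm_num)
      have h2 : (N1 + 2) / N1 * (-|(e2 w).re|) * a ^ (m + 1) ≤
          (N1 + 2) / N1 * (e2 w).re * a ^ (m + 1) := by
        apply mul_le_mul_of_nonneg_right _ (hpow0 _)
        exact mul_le_mul_of_nonneg_left (neg_abs_le _) (by positivity)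
      have h3 : (N1 + 2) / N1 * (-|(e2 w).re|) * a ^ (m + 1) =
          -((N1 + 2) / N1 * |(e2 w).re| * a ^ (m + 1)) := by
        ring
      linarith
    have g3 : (N1 + 1) * ρ ≤ (N1 + 1) ^ 3 * δ := by
      have : (N1 + 1) * ρ ≤ (N1 + 1) * ((N1 + 1) * δ) :=
        mul_le_mul_of_nonneg_left hρδ (by positivity)
      have h2 : (N1 + 1) * ((N1 + 1) * δ) = (N1 + 1) ^ 2 * δ := by ring
      linarith
    have g4 : (N1 + 1) ^ 2 * ρ ^ 2 ≤ (N1 + 1) ^ 3 * δ := by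
      have h1 : ρ ^ 2 ≤ 1 * ρ := by
        rw [sq]; exact mul_le_mul_of_nonneg_right hρ1 hρ0
      have h2 : (N1 + 1) ^ 2 * ρ ^ 2 ≤ (N1 + 1) ^ 2 * ((N1 + 1) * δ) :=
        mul_le_mul_of_nonneg_left (by linarith) (by positivity)
      have h3 : (N1 + 1) ^ 2 * ((N1 + 1) * δ) = (N1 + 1) ^ 3 * δ := by ring
      linarith
    have g5 : K1 * ρ ^ 3 ≤ K1 * ((N1 + 1) ^ 3 * δ) := by
      apply mul_le_mul_of_nonneg_left _ hK1
      have h1 : ρ ^ 3 ≤ ρ := by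
        calc ρ ^ 3 ≤ ρ ^ 1 := pow_le_pow_of_le_one hρ0 hρ1 (by norm_num)
          _ = ρ := pow_one ρ
      linarith
    have g6 : (N1 + 1) * ε ≤ (N1 + 1) ^ 3 * δ := by
      have : (N1 + 1) * ε ≤ (N1 + 1) * δ := mul_le_mul_of_nonneg_left hεδ (by positivity)
      linarith
    have g7 : (N1 + 1) * ε = ((m : ℝ) + 1 + 2) * ε := by rw [hN1]; ring
    have g8 : (6 + K1) * (N1 + 1) ^ 3 * δ = 6 * ((N1 + 1) ^ 3 * δ)
        + K1 * ((N1 + 1) ^ 3 * δ) := by ring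
    linarith
  have hκ2 : κ ≤ 1 / 2 := by
    have : 2 * (6 + K1) * (N1 + 1) ^ 3 * δ = 2 * ((6 + K1) * (N1 + 1) ^ 3 * δ) := by ring
    linarith
  have hS' := hS (m + 1) a (by linarith) ha1 z w ρ hρ0 hρ1 hρk hz (by linarith) hcrit
  obtain ⟨μ, hμ⟩ : ∃ μ : ℝ, μ = (1 - a) + (1 - ∏ j, ‖z j‖) := ⟨_, rfl⟩
  have hE2' := hE2 a (by linarith) ha1 z w ρ hρ0 hρ1 hρk hz (by linarith) hcrit μ hμ
  have hμ' : μ = ε + κ := by rw [hμ, hε, hκ]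
  have hμδ : μ ≤ (1 + (6 + K1) * (N1 + 1) ^ 3) * δ := by
    rw [hμ']
    have : (1 + (6 + K1) * (N1 + 1) ^ 3) * δ = δ + (6 + K1) * (N1 + 1) ^ 3 * δ := by ring
    linarith
  have hElow := re_e1_lower (ε := ε) (κ := κ) (E := (e1 w).re) (R2 := (e2 w).re) (ρ := ρ)
    (K1 := K1) (aN2 := a ^ (m + 1 + 2)) (aN1 := a ^ (m + 1 + 1)) (am := a ^ (m + 1))
    (by linarith) hε0 hρ0 hρ1 hK1 hmain
    (by rw [hN1]; linarith) (by linarith [hpow1 (m + 1 + 1)]) (by rw [hN1]; linarith)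
    (by linarith [hpow1 (m + 1)]) (by
      rw [hN1]
      have : ((m : ℝ) + 2 + 1) * ε = ((m : ℝ) + 1) * ε + 2 * ε := by ring
      linarith) hE hR
  rw [← hC1] at hElow
  have hTk : ∀ k, 1 + s * ε + s * (w k).re + s / 2 * ((w k) ^ 2).re + s ^ 2 / 2 * (w k).re ^ 2
      - K2 * (‖w k‖ ^ 3 + ε * ‖w k‖ + ε ^ 2) ≤ ‖w k - (a : ℂ)‖⁻¹ ^ s := by
    intro k
    rw [hε]
    exact hT s hs hs2 a (w k) (by linarith) ha1 ((hw k).trans hδ8)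
  have hTs := sum_term (m := m + 1) w _ hK2 hε0 hρk hρsq hTk
  have hN1e : ((m + 1 : ℕ) : ℝ) + 1 + 1 = N1 + 1 := by rw [hN1, hcast]; ring
  rw [hN1e] at hTs
  have hR2 : (e2 w).re = (((e1 w) ^ 2).re - (∑ k, (w k) ^ 2).re) / 2 := by
    have : e2 w = (((1 / 2 : ℝ)) : ℂ) * ((e1 w) ^ 2 - ∑ k, (w k) ^ 2) := by
      unfold e2 e1
      push_cast
      ring
    rw [this, Complex.re_ofReal_mul, Complex.sub_re]
    ring
  have he1 : |((e1 w) ^ 2).re| ≤ ‖e1 w‖ ^ 2 := by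
    have h1 := Complex.abs_re_le_norm ((e1 w) ^ 2)
    rw [norm_pow] at h1
    exact h1
  have hfin := final_real2 (N1 := N1) (s := s) (ε := ε) (κ := κ) (E := (e1 w).re)
    (R2 := (e2 w).re) (e1sq := ((e1 w) ^ 2).re) (q := (∑ k, (w k) ^ 2).re)
    (U := ∑ k, (w k).re ^ 2) (V := ∑ k, (w k).im ^ 2) (ρ := ρ) (C1 := C1) (K2 := K2) (K3 := K3)
    (B := ‖e1 w‖) (T := ∑ k, ‖w k - (a : ℂ)‖⁻¹ ^ s) (g := g) (h := h) (C4 := C4) (C5 := C5)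
    (μ := μ) hN1' hs hs2
    hε0 hκ0 hρ0 hC1' hK2 hK3 hμ' hElow hR2 (re_sum_sq w) (by rw [← sum_norm_sq, hρsq])
    (Finset.sum_nonneg fun _ _ => sq_nonneg _)
    he1 (norm_nonneg _)
    (by
      have := norm_e1_le w hρk
      push_cast at this
      rw [hN1]; linarith)
    (by
      rw [hN1, hε, hκ]
      rw [hcast] at hS'
      linarith)
    (by
      rw [hN1]
      have e1 : 2 * ((m : ℝ) + 2) / ((m : ℝ) + 2 + 2) = 2 * ((m : ℝ) + 2) / (m + 4) := by ring_nf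
      rw [e1]
      exact hE2')
    hTs hg hh0 hh1 hh2 hC4 hC5
    (by
      have h1 : ρ + μ ≤ ((N1 + 1) + (1 + (6 + K1) * (N1 + 1) ^ 3)) * δ := by
        have : ((N1 + 1) + (1 + (6 + K1) * (N1 + 1) ^ 3)) * δ =
          (N1 + 1) * δ + (1 + (6 + K1) * (N1 + 1) ^ 3) * δ := by ring
        linarith
      have h2 := mul_le_mul_of_nonneg_left h1 hCC.le
      have h3 : (C4 + h * C5) * (((N1 + 1) + (1 + (6 + K1) * (N1 + 1) ^ 3)) * δ) =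
        (C4 + h * C5) * ((N1 + 1) + (1 + (6 + K1) * (N1 + 1) ^ 3)) * δ := by ring
      linarith)
    (by
      have h2 := mul_le_mul_of_nonneg_left hρδ hCC.le
      have h3 : (C4 + h * C5) * ((N1 + 1) * δ) = (C4 + h * C5) * (N1 + 1) * δ := by ring
      linarith)
  rw [← hε, hρsq]
  push_cast
  rw [hN1] at hfin
  linarith

end Pool.Agent.H957.SE.Loc2
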