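import Pool.Agent.H957.SE.Stm2

set_option autoImplicit false

/-!
# The symmetric functions of the reciprocals of the zeros (helper181 for helper957)
-/

open Polynomial

namespace Pool.Agent.H957.SE.Rec

theorem coeffs : ∀ (n : ℕ) (y : Fin n → ℂ), (∀ i, y i ≠ 0) →
    (∏ i, (X - C (y i)) : ℂ[X]).coeff 0 = ∏ i, (- y i) ∧
    (∏ i, (X - C (y i)) : ℂ[X]).coeff 1 = - (∏ i, (- y i)) * e1 (fun i => (y i)⁻¹) ∧
    (∏ i, (X - C (y i)) : ℂ[X]).coeff 2 = (∏ i, (- y i)) * e2 (fun i => (y i)⁻¹) := by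
  intro n
  induction n with
  | zero =>
    intro y _
    simp [e1, e2, coeff_one]
  | succ n ih =>
    intro y hy
    obtain ⟨h0, h1, h2⟩ := ih (fun i => y i.castSucc) (fun i => hy _)
    have hl := hy (Fin.last n)
    have k1 : e1 (fun i => (y i)⁻¹) = e1 (fun i : Fin n => (y i.castSucc)⁻¹) +
        (y (Fin.last n))⁻¹ := by
      unfold e1
      rw [Fin.sum_univ_castSucc]
    have k2 : e2 (fun i => (y i)⁻¹) = e2 (fun i : Fin n => (y i.castSucc)⁻¹) +
        e1 (fun i : Fin n => (y i.castSucc)⁻¹) * (y (Fin.last n))⁻¹ := by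
      unfold e2 e1
      rw [Fin.sum_univ_castSucc, Fin.sum_univ_castSucc]
      ring
    rw [Fin.prod_univ_castSucc, Fin.prod_univ_castSucc, k1, k2]
    refine ⟨?_, ?_, ?_⟩
    · rw [mul_coeff_zero, h0]
      simp
    · rw [show (1 : ℕ) = 0 + 1 from rfl, coeff_mul_X_sub_C, h0, zero_add, h1]
      field_simp
      ring
    · rw [show (2 : ℕ) = 1 + 1 from rfl, coeff_mul_X_sub_C, h1, show (1 : ℕ) + 1 = 2 from rfl, h2]
      field_simp
      ring

theorem norm_coeffs (M : ℝ) (hM : 0 ≤ M) : ∀ (n : ℕ) (w : Fin (n + 1) → ℂ), (∀ i, ‖w i‖ ≤ M) →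
    ‖(∏ i, (X - C (w i)) : ℂ[X]).coeff 0‖ ≤ M ^ (n + 1) ∧
    ‖(∏ i, (X - C (w i)) : ℂ[X]).coeff 1‖ ≤ (n + 1) * M ^ n := by
  intro n
  induction n with
  | zero =>
    intro w hw
    simp [hw]
  | succ n ih =>
    intro w hw
    obtain ⟨h0, h1⟩ := ih (fun i => w i.castSucc) (fun i => hw _)
    have hl := hw (Fin.last (n + 1))
    rw [Fin.prod_univ_castSucc]
    constructor
    · rw [mul_coeff_zero, norm_mul, pow_succ M (n + 1)]
      have e : (X - C (w (Fin.last (n + 1))) : ℂ[X]).coeff 0 = - w (Fin.last (n + 1)) := by simp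
      rw [e, norm_neg]
      exact mul_le_mul h0 hl (norm_nonneg _) (pow_nonneg hM _)
    · have h2 := coeff_mul_X_sub_C (p := (∏ i : Fin (n + 1), (X - C (w i.castSucc)) : ℂ[X]))
        (r := w (Fin.last (n + 1))) (a := 0)
      rw [zero_add] at h2
      rw [h2]
      refine (norm_sub_le _ _).trans ?_
      rw [norm_mul]
      have h3 : ‖(∏ i : Fin (n + 1), (X - C (w i.castSucc)) : ℂ[X]).coeff 1‖ *
          ‖w (Fin.last (n + 1))‖ ≤ ((n + 1) * M ^ n) * M :=
        mul_le_mul h1 hl (norm_nonneg _) (by positivity)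
      calc _ ≤ M ^ (n + 1) + ((n + 1) * M ^ n) * M := add_le_add h0 h3
        _ = _ := by push_cast; ring

theorem main : Pool.Agent.H957.SE.StRec := by
  intro m a ha ha1 z w M hM hM1 hw hz hC
  set y := zs a z with hy
  have ha0 : (a : ℂ) ≠ 0 := by
    rw [Ne, Complex.ofReal_eq_zero]
    linarith
  have hz0 : ∀ j, z j ≠ 0 := by
    intro j hj
    have : ∏ j, ‖z j‖ = 0 := Finset.prod_eq_zero (Finset.mem_univ j) (by rw [hj, norm_zero])
    linarith
  have hy0 : ∀ i, y i ≠ 0 := by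
    intro i
    refine Fin.cases ?_ (fun j => ?_) i
    · exact ha0
    · exact hz0 j
  have hP : ((X - C (a : ℂ)) * ∏ j, (X - C (z j)) : ℂ[X]) = ∏ i, (X - C (y i)) := by
    rw [Fin.prod_univ_succ (fun i => (X - C (y i) : ℂ[X]))]
    rfl
  obtain ⟨c0, c1, c2⟩ := coeffs (m + 2 + 1) y hy0
  have hD : derivative (∏ i, (X - C (y i)) : ℂ[X]) =
      C ((m : ℂ) + 3) * ∏ k, (X - C (w k)) := by
    apply Polynomial.funext
    intro x
    have h1 := hC x
    rw [hP] at h1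
    rw [h1, eval_mul, eval_C, eval_prod]
    simp only [eval_sub, eval_X, eval_C]
    push_cast
    ring
  obtain ⟨n0, n1⟩ := norm_coeffs M hM (m + 1) w hw
  have d0 : (∏ i, (X - C (y i)) : ℂ[X]).coeff 1 =
      ((m : ℂ) + 3) * (∏ k, (X - C (w k)) : ℂ[X]).coeff 0 := by
    have h1 := congrArg (fun p : ℂ[X] => p.coeff 0) hD
    simp only [coeff_derivative, coeff_C_mul] at h1
    rw [← h1]
    simp
  have d1 : (∏ i, (X - C (y i)) : ℂ[X]).coeff 2 * 2 =
      ((m : ℂ) + 3) * (∏ k, (X - C (w k)) : ℂ[X]).coeff 1 := by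
    have h1 := congrArg (fun p : ℂ[X] => p.coeff 1) hD
    simp only [coeff_derivative, coeff_C_mul] at h1
    rw [← h1]
    norm_num
  have hprod : ‖∏ i, (- y i)‖ = a * ∏ j, ‖z j‖ := by
    rw [norm_prod, Fin.prod_univ_succ]
    have h1 : ‖- y 0‖ = a := by
      rw [norm_neg]
      show ‖(a : ℂ)‖ = a
      rw [Complex.norm_real, Real.norm_of_nonneg (by linarith)]
    rw [h1]
    congr 1
    refine Finset.prod_congr rfl fun j _ => ?_
    rw [norm_neg]
    rfl
  have h4 : 1 / 4 ≤ ‖∏ i, (- y i)‖ := by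
    rw [hprod]
    nlinarith
  have hm3 : ‖(m : ℂ) + 3‖ = (m : ℝ) + 3 := by
    have : ((m : ℂ) + 3) = (((m : ℝ) + 3 : ℝ) : ℂ) := by push_cast; rfl
    rw [this, Complex.norm_real, Real.norm_of_nonneg (by positivity)]
  constructor
  · have h5 : ‖∏ i, (- y i)‖ * ‖e1 (fun i => (y i)⁻¹)‖ ≤ (m + 3) * M ^ (m + 2) := by
      have h6 := congrArg norm (c1.symm.trans d0)
      rw [norm_mul, norm_neg, norm_mul, hm3] at h6
      rw [h6]
      gcongr
    have h7 := norm_nonneg (e1 (fun i => (y i)⁻¹))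
    nlinarith
  · have h5 : ‖∏ i, (- y i)‖ * ‖e2 (fun i => (y i)⁻¹)‖ * 2 ≤ (m + 3) * ((m + 2) * M ^ (m + 1)) := by
      have h6 := congrArg norm ((congrArg (fun t => t * 2) c2).symm.trans d1)
      simp only [norm_mul, hm3] at h6
      rw [show ‖(2 : ℂ)‖ = 2 by simp] at h6
      rw [h6]
      have e : ((m : ℝ) + 2) = (((m + 1 : ℕ) : ℝ) + 1) := by push_cast; ring
      rw [e]
      gcongr
    have h7 := norm_nonneg (e2 (fun i => (y i)⁻¹))
    nlinarith

end Pool.Agent.H957.SE.Rec
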