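import Pool.Agent.H957.SE.Stm2

set_option autoImplicit false
set_option linter.all false

/-! # Reflection in the unit circle changes `e2` little -/

namespace Pool.Agent.H957.SE.Refl

open scoped ComplexConjugate

theorem prod_ge {ι : Type} (s : Finset ι) (θ : ι → ℝ) (h : ∀ i ∈ s, 0 ≤ θ i) :
    1 + ∑ i ∈ s, θ i ≤ ∏ i ∈ s, (1 + θ i) := by
  classical
  induction s using Finset.induction_on with
  | empty => simp
  | insert a s ha ih =>
    rw [Finset.sum_insert ha, Finset.prod_insert ha]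
    have h1 := ih fun i hi => h i (Finset.mem_insert_of_mem hi)
    have h2 := h a (Finset.mem_insert_self a s)
    have h3 : 0 ≤ ∑ i ∈ s, θ i := Finset.sum_nonneg fun i hi => h i (Finset.mem_insert_of_mem hi)
    nlinarith [mul_nonneg h2 h3]

theorem sum_sq {ι : Type} (s : Finset ι) (θ : ι → ℝ) (h : ∀ i ∈ s, 0 ≤ θ i) :
    ∑ i ∈ s, θ i ^ 2 ≤ (∑ i ∈ s, θ i) ^ 2 := by
  rw [sq (∑ i ∈ s, θ i), Finset.sum_mul]
  refine Finset.sum_le_sum fun i hi => ?_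
  rw [sq]
  exact mul_le_mul_of_nonneg_left (Finset.single_le_sum h hi) (h i hi)

theorem main : StRefl := by
  intro n y hy0 hy1 T hT
  -- the reflected points
  set b : Fin n → ℂ := fun i => conj ((y i)⁻¹) with hb
  set d : Fin n → ℂ := fun i => ((1 - ‖y i‖ ^ 2 : ℝ) : ℂ) * b i with hd
  set θ : Fin n → ℝ := fun i => (‖y i‖ ^ 2)⁻¹ - 1 with hθ
  have hn0 : ∀ i, 0 < ‖y i‖ := fun i => norm_pos_iff.2 (hy0 i)
  have hyb : ∀ i, y i = b i - d i := by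
    intro i
    have h1 : b i - d i = ((‖y i‖ ^ 2 : ℝ) : ℂ) * b i := by
      rw [hd]
      push_cast
      ring
    rw [h1, hb]
    have h2 : ((‖y i‖ ^ 2 : ℝ) : ℂ) = y i * conj (y i) := by
      rw [Complex.mul_conj']
      push_cast
      rfl
    dsimp only
    rw [h2, map_inv₀, mul_assoc, mul_inv_cancel₀, mul_one]
    exact (map_ne_zero _).2 (hy0 i)
  have hθ0 : ∀ i, 0 ≤ θ i := by
    intro i
    have h1 : ‖y i‖ ^ 2 ≤ 1 := pow_le_one₀ (norm_nonneg _) (hy1 i)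
    have h2 : 1 ≤ (‖y i‖ ^ 2)⁻¹ := (one_le_inv₀ (by have := hn0 i; positivity)).2 h1
    show 0 ≤ (‖y i‖ ^ 2)⁻¹ - 1
    linarith
  have hbn : ∀ i, ‖b i‖ = ‖y i‖⁻¹ := by
    intro i
    rw [hb]
    dsimp only
    rw [RCLike.norm_conj, norm_inv]
  have hσ : ∀ i, ‖((1 - ‖y i‖ ^ 2 : ℝ) : ℂ)‖ = 1 - ‖y i‖ ^ 2 := by
    intro i
    rw [Complex.norm_real, Real.norm_of_nonneg]
    have h1 : ‖y i‖ ^ 2 ≤ 1 := pow_le_one₀ (norm_nonneg _) (hy1 i)
    linarith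
  have hbd : ∀ i, ‖b i * d i‖ = θ i := by
    intro i
    have h0 := (hn0 i).ne'
    show ‖b i * (((1 - ‖y i‖ ^ 2 : ℝ) : ℂ) * b i)‖ = (‖y i‖ ^ 2)⁻¹ - 1
    rw [norm_mul, norm_mul, hσ, hbn]
    field_simp
  have hdn : ∀ i, ‖d i‖ ≤ θ i := by
    intro i
    have h0 := (hn0 i).ne'
    have h1 : 1 ≤ ‖b i‖ := by
      rw [hbn]
      exact (one_le_inv₀ (hn0 i)).2 (hy1 i)
    have h2 : ‖b i * d i‖ = ‖b i‖ * ‖d i‖ := norm_mul _ _
    have h3 : ‖b i‖ * ‖d i‖ = θ i := by rw [← h2, hbd i]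
    rw [← h3]
    exact le_mul_of_one_le_left (norm_nonneg _) h1
  set Θ : ℝ := ∑ i, θ i with hΘ
  have hΘ0 : 0 ≤ Θ := Finset.sum_nonneg fun i _ => hθ0 i
  have hΘT : Θ ≤ T := by
    have h1 := prod_ge Finset.univ θ fun i _ => hθ0 i
    have h2 : ∏ i, (1 + θ i) = ((∏ i, ‖y i‖) ^ 2)⁻¹ := by
      rw [← Finset.prod_pow, ← Finset.prod_inv_distrib]
      refine Finset.prod_congr rfl fun i _ => ?_
      show 1 + ((‖y i‖ ^ 2)⁻¹ - 1) = (‖y i‖ ^ 2)⁻¹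
      ring
    rw [h2] at h1
    rw [hT]
    linarith
  -- the symmetric functions
  have he2 : conj (e2 (fun i => (y i)⁻¹)) = e2 b := by
    unfold e2
    rw [map_div₀, map_sub, map_pow, map_sum, map_sum]
    congr 1
    · congr 1
      refine Finset.sum_congr rfl fun i _ => ?_
      rw [map_pow]
    · exact map_ofNat _ 2
  have he1 : ‖e1 (fun i => (y i)⁻¹)‖ = ‖∑ i, b i‖ := by
    unfold e1
    rw [← RCLike.norm_conj, map_sum]
  have hdiff : e2 y - e2 b = (∑ i, b i * d i) - (∑ i, b i) * (∑ i, d i) + (∑ i, d i) ^ 2 / 2 -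
      (∑ i, d i ^ 2) / 2 := by
    unfold e2
    have h1 : ∑ i, y i = (∑ i, b i) - ∑ i, d i := by
      rw [← Finset.sum_sub_distrib]
      exact Finset.sum_congr rfl fun i _ => hyb i
    have h2 : ∑ i, y i ^ 2 = (∑ i, b i ^ 2) - 2 * (∑ i, b i * d i) + ∑ i, d i ^ 2 := by
      rw [Finset.mul_sum, ← Finset.sum_sub_distrib, ← Finset.sum_add_distrib]
      refine Finset.sum_congr rfl fun i _ => ?_
      rw [hyb i]
      ring
    rw [h1, h2]
    ring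
  rw [he2, he1, hdiff]
  have n1 : ‖∑ i, b i * d i‖ ≤ Θ := by
    refine (norm_sum_le _ _).trans ?_
    exact Finset.sum_le_sum fun i _ => (hbd i).le
  have n2 : ‖∑ i, d i‖ ≤ Θ := by
    refine (norm_sum_le _ _).trans ?_
    exact Finset.sum_le_sum fun i _ => hdn i
  have n3 : ‖∑ i, d i ^ 2‖ ≤ Θ ^ 2 := by
    refine (norm_sum_le _ _).trans (le_trans ?_ (sum_sq Finset.univ θ fun i _ => hθ0 i))
    refine Finset.sum_le_sum fun i _ => ?_
    rw [norm_pow]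
    exact pow_le_pow_left₀ (norm_nonneg _) (hdn i) 2
  set E : ℂ := ∑ i, b i with hE
  set D : ℂ := ∑ i, d i with hD
  have m1 : ‖E * D‖ ≤ ‖E‖ * Θ := by
    rw [norm_mul]
    exact mul_le_mul_of_nonneg_left n2 (norm_nonneg _)
  have m2 : ‖D ^ 2 / 2‖ ≤ Θ ^ 2 / 2 := by
    rw [norm_div, norm_pow, Complex.norm_ofNat]
    have := pow_le_pow_left₀ (norm_nonneg _) n2 2
    linarith
  have m3 : ‖(∑ i, d i ^ 2) / 2‖ ≤ Θ ^ 2 / 2 := by
    rw [norm_div, Complex.norm_ofNat]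
    linarith
  have k1 : ‖(∑ i, b i * d i) - E * D + D ^ 2 / 2 - (∑ i, d i ^ 2) / 2‖ ≤
      Θ + ‖E‖ * Θ + Θ ^ 2 := by
    have a1 := norm_sub_le ((∑ i, b i * d i) - E * D + D ^ 2 / 2) ((∑ i, d i ^ 2) / 2)
    have a2 := norm_add_le ((∑ i, b i * d i) - E * D) (D ^ 2 / 2)
    have a3 := norm_sub_le (∑ i, b i * d i) (E * D)
    linarith
  refine k1.trans ?_
  have k2 : ‖E‖ * Θ ≤ ‖E‖ * T := mul_le_mul_of_nonneg_left hΘT (norm_nonneg _)
  have k3 : Θ ^ 2 ≤ T ^ 2 := pow_le_pow_left₀ hΘ0 hΘT 2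
  linarith

end Pool.Agent.H957.SE.Refl
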