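import Mathlib

set_option autoImplicit false

/-!
# Stability of the power mean inequality `M_{-2} ≤ 1` (MP_f0bc87_an): statements of the pieces

`m` = number of critical points, degree `m + 1`, `0 ≤ a ≤ 1` the distinguished zero, `z j` the other
zeros (`‖z j‖ ≤ 1`), `w k` the critical points.  `e1 w = ∑ w_k`, `e2 w = ((∑ w_k)² - ∑ w_k²) / 2`.
-/

open Polynomial MeasureTheory

namespace Pool.Agent.H957.SE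

/-- first elementary symmetric function -/
noncomputable def e1 {m : ℕ} (w : Fin m → ℂ) : ℂ := ∑ k, w k

/-- second elementary symmetric function -/
noncomputable def e2 {m : ℕ} (w : Fin m → ℂ) : ℂ := ((∑ k, w k) ^ 2 - ∑ k, (w k) ^ 2) / 2

/-- `w` are the critical points of `(X - a) ∏ (X - z_j)` -/
def Crit {m : ℕ} (a : ℝ) (z w : Fin m → ℂ) : Prop :=
  ∀ x : ℂ, (derivative ((X - C (a : ℂ)) * ∏ j, (X - C (z j)))).eval x =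
    (m + 1 : ℂ) * ∏ k, (x - w k)

/-- the integral `A = (m+1) ∫₀¹ ∏ (a t - w_k) dt` -/
noncomputable def A {m : ℕ} (a : ℝ) (w : Fin m → ℂ) : ℂ :=
  (m + 1 : ℂ) * ∫ t in (0:ℝ)..1, ∏ k, ((a : ℂ) * t - w k)

/-- (INT) expansion of `A` to second order in `w` (number of critical points `m + 2`).

PROOF. Step 1 (pointwise, induction on `m`, `Fin.prod_univ_castSucc`, `Fin.sum_univ_castSucc`): for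
every `m` there is `K_m ≥ 0` such that for all `x : ℂ`, `‖x‖ ≤ 1`, `w : Fin (m+2) → ℂ`, `‖w k‖ ≤ M ≤ 1`:
`‖∏ k, (x - w k) - (x^(m+2) - e1 w * x^(m+1) + e2 w * x^m)‖ ≤ K_m * M^3`.
`m = 0`: exact equality (`Fin.prod_univ_two`, ring), `K_0 = 0`. Step: multiply by `x - w'`
(`w' = w (last)`): with `e1' = e1 + w'`, `e2' = e2 + e1 * w'` (ring from the definition) one gets
`∏' - (x^(m+3) - e1' x^(m+2) + e2' x^(m+1)) = R * (x - w') - e2 * w' * x^m`, `‖x - w'‖ ≤ 2`,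
`‖e2‖ ≤ (m+2)^2 * M^2`, so `K_{m+1} = 2 K_m + (m+2)^2` works.
Step 2: put `x = a t`, `t ∈ [0,1]`, integrate (`intervalIntegral.norm_integral_le_of_norm_le_const`
applied to the difference, `intervalIntegral.integral_sub`, `integral_pow` pushed to `ℂ` by
`intervalIntegral.integral_ofReal`): `(m+3) ∫ (a t)^(m+2) = a^(m+2)`,
`(m+3) ∫ (a t)^(m+1) = (m+3)/(m+2) a^(m+1)`, `(m+3) ∫ (a t)^m = (m+3)/(m+1) a^m`.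
So `K = (m+3) K_m`. -/
def StInt : Prop :=
  ∀ m : ℕ, ∃ K : ℝ, 0 ≤ K ∧ ∀ (w : Fin (m + 2) → ℂ) (M : ℝ), 0 ≤ M → M ≤ 1 →
    (∀ k, ‖w k‖ ≤ M) → ∀ a : ℝ, 0 ≤ a → a ≤ 1 →
    ‖A a w - ((a : ℂ) ^ (m + 2) - (m + 3) / (m + 2) * e1 w * (a : ℂ) ^ (m + 1)
      + (m + 3) / (m + 1) * e2 w * (a : ℂ) ^ m)‖ ≤ K * M ^ 3

/-- (CEN) centre test with equality: `|A| = ∏ |z_j|`.

PROOF. `P = (X - a) ∏ (X - z_j)`. The function `t ↦ P.eval (a * t)` on `[0,1]` has derivative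
`a * P'.eval (a t) = a * (m+1) * ∏ (a t - w_k)` (Crit), so by
`intervalIntegral.integral_eq_sub_of_hasDerivAt`: `a * A a w = P.eval a - P.eval 0 = - P.eval 0
= a * ∏ (- z_j)`; cancel `a ≠ 0` and take norms. -/
def StCen : Prop :=
  ∀ (m : ℕ) (a : ℝ), 0 < a → ∀ z w : Fin m → ℂ, Crit a z w → ‖A a w‖ = ∏ j, ‖z j‖

/-- (SUM) the sum of the critical points is small.

PROOF. `n = m + 3`, `P = (X - a) ∏ (X - z_j)` monic of degree `n`.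
(i) comparing the coefficients of `x^(n-2)` in `P' = n ∏ (X - w_k)` (from Crit by
`Polynomial.funext`; `Polynomial.multiset_prod_X_sub_C_nextCoeff` / `prod_X_sub_C_nextCoeff`,
`coeff_derivative`): `(n-1) (a + ∑ z_j) = n * e1 w`.
(ii) `P'(0) / P(0) = -(1/a + ∑ 1/z_j)` (all `z_j ≠ 0` because the product is `≥ 1/2`), where
`‖P'(0)‖ = n ∏ ‖w_k‖ ≤ n M^2` (`m + 2 ≥ 2` factors `≤ M ≤ 1`) and `‖P(0)‖ = a ∏ ‖z_j‖ ≥ 1/4`; hence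
`‖1/a + ∑ 1/z_j‖ ≤ 4 n M^2`.
(iii) `‖z - conj (1/z)‖ = (1 - ‖z‖^2)/‖z‖ ≤ 3 (1 - ‖z‖)` for `1/2 ≤ ‖z‖ ≤ 1`, and
`1 - ‖z_j‖ ≤ 1 - ∏ ‖z_i‖`, `‖z_j‖ ≥ ∏ ‖z_i‖ ≥ 1/2` (a product of numbers in `[0,1]` is at most each
factor); also `|a - 1/a| ≤ 3 (1 - a)`.
(iv) `‖a + ∑ z_j‖ ≤ ‖conj (1/a + ∑ 1/z_j)‖ + |a - 1/a| + ∑ ‖z_j - conj (1/z_j)‖
≤ 4 n M^2 + 3 (1-a) + 3 (m+2) (1 - ∏ ‖z‖)` and `‖e1‖ = (n-1)/n ‖a + ∑ z_j‖ ≤ ‖a + ∑ z_j‖`. -/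
def StSum : Prop :=
  ∀ (m : ℕ) (a : ℝ), 1 / 2 ≤ a → a ≤ 1 → ∀ (z w : Fin (m + 2) → ℂ) (M : ℝ), 0 ≤ M → M ≤ 1 →
    (∀ k, ‖w k‖ ≤ M) → (∀ j, ‖z j‖ ≤ 1) → 1 / 2 ≤ ∏ j, ‖z j‖ → Crit a z w →
    ‖e1 w‖ ≤ 3 * (1 - a) + 4 * (m + 2) * (1 - ∏ j, ‖z j‖) + 4 * (m + 3) * M ^ 2

/-- (TERM) second order lower bound for `|a - w|^{-s}` (`K` is a numerical constant, e.g. `K = 1000`).

PROOF. Put `ε = 1 - a ∈ [0,1/8]`, `u = w.re`, `h = ‖w - a‖^2 - 1 = -2 ε + ε^2 - 2 u + 2 ε u + ‖w‖^2`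
(so `|h| ≤ 1/2`, `|h| ≤ 3 (ε + ‖w‖)`), `r = s/2 ∈ (0,1]`. Then `‖w - a‖⁻¹ ^ s = (1 + h)^(-r)`.
(i) `(1 + h)^(-r) ≥ 1 - r h + r (r+1)/2 h^2 - C |h|^3` for `|h| ≤ 1/2`, `0 < r ≤ 1`: e.g. from
`exp x ≥ 1 + x + x^2/2 - |x|^3` (`|x| ≤ 1`) with `x = -r log (1+h)` and
`|log (1+h) - (h - h^2/2)| ≤ 2 |h|^3` (`Real.abs_log_sub_add_sum_range_le` at `-h`, or
monotonicity of the difference).
(ii) `-r h = s ε + s u - (s/2) ‖w‖^2 - (s/2) ε^2 - s ε u`, and `h = -2 u + g`,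
`|g| ≤ 2 ε + ε^2 + 2 ε ‖w‖ + ‖w‖^2`, so
`h^2 ≥ 4 u^2 - 4 |u| |g| ≥ 4 u^2 - 4 ‖w‖ (2 ε + ε^2 + 2 ε ‖w‖ + ‖w‖^2)`,
and `r (r+1)/2 = s (s+2)/8`, `0 ≤ s (s+2)/8 ≤ 1`.
(iii) main terms: `-(s/2) ‖w‖^2 + s (s+2)/2 u^2 = (s/2) Re (w^2) + (s^2/2) u^2` because
`‖w‖^2 = u^2 + v^2`, `Re (w^2) = u^2 - v^2`. (iv) `|h|^3 ≤ 27 (ε + ‖w‖)^3 ≤
200 (‖w‖^3 + ε ‖w‖ + ε^2)` as `ε, ‖w‖ ≤ 1/8`. -/
def StTerm : Prop :=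
  ∃ K : ℝ, 0 ≤ K ∧ ∀ (s : ℝ), 0 < s → s ≤ 2 → ∀ (a : ℝ) (w : ℂ), 7 / 8 ≤ a → a ≤ 1 →
    ‖w‖ ≤ 1 / 8 →
    1 + s * (1 - a) + s * w.re + s / 2 * (w ^ 2).re + s ^ 2 / 2 * w.re ^ 2
      - K * (‖w‖ ^ 3 + (1 - a) * ‖w‖ + (1 - a) ^ 2) ≤ ‖w - (a : ℂ)‖⁻¹ ^ s

/-- (LOC) the local theorem: near `z^n - 1` all exponents `s > 1 / (n - 2)` are admissible, with a
remainder (number of critical points `m + 2 = n - 1`) -/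
def StLoc : Prop :=
  ∀ (m : ℕ) (s : ℝ), 0 < s → 1 < s * (m + 1) → s ≤ 2 → ∃ δ c : ℝ, 0 < δ ∧ 0 < c ∧
    ∀ (a : ℝ) (z w : Fin (m + 2) → ℂ), 1 - δ ≤ a → a ≤ 1 → (∀ j, ‖z j‖ ≤ 1) → Crit a z w →
      (∀ k, ‖w k‖ ≤ δ) →
      ((m + 2 : ℕ) : ℝ) + c * ((1 - a) + ∑ k, ‖w k‖ ^ 2) ≤ ∑ k, ‖w k - (a : ℂ)‖⁻¹ ^ s

/-- (COM) the global theorem for a real distinguished zero -/
def StCom : Prop :=
  ∀ m : ℕ, ∃ s₀ c : ℝ, 1 < s₀ ∧ s₀ < 2 ∧ 0 < c ∧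
    ∀ (a : ℝ) (z w : Fin (m + 2) → ℂ), 0 ≤ a → a ≤ 1 → (∀ j, ‖z j‖ ≤ 1) → Crit a z w →
      (∃ k, w k = (a : ℂ)) ∨
      ((m + 2 : ℕ) : ℝ) + c * ((1 - a) + ∑ k, ‖w k‖ ^ 2) ≤ ∑ k, ‖w k - (a : ℂ)‖⁻¹ ^ s₀

/-- (ONE) degree two.

PROOF. `P = (X - a) (X - z)`, `P' = 2 X - (a + z) = 2 (X - w)`, so `w = (a + z)/2` (evaluate Crit at
two points, or at `x = w`). By the parallelogram law `‖z - a‖^2 + ‖z + a‖^2 = 2 ‖z‖^2 + 2 a^2 ≤ 2 + 2 a^2`,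
hence with `y = ‖w - a‖ = ‖z - a‖/2`: `y^2 ≤ (1 + a^2)/2 - ‖w‖^2`, i.e.
`1 - y^2 ≥ (1 - a^2)/2 + ‖w‖^2 ≥ (1 - a)/2 + ‖w‖^2`. If `y = 0` then `w = a`. Otherwise
`y⁻¹ ^ s = exp (-(s/2) log (y^2)) ≥ 1 - (s/2) log (y^2) ≥ 1 + (s/2) (1 - y^2)`
(`Real.add_one_le_exp`, `Real.log_le_sub_one_of_pos`). -/
def StOne : Prop :=
  ∀ (s : ℝ), 0 < s → ∀ (a : ℝ) (z w : Fin 1 → ℂ), 0 ≤ a → a ≤ 1 → (∀ j, ‖z j‖ ≤ 1) →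
    Crit a z w →
      (∃ k, w k = (a : ℂ)) ∨
      (1 : ℝ) + s / 4 * ((1 - a) + ∑ k, ‖w k‖ ^ 2) ≤ ∑ k, ‖w k - (a : ℂ)‖⁻¹ ^ s

end Pool.Agent.H957.SE
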