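import Mathlib

set_option autoImplicit false

/-!
# The geometric mean is not admissible near `z^n - 1`: statement
-/

open Polynomial

namespace Pool.Agent.H957.SE

/-- (GEO) arbitrarily close to `z^n - 1`, `n ≥ 3`, the geometric mean of the distances from the zero
`1` to the critical points is larger than one.

PROOF. Let `ζ = exp (2 π i / n)`, `c = cos (2 π / n) = Re ζ ∈ (-1, 1)` (for `n ≥ 3`), and
`D = (X - ζ)(X - conj ζ) = X^2 - 2 c X + 1`. `ζ ≠ conj ζ` are zeros of `X^n - 1`, so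
`D ∣ X^n - 1` (coprime linear factors, `IsCoprime.mul_dvd`), `X^n - 1 = q D`; `q` is monic of degree
`n - 2`, `q(1) D(1) = 0`, `D(1) = 2 - 2 c > 0`, so `q(1) = 0`; differentiating at `1`:
`n = q'(1) D(1)`, `q'(1) = n/(2 - 2 c)`.
For small `b > 0` (`b ≤ 1 + c`) let `D_b = D + 2 b X = X^2 - 2 (c - b) X + 1`; since
`c - b ∈ [-1, 1)` its zeros have modulus one (a zero `x` satisfies `x^2 - 2 r x + 1 = 0`, `r = c - b`
real, `|r| ≤ 1`: so `x = r ± i √(1 - r^2)`; or: `(x - r)^2 = -(1 - r^2)`). Put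
`p = q D_b = X^n - 1 + 2 b X q`. It is monic of degree `n`, its zeros are zeros of `X^n - 1` or of
`D_b`, hence of modulus one, `p(1) = 0`, `p'(1) = n + 2 b (q(1) + q'(1)) = n (1 + b/(1 - c)) ≠ 0`, and
`∏ ‖w - 1‖ = ‖p'(1)‖/n = 1 + b/(1 - c) > 1` (`p' = n ∏ (X - w)`,
`IsAlgClosed.splits`, `Polynomial.Splits.eq_prod_roots`, leading coefficient `n`).
The critical points satisfy `‖w‖ ≤ 1` (Gauss-Lucas,
`Polynomial.rootSet_derivative_subset_convexHull_rootSet`), and `0 = p'(w) = n w^(n-1) + 2 b (X q)'(w)`,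
so `‖w‖^(n-1) ≤ 2 b B/n` with `B = sup_{‖x‖ ≤ 1} ‖(X q)'(x)‖` (compactness,
`IsCompact.exists_bound_of_continuousOn`), hence `‖w‖^2 ≤ δ/n` for all `w` if `b` is small
(`2 b B / n ≤ (min 1 √(δ/n))^(n-1)`), and `∑ ‖w‖^2 ≤ δ` (`n - 1` critical points). -/
def StGeo : Prop :=
  ∀ n : ℕ, 3 ≤ n → ∀ δ : ℝ, 0 < δ → ∃ p : ℂ[X], p.natDegree = n ∧ p.Monic ∧
    (∀ z ∈ p.roots, ‖z‖ ≤ 1) ∧ (1 : ℂ) ∈ p.roots ∧ (1 : ℂ) ∉ (derivative p).roots ∧
    ((derivative p).roots.map (fun w : ℂ => ‖w‖ ^ 2)).sum ≤ δ ∧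
    1 < ((derivative p).roots.map (fun w : ℂ => ‖w - 1‖)).prod

end Pool.Agent.H957.SE
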