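import Pool.Agent.H957.SE.Stm2

set_option autoImplicit false

open Polynomial

namespace Pool.Agent.H957.SE.Three

theorem main : Pool.Agent.H957.SE.StThree := by
  intro s hs hs1 δ hδ
  obtain ⟨η, hη0, hη1, hηδ⟩ : ∃ η : ℝ, 0 < η ∧ η ≤ 1 / 2 ∧ η ≤ δ :=
    ⟨min (1 / 2) δ, by positivity, min_le_left _ _, min_le_right _ _⟩
  -- the square roots
  have hr0 : (0 : ℝ) ≤ 4 - (1 + η) ^ 2 := by nlinarith
  set r : ℝ := Real.sqrt (4 - (1 + η) ^ 2) with hr
  have hr2 : r ^ 2 = 4 - (1 + η) ^ 2 := Real.sq_sqrt hr0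
  have hq0 : (0 : ℝ) < η ^ 2 + 3 * η := by positivity
  set q : ℝ := Real.sqrt (η ^ 2 + 3 * η) with hq
  have hq2 : q ^ 2 = η ^ 2 + 3 * η := Real.sq_sqrt hq0.le
  have hqpos : 0 < q := Real.sqrt_pos.mpr hq0
  have hq3 : q < 3 := by
    rw [hq, Real.sqrt_lt' (by norm_num)]
    nlinarith
  set z1 : ℂ := ⟨-(1 + η) / 2, r / 2⟩ with hz1
  set z2 : ℂ := ⟨-(1 + η) / 2, -(r / 2)⟩ with hz2
  have hn1 : ‖z1‖ ≤ 1 := by
    have h : ‖z1‖ ^ 2 = 1 := by
      rw [← Complex.normSq_eq_norm_sq, Complex.normSq_apply, hz1]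
      simp only
      nlinarith
    nlinarith [norm_nonneg z1]
  have hn2 : ‖z2‖ ≤ 1 := by
    have h : ‖z2‖ ^ 2 = 1 := by
      rw [← Complex.normSq_eq_norm_sq, Complex.normSq_apply, hz2]
      simp only
      nlinarith
    nlinarith [norm_nonneg z2]
  have hsum : z1 + z2 = -(1 + (η : ℂ)) := by
    apply Complex.ext
    · rw [hz1, hz2]; simp only [Complex.add_re, Complex.neg_re, Complex.one_re, Complex.ofReal_re]; ring
    · rw [hz1, hz2]; simp
  have hprod : z1 * z2 = 1 := by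
    apply Complex.ext
    · rw [hz1, hz2]; simp only [Complex.mul_re, Complex.one_re]; nlinarith
    · rw [hz1, hz2]; simp only [Complex.mul_im, Complex.one_im]; ring
  set w1 : ℝ := (-η + q) / 3 with hw1
  set w2 : ℝ := (-η - q) / 3 with hw2
  set p : ℂ[X] := X ^ 3 + C (η : ℂ) * X ^ 2 - C (η : ℂ) * X - 1 with hp
  have hfac : p = (X - C 1) * ((X - C z1) * (X - C z2)) := by
    have e : (X - C z1) * (X - C z2) = X ^ 2 + C (1 + (η : ℂ)) * X + 1 := by
      have : (X - C z1) * (X - C z2) = X ^ 2 - C (z1 + z2) * X + C (z1 * z2) := by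
        rw [C_add, C_mul]; ring
      rw [this, hsum, hprod, C_neg]
      simp only [C_1]
      ring
    rw [e, hp, C_add]
    simp only [C_1]
    ring
  have hder : derivative p = C 3 * ((X - C (w1 : ℂ)) * (X - C (w2 : ℂ))) := by
    have hsw : (w1 : ℂ) + w2 = -(2 * (η : ℂ)) / 3 := by
      rw [hw1, hw2]; push_cast; ring
    have hpw : (w1 : ℂ) * w2 = -(η : ℂ) / 3 := by
      have : w1 * w2 = -η / 3 := by rw [hw1, hw2]; nlinarith
      exact_mod_cast this
    have e : (X - C (w1 : ℂ)) * (X - C (w2 : ℂ)) =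
        X ^ 2 - C ((w1 : ℂ) + w2) * X + C ((w1 : ℂ) * w2) := by
      rw [C_add, C_mul]; ring
    rw [e, hsw, hpw]
    have e2 : (C (3 : ℂ) : ℂ[X]) * (X ^ 2 - C (-(2 * (η : ℂ)) / 3) * X + C (-(η : ℂ) / 3)) =
        C 3 * X ^ 2 + C (2 * (η : ℂ)) * X - C (η : ℂ) := by
      have h1 : (C (3 : ℂ) : ℂ[X]) * C (-(2 * (η : ℂ)) / 3) = - C (2 * (η : ℂ)) := by
        rw [← C_mul, ← C_neg]; congr 1; ring
      have h2 : (C (3 : ℂ) : ℂ[X]) * C (-(η : ℂ) / 3) = - C (η : ℂ) := by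
        rw [← C_mul, ← C_neg]; congr 1; ring
      rw [mul_add, mul_sub, ← mul_assoc (C 3) (C _) X, h1, h2]
      ring
    rw [e2, hp]
    simp only [derivative_sub, derivative_add, derivative_X_pow, derivative_C_mul, derivative_X,
      derivative_one, Nat.cast_ofNat]
    rw [C_mul]
    have h3 : (C (2 : ℂ) : ℂ[X]) = 2 := rfl
    have h4 : (C (3 : ℂ) : ℂ[X]) = 3 := rfl
    rw [h3, h4]
    norm_num
    ring
  have hder_roots : (derivative p).roots = {(w1 : ℂ), (w2 : ℂ)} := by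
    rw [hder, roots_C_mul _ (by norm_num : (3 : ℂ) ≠ 0), roots_mul, roots_X_sub_C, roots_X_sub_C]
    · rfl
    · exact mul_ne_zero (X_sub_C_ne_zero _) (X_sub_C_ne_zero _)
  have hp_roots : p.roots = {1, z1, z2} := by
    rw [hfac, roots_mul, roots_mul, roots_X_sub_C, roots_X_sub_C, roots_X_sub_C]
    · rfl
    · exact mul_ne_zero (X_sub_C_ne_zero _) (X_sub_C_ne_zero _)
    · exact mul_ne_zero (X_sub_C_ne_zero _)
        (mul_ne_zero (X_sub_C_ne_zero _) (X_sub_C_ne_zero _))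
  have hw1lt : w1 < 1 := by rw [hw1]; linarith
  have hw2lt : w2 < 1 := by rw [hw2]; linarith
  have hne : w1 ≠ w2 := by rw [hw1, hw2]; intro h; linarith
  refine ⟨p, ?_, ?_, ?_, ?_, ?_, ?_, ?_⟩
  · rw [hfac]
    rw [natDegree_mul (X_sub_C_ne_zero _) (mul_ne_zero (X_sub_C_ne_zero _) (X_sub_C_ne_zero _)),
      natDegree_mul (X_sub_C_ne_zero _) (X_sub_C_ne_zero _), natDegree_X_sub_C, natDegree_X_sub_C,
      natDegree_X_sub_C]
  · rw [hfac]
    exact (monic_X_sub_C _).mul ((monic_X_sub_C _).mul (monic_X_sub_C _))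
  · intro z hz
    rw [hp_roots] at hz
    simp only [Multiset.insert_eq_cons, Multiset.mem_cons, Multiset.mem_singleton] at hz
    rcases hz with h | h | h
    · rw [h, norm_one]
    · rw [h]; exact hn1
    · rw [h]; exact hn2
  · rw [hp_roots]; simp
  · rw [hder_roots]
    simp only [Multiset.insert_eq_cons, Multiset.mem_cons, Multiset.mem_singleton, not_or]
    constructor
    · intro h
      have : (1 : ℝ) = w1 := by exact_mod_cast h
      linarith
    · intro h
      have : (1 : ℝ) = w2 := by exact_mod_cast h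
      linarith
  · rw [hder_roots]
    simp only [Multiset.insert_eq_cons, Multiset.map_cons, Multiset.map_singleton,
      Multiset.sum_cons, Multiset.sum_singleton]
    rw [Complex.norm_real, Complex.norm_real, Real.norm_eq_abs, Real.norm_eq_abs, sq_abs, sq_abs]
    have : w1 ^ 2 + w2 ^ 2 = (4 * η ^ 2 + 6 * η) / 9 := by rw [hw1, hw2]; nlinarith
    rw [this]
    nlinarith
  · rw [hder_roots]
    simp only [Multiset.insert_eq_cons, Multiset.map_cons, Multiset.map_singleton,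
      Multiset.sum_cons, Multiset.sum_singleton]
    have hnorm : ∀ w : ℝ, w < 1 → ‖(w : ℂ) - 1‖⁻¹ = (1 - w)⁻¹ := by
      intro w hw
      have : (w : ℂ) - 1 = ((w - 1 : ℝ) : ℂ) := by push_cast; ring
      rw [this, Complex.norm_real, Real.norm_eq_abs, abs_sub_comm, abs_of_pos (by linarith)]
    rw [hnorm w1 hw1lt, hnorm w2 hw2lt]
    set u1 : ℝ := (1 - w1)⁻¹ with hu1
    set u2 : ℝ := (1 - w2)⁻¹ with hu2
    have h1 : 0 < 1 - w1 := by linarith
    have h2 : 0 < 1 - w2 := by linarith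
    have hu1p : 0 < u1 := inv_pos.mpr h1
    have hu2p : 0 < u2 := inv_pos.mpr h2
    have hs2 : u1 + u2 = 2 := by
      rw [hu1, hu2, inv_eq_one_div, inv_eq_one_div, div_add_div _ _ h1.ne' h2.ne',
        div_eq_iff (mul_ne_zero h1.ne' h2.ne'), hw1, hw2]
      nlinarith
    have hune : u1 ≠ u2 := by
      intro h
      rw [hu1, hu2, inv_inj] at h
      apply hne; linarith
    have hcc := (Real.strictConcaveOn_rpow hs hs1).2 (Set.mem_Ici.mpr hu1p.le)
      (Set.mem_Ici.mpr hu2p.le) hune (by norm_num : (0 : ℝ) < 1 / 2) (by norm_num : (0 : ℝ) < 1 / 2)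
      (by norm_num)
    simp only [smul_eq_mul] at hcc
    have e : 1 / 2 * u1 + 1 / 2 * u2 = 1 := by linarith
    rw [e, Real.one_rpow] at hcc
    linarith

end Pool.Agent.H957.SE.Three
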