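import Pool.Agent.H957.SE.Gen
import Pool.Agent.Results.MP_f0bc87_an.ThresholdExponent

set_option autoImplicit false

/-!
# One exponent below two for all degrees

`Pr N s`: the inequality with remainder holds for the exponent `s` and `N` critical points.
-/

open Polynomial Filter Topology

namespace Pool.Agent.H957.SE.Uni

open Pool.Agent.H957.SE Pool.Agent.H957.SE.Com

/-- no sequence of counterexamples with exponents `σ i → t`, if there is rigidity for `t` -/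
theorem noSeq (m : ℕ) (σ : ℕ → ℝ) (t t₁ : ℝ) (hσt : Tendsto σ atTop (𝓝 t)) (h1t : 1 < t₁)
    (ht2 : t₁ ≤ 2) (hσ : ∀ i, t₁ ≤ σ i)
    (hrig : ∀ (a : ℝ) (z w : Fin (m + 2) → ℂ), 0 ≤ a → a ≤ 1 → (∀ j, ‖z j‖ ≤ 1) → Crit a z w →
      (∀ k, w k ≠ (a : ℂ)) → ∑ k, ‖w k - (a : ℂ)‖⁻¹ ^ t ≤ ((m + 2 : ℕ) : ℝ) →
      a = 1 ∧ ∀ k, w k = 0)
    (hseq : ∀ i : ℕ, ∃ (a : ℝ) (z w : Fin (m + 2) → ℂ), 0 ≤ a ∧ a ≤ 1 ∧ (∀ j, ‖z j‖ ≤ 1) ∧
      Crit a z w ∧ (∀ k, w k ≠ (a : ℂ)) ∧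
      ∑ k, ‖w k - (a : ℂ)‖⁻¹ ^ (σ i) <
        ((m + 2 : ℕ) : ℝ) + 1 / ((i : ℝ) + 1) * ((1 - a) + ∑ k, ‖w k‖ ^ 2)) : False := by
  choose a z w ha0 ha1 hz hcrit hne hlt using hseq
  have hwn : ∀ i k, ‖w i k‖ ≤ 1 := fun i k => crit_norm (ha0 i) (ha1 i) (hz i) (hcrit i) k
  -- compactness
  have hcomp : IsCompact ((Set.Icc (0:ℝ) 1) ×ˢ ((Set.pi Set.univ fun _ : Fin (m + 2) =>
      Metric.closedBall (0:ℂ) 1) ×ˢ (Set.pi Set.univ fun _ : Fin (m + 2) =>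
      Metric.closedBall (0:ℂ) 1))) := by
    refine isCompact_Icc.prod (IsCompact.prod ?_ ?_)
    · exact isCompact_univ_pi fun _ => isCompact_closedBall _ _
    · exact isCompact_univ_pi fun _ => isCompact_closedBall _ _
  obtain ⟨⟨a', z', w'⟩, hmem, φ, hφ, hlim⟩ := hcomp.tendsto_subseq
    (x := fun i => (a i, z i, w i)) (fun i => by
      refine ⟨⟨ha0 i, ha1 i⟩, ?_, ?_⟩
      · intro j _; simpa using hz i j
      · intro j _; simpa using hwn i j)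
  obtain ⟨⟨ha0', ha1'⟩, hz', -⟩ := hmem
  have hz'' : ∀ j, ‖z' j‖ ≤ 1 := fun j => by simpa using hz' j (Set.mem_univ j)
  have hla : Tendsto (fun i => a (φ i)) atTop (𝓝 a') :=
    ((continuous_fst.tendsto _).comp hlim)
  have hlz : Tendsto (fun i => z (φ i)) atTop (𝓝 z') :=
    ((continuous_fst.comp continuous_snd).tendsto _).comp hlim
  have hlw : Tendsto (fun i => w (φ i)) atTop (𝓝 w') :=
    ((continuous_snd.comp continuous_snd).tendsto _).comp hlim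
  have hcrit' : Crit a' z' w' := crit_closed hla hlz hlw fun i => hcrit (φ i)
  have hlwk : ∀ k, Tendsto (fun i => w (φ i) k) atTop (𝓝 (w' k)) := fun k =>
    (tendsto_pi_nhds.1 hlw) k
  have hlac : Tendsto (fun i => ((a (φ i) : ℝ) : ℂ)) atTop (𝓝 (a' : ℂ)) :=
    (Complex.continuous_ofReal.tendsto a').comp hla
  have hld : ∀ k, Tendsto (fun i => ‖w (φ i) k - (a (φ i) : ℂ)‖) atTop
      (𝓝 ‖w' k - (a' : ℂ)‖) := fun k => ((hlwk k).sub hlac).norm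
  -- bound of the sums
  obtain ⟨X, hX⟩ : ∃ X : ℕ → ℝ, ∀ i, X i = (1 - a i) + ∑ k, ‖w i k‖ ^ 2 := ⟨_, fun i => rfl⟩
  have hX0 : ∀ i, 0 ≤ X i := by
    intro i
    rw [hX]
    have := ha1 i
    have h2 : 0 ≤ ∑ k, ‖w i k‖ ^ 2 := Finset.sum_nonneg fun _ _ => sq_nonneg _
    linarith
  have hXB : ∀ i, X i ≤ (m : ℝ) + 3 := by
    intro i
    rw [hX]
    have := ha0 i
    have h2 : ∑ k, ‖w i k‖ ^ 2 ≤ ∑ _k : Fin (m + 2), (1 : ℝ) :=
      Finset.sum_le_sum fun k _ => pow_le_one₀ (norm_nonneg _) (hwn i k)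
    simp only [Finset.sum_const, Finset.card_univ, Fintype.card_fin, nsmul_eq_mul, mul_one] at h2
    push_cast at h2
    linarith
  have hlt' : ∀ i, ∑ k, ‖w i k - (a i : ℂ)‖⁻¹ ^ (σ i) <
      ((m + 2 : ℕ) : ℝ) + 1 / ((i : ℝ) + 1) * X i := by
    intro i; rw [hX]; exact hlt i
  have hB : ∀ i k, ((2 * m + 5 : ℝ))⁻¹ ≤ ‖w i k - (a i : ℂ)‖ := by
    intro i k
    have hpos : 0 < ‖w i k - (a i : ℂ)‖ := norm_pos_iff.2 (sub_ne_zero.2 (hne i k))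
    have hm0 : (0 : ℝ) ≤ m := Nat.cast_nonneg m
    have hi : (0 : ℝ) ≤ i := Nat.cast_nonneg i
    rw [inv_le_comm₀ (by positivity) hpos]
    by_contra hc
    push Not at hc
    have h1 : ‖w i k - (a i : ℂ)‖⁻¹ ^ (σ i) ≤
        ∑ k, ‖w i k - (a i : ℂ)‖⁻¹ ^ (σ i) :=
      Finset.single_le_sum (f := fun k => ‖w i k - (a i : ℂ)‖⁻¹ ^ (σ i))
        (fun _ _ => by positivity) (Finset.mem_univ k)
    have h2 : 1 / ((i : ℝ) + 1) * X i ≤ 1 * ((m : ℝ) + 3) := by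
      apply mul_le_mul _ (hXB i) (hX0 i) (by norm_num)
      rw [div_le_one (by positivity)]; linarith
    have h3 := hσ i
    have h4 : ‖w i k - (a i : ℂ)‖⁻¹ ^ (1 : ℝ) ≤
        ‖w i k - (a i : ℂ)‖⁻¹ ^ (σ i) :=
      Real.rpow_le_rpow_of_exponent_le (by linarith) (by linarith)
    rw [Real.rpow_one] at h4
    have h5 := hlt' i
    push_cast at h5
    linarith
  have hB' : ∀ k, ((2 * m + 5 : ℝ))⁻¹ ≤ ‖w' k - (a' : ℂ)‖ := fun k =>
    ge_of_tendsto (hld k) (Eventually.of_forall fun i => hB (φ i) k)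
  have hne' : ∀ k, w' k ≠ (a' : ℂ) := by
    intro k hk
    have := hB' k
    rw [hk, sub_self, norm_zero] at this
    have h2 : (0 : ℝ) < (2 * (m : ℝ) + 5)⁻¹ := by positivity
    linarith
  -- limit of the sums
  have hexp : Tendsto (fun i : ℕ => σ (φ i)) atTop (𝓝 t) := hσt.comp hφ.tendsto_atTop
  have hcoef : Tendsto (fun i : ℕ => 1 / (((φ i : ℕ) : ℝ) + 1)) atTop (𝓝 0) := by
    have h1 : Tendsto (fun i : ℕ => ((φ i : ℕ) : ℝ) + 1) atTop atTop :=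
      tendsto_atTop_add_const_right _ _ (tendsto_natCast_atTop_atTop.comp hφ.tendsto_atTop)
    exact (tendsto_const_nhds (x := (1:ℝ))).div_atTop h1
  have hsum : Tendsto (fun i => ∑ k, ‖w (φ i) k - (a (φ i) : ℂ)‖⁻¹ ^
      (σ (φ i))) atTop (𝓝 (∑ k, ‖w' k - (a' : ℂ)‖⁻¹ ^ t)) := by
    refine tendsto_finsetSum _ fun k _ => ?_
    have hpos : 0 < ‖w' k - (a' : ℂ)‖ := norm_pos_iff.2 (sub_ne_zero.2 (hne' k))
    exact ((hld k).inv₀ hpos.ne').rpow hexp (Or.inl (inv_pos.2 hpos).ne')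
  have hle : ∑ k, ‖w' k - (a' : ℂ)‖⁻¹ ^ t ≤ ((m + 2 : ℕ) : ℝ) := by
    have h1 : Tendsto (fun i => ((m + 2 : ℕ) : ℝ) + 1 / (((φ i : ℕ) : ℝ) + 1) * ((m : ℝ) + 3))
        atTop (𝓝 (((m + 2 : ℕ) : ℝ) + 0 * ((m : ℝ) + 3))) :=
      (hcoef.mul_const _).const_add _
    rw [zero_mul, add_zero] at h1
    refine le_of_tendsto_of_tendsto' hsum h1 fun i => ?_
    refine (hlt' (φ i)).le.trans ?_
    have h2 : 0 ≤ 1 / (((φ i : ℕ) : ℝ) + 1) := by positivity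
    have := mul_le_mul_of_nonneg_left (hXB (φ i)) h2
    linarith
  obtain ⟨ha1'', hw0⟩ : a' = 1 ∧ ∀ k, w' k = 0 := hrig a' z' w' ha0' ha1' hz'' hcrit' hne' hle
  -- the local theorem
  obtain ⟨δ, c, hδ, hc, hloc⟩ := Gen.loc m t₁ (by linarith)
    (by
      have : (0 : ℝ) ≤ m := Nat.cast_nonneg m
      nlinarith) ht2
  have ev1 : ∀ᶠ i in atTop, 1 - δ ≤ a (φ i) := by
    rw [ha1''] at hla
    exact (hla.eventually (lt_mem_nhds (by linarith : 1 - δ < 1))).mono fun i hi => hi.le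
  have ev2 : ∀ᶠ i in atTop, ∀ k, ‖w (φ i) k‖ ≤ δ := by
    rw [eventually_all]
    intro k
    have h1 := (hlwk k).norm
    rw [hw0 k, norm_zero] at h1
    exact (h1.eventually (gt_mem_nhds hδ)).mono fun i hi => hi.le
  have ev3 : ∀ᶠ i in atTop, 1 / (((φ i : ℕ) : ℝ) + 1) ≤ c :=
    (hcoef.eventually (gt_mem_nhds hc)).mono fun i hi => hi.le
  obtain ⟨i, h1, h2, h3⟩ := (ev1.and (ev2.and ev3)).exists
  have h4 := hloc (a (φ i)) (z (φ i)) (w (φ i)) h1 (ha1 _) (hz _) (hcrit _) h2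
  rw [← hX] at h4
  have h5 : t₁ ≤ σ (φ i) := hσ (φ i)
  have h6 := sum_bern (fun k => ‖w (φ i) k - (a (φ i) : ℂ)‖⁻¹) (fun k => by positivity)
    (by linarith : (0:ℝ) < t₁) h5 (hX0 _) hc.le h4
  have h7 := hlt' (φ i)
  have h8 := mul_le_mul_of_nonneg_right h3 (hX0 (φ i))
  linarith

/-- the inequality with remainder for the exponent `s` and `N` critical points -/
def Pr (N : ℕ) (s : ℝ) : Prop :=
  ∃ c : ℝ, 0 < c ∧ ∀ (a : ℝ) (z w : Fin N → ℂ), 0 ≤ a → a ≤ 1 → (∀ j, ‖z j‖ ≤ 1) → Crit a z w →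
    (∃ k, w k = (a : ℂ)) ∨
    (N : ℝ) + c * ((1 - a) + ∑ k, ‖w k‖ ^ 2) ≤ ∑ k, ‖w k - (a : ℂ)‖⁻¹ ^ s

lemma Pr_mono {N : ℕ} {s s' : ℝ} (hs : 0 < s) (hss : s ≤ s') (h : Pr N s) : Pr N s' := by
  obtain ⟨c, hc, H⟩ := h
  refine ⟨c, hc, fun a z w ha0 ha1 hz hcrit => ?_⟩
  rcases H a z w ha0 ha1 hz hcrit with h | h
  · exact Or.inl h
  · refine Or.inr ?_
    have h2 : 0 ≤ ∑ k, ‖w k‖ ^ 2 := Finset.sum_nonneg fun _ _ => sq_nonneg _
    exact Com.sum_bern (fun k => ‖w k - (a : ℂ)‖⁻¹) (fun k => by positivity) hs hss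
      (by linarith) hc.le h

lemma Pr_small (N : ℕ) (hN : 1 ≤ N) : ∃ s : ℝ, 1 < s ∧ s < 2 ∧ Pr N s := by
  rcases Nat.lt_or_ge 1 N with h | h
  · obtain ⟨m, rfl⟩ : ∃ m, N = m + 2 := ⟨N - 2, by omega⟩
    obtain ⟨s₀, c, h1, h2, hc, H⟩ := Gen.com m
    exact ⟨s₀, h1, h2, c, hc, H⟩
  · obtain rfl : N = 1 := by omega
    refine ⟨3 / 2, by norm_num, by norm_num, (3 / 2) / 4, by norm_num, ?_⟩
    intro a z w ha0 ha1 hz hcrit
    rw [Nat.cast_one]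
    exact One.main (3 / 2) (by norm_num) a z w ha0 ha1 hz hcrit

lemma Pr_of_rigid (m : ℕ) {t : ℝ} (ht1 : 1 < t) (ht2 : t ≤ 2)
    (hrig : ∀ (a : ℝ) (z w : Fin (m + 2) → ℂ), 0 ≤ a → a ≤ 1 → (∀ j, ‖z j‖ ≤ 1) → Crit a z w →
      (∀ k, w k ≠ (a : ℂ)) → ∑ k, ‖w k - (a : ℂ)‖⁻¹ ^ t ≤ ((m + 2 : ℕ) : ℝ) →
      a = 1 ∧ ∀ k, w k = 0) : Pr (m + 2) t := by
  by_contra hcon
  unfold Pr at hcon
  push Not at hcon
  refine noSeq m (fun _ => t) t t tendsto_const_nhds ht1 ht2 (fun _ => le_rfl) hrig ?_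
  intro i
  have hi : (0 : ℝ) ≤ i := Nat.cast_nonneg i
  exact hcon (1 / ((i : ℝ) + 1)) (by positivity)

/-- rigidity from the large degree theorem -/
lemma Pr_large {t : ℝ} (ht1 : 1 < t) (ht2 : t ≤ 2) : ∃ N₀ : ℕ, ∀ N, N₀ ≤ N → Pr N t := by
  obtain ⟨N₀, H⟩ := Pool.Agent.Results.MP_f0bc87_an.ThresholdExponent.result.1 t ht1
  refine ⟨N₀ + 2, fun N hN => ?_⟩
  obtain ⟨m, rfl⟩ : ∃ m, N = m + 2 := ⟨N - 2, by omega⟩
  refine Pr_of_rigid m ht1 ht2 ?_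
  intro a z w ha0 ha1 hz h hne hle
  have hr := crit_roots h
  have hd : (a : ℂ) ∉ (derivative (Q a z)).roots := by
    rw [hr]
    intro hmem
    obtain ⟨k, -, hk⟩ := Multiset.mem_map.1 hmem
    exact hne k hk
  have ha : (a : ℂ) ∈ (Q a z).roots := by
    rw [Q_roots]; exact Multiset.mem_cons_self _ _
  have hdeg := Q_natDegree a z
  obtain ⟨h1, h2⟩ := H (Q a z) (by rw [hdeg]; omega) (Q_roots_norm ha0 ha1 hz) a ha hd t le_rfl
  have hsum : ((derivative (Q a z)).roots.map (fun w : ℂ => ‖w - a‖⁻¹ ^ t)).sum =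
      ∑ k, ‖w k - (a : ℂ)‖⁻¹ ^ t := by
    rw [hr, Multiset.map_map]; rfl
  rw [hsum, hdeg] at h1 h2
  have h3 : m + 2 + 1 - 1 = m + 2 := by omega
  rw [h3] at h1 h2
  obtain ⟨h4, h5⟩ := h2.1 (le_antisymm hle h1)
  have ha' : a = 1 := by
    rw [Complex.norm_real, Real.norm_eq_abs, abs_of_nonneg ha0] at h4
    exact h4
  refine ⟨ha', fun k => ?_⟩
  have h6 : (derivative (Q a z)).eval (w k) = 0 := by
    have := h (w k)
    unfold Q
    rw [this, Finset.prod_eq_zero (Finset.mem_univ k) (by ring), mul_zero]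
  rw [h5, (Q_monic a z).leadingCoeff] at h6
  simp only [C_1, one_mul, derivative_sub, derivative_X_pow, derivative_C, sub_zero, eval_mul,
    eval_C, eval_pow, eval_X] at h6
  rcases mul_eq_zero.1 h6 with h7 | h7
  · exfalso
    have : ((m + 2 + 1 : ℕ) : ℂ) ≠ 0 := by exact_mod_cast Nat.succ_ne_zero (m + 2)
    exact this h7
  · exact pow_eq_zero_iff (by omega) |>.1 h7

/-- one exponent for all degrees -/
theorem universal : ∃ s : ℝ, 1 < s ∧ s < 2 ∧ ∀ N : ℕ, 1 ≤ N → Pr N s := by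
  obtain ⟨N₀, H⟩ := Pr_large (t := 3 / 2) (by norm_num) (by norm_num)
  have hfin : ∀ M : ℕ, ∃ s : ℝ, 3 / 2 ≤ s ∧ s < 2 ∧ ∀ N : ℕ, 1 ≤ N → N ≤ M → Pr N s := by
    intro M
    induction M with
    | zero => exact ⟨3 / 2, le_rfl, by norm_num, fun N h1 h2 => by omega⟩
    | succ M ih =>
      obtain ⟨s, hs, hs2, hP⟩ := ih
      obtain ⟨s', hs', hs2', hP'⟩ := Pr_small (M + 1) (by omega)
      refine ⟨max s s', hs.trans (le_max_left _ _), max_lt hs2 hs2', fun N h1 h2 => ?_⟩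
      rcases Nat.lt_or_ge N (M + 1) with h3 | h3
      · exact Pr_mono (by linarith) (le_max_left _ _) (hP N h1 (by omega))
      · obtain rfl : N = M + 1 := by omega
        exact Pr_mono (by linarith) (le_max_right _ _) hP'
  obtain ⟨s, hs, hs2, hP⟩ := hfin N₀
  refine ⟨s, by linarith, hs2, fun N hN => ?_⟩
  rcases Nat.lt_or_ge N N₀ with h | h
  · exact hP N hN h.le
  · exact Pr_mono (by norm_num) hs (H N h)

/-- thresholds: bounded by one exponent below two, and tending to one -/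
theorem thresholds : ∃ (s₁ : ℝ) (σ : ℕ → ℝ), s₁ < 2 ∧ (∀ n, 1 < σ n ∧ σ n ≤ s₁) ∧
    Tendsto σ atTop (𝓝 1) ∧ ∀ n : ℕ, 2 ≤ n → Pr (n - 1) (σ n) := by
  obtain ⟨s₁, h1, h2, hP⟩ := universal
  obtain ⟨T, hT⟩ : ∃ T : ℕ → Set ℝ, ∀ n, T n = {s | 1 < s ∧ s ≤ s₁ ∧ (2 ≤ n → Pr (n - 1) s)} :=
    ⟨_, fun n => rfl⟩
  have hne : ∀ n, (T n).Nonempty := by
    intro n
    rw [hT]
    exact ⟨s₁, h1, le_rfl, fun hn => hP (n - 1) (by omega)⟩
  have hσ : ∀ n : ℕ, ∃ s ∈ T n, s < sInf (T n) + 1 / ((n : ℝ) + 1) := by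
    intro n
    have hn : (0 : ℝ) ≤ n := Nat.cast_nonneg n
    exact exists_lt_of_csInf_lt (hne n) (by
      have : 0 < 1 / ((n : ℝ) + 1) := by positivity
      linarith)
  choose σ hσT hσlt using hσ
  have hσT' : ∀ n, 1 < σ n ∧ σ n ≤ s₁ ∧ (2 ≤ n → Pr (n - 1) (σ n)) := by
    intro n
    have := hσT n
    rw [hT] at this
    exact this
  refine ⟨s₁, σ, h2, fun n => ⟨(hσT' n).1, (hσT' n).2.1⟩, ?_, fun n hn => (hσT' n).2.2 hn⟩
  rw [tendsto_order]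
  constructor
  · intro b hb
    exact Eventually.of_forall fun n => hb.trans (hσT' n).1
  · intro b hb
    -- `t` between `1` and `b`
    obtain ⟨t, ht1, htb, hts⟩ : ∃ t : ℝ, 1 < t ∧ t < b ∧ t ≤ s₁ := by
      refine ⟨min ((1 + b) / 2) s₁, lt_min (by linarith) h1, ?_, min_le_right _ _⟩
      exact (min_le_left _ _).trans_lt (by linarith)
    obtain ⟨N₀, H⟩ := Pr_large ht1 (hts.trans h2.le)
    have hlim : Tendsto (fun n : ℕ => 1 / ((n : ℝ) + 1)) atTop (𝓝 0) :=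
      tendsto_one_div_add_atTop_nhds_zero_nat
    have ev := hlim.eventually (gt_mem_nhds (sub_pos.2 htb))
    filter_upwards [ev, eventually_ge_atTop (N₀ + 1)] with n hn1 hn2
    have hmem : t ∈ T n := by
      rw [hT]
      exact ⟨ht1, hts, fun _ => H (n - 1) (by omega)⟩
    have hbdd : BddBelow (T n) := ⟨1, fun s hs => by
      rw [hT] at hs
      exact hs.1.le⟩
    have h3 := csInf_le hbdd hmem
    have h4 := hσlt n
    linarith

end Pool.Agent.H957.SE.Uni
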